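import Pool.Agent.Helper27.SX.Defs2

/-!
# SX-A1: the Coxeter relations of the line 01 (MP_a16d94_pr)

Notation: `a p = pa g1 g2 p = g1^(-p) al g1^p`, `a' p = qa g1 g2 p`, `c = g2 g1⁻¹`, `w k = ww g1 g2 k = a (k-1) ... a 0`. PROOF (`h : Rel g1 g2`).
(1) `g1 * g2 = g2 * g1 * al` by definition of `al`. `g1^k g2 = g2 g1^k w k` (`pow_mul_g2`): induction `g1^(k+1) g2 = g1 g2 g1^k w k = g2 g1 al g1^k w k = g2 g1^(k+1) (a k) (w k)`.
(2) `c` commutes with `al`: `r2` says `g1⁻¹ al g1 = g2⁻¹ al g2` (`aa` at `1`).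
(3) `sq`, `braid`: conjugate `r1`, `r3` by `g1^p` (`pa_conj`).
(4) `comm0`: `Commute (al) (a k)` for `k ≥ 2`: it is enough to show `Commute al (a (-k))` for `k ≥ 2` (conjugate by `g1^k`), by induction on `k`: `k = 2` from `r4`. Step: for `k ≥ 2`
 `c⁻¹ a(-k) c = a(-k-1)` (`conj_c`): `c⁻¹ g1^k = g1 g2⁻¹ g1^k = g1^(k+1) (w k) g2⁻¹` by (1), so `c⁻¹ a(-k) c = g1^(k+1) (w k) (g2⁻¹ al g2) (w k)⁻¹ g1^(-k-1)`, `g2⁻¹ al g2 = a 1`, and
 `(w k) (a 1) (w k)⁻¹ = al`: `a 1 a 0 a 1 (a 1 a 0)⁻¹ = a 0` (braid), and `a 2, ..., a (k-1)` commute with `a 0 = al` (induction hypothesis for smaller values; so prove `comm0` for all `2 ≤ j ≤ k` together with the induction).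
 As `c` commutes with `al`: `Commute al (a (-k))` implies `Commute al (a (-k-1))`.
(5) `comm`: conjugate by `g1^p`.
(6) `qa_eq`: `a' p = a p` for `p ≥ 0`: `g2⁻¹ a(m) g2 = (g1^m g2)⁻¹ al (g1^m g2) = (w m)⁻¹ g1^(-m) (g2⁻¹ al g2) g1^m (w m) = (w m)⁻¹ a(m+1) (w m) = a(m+1)` (all factors of `w m` commute with `a (m+1)`).
(7) `Rel.symm`: `al g2 g1 = (al g1 g2)⁻¹ = al g1 g2` (`al_symm`), `r2` symmetric, `r3`, `r4` by `a' 1 = a 1`, `a' 2 = a 2` (the case `m = 1` of (6) only needs `r2`, `r4`).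
-/

set_option autoImplicit false

namespace Pool.Agent.Helper27.SX

variable {Q : Type*} [Group Q] {g1 g2 : Q}

theorem al_symm (h : Rel g1 g2) : al g2 g1 = al g1 g2 := by
  have h1 := h.r1
  have h2 : al g2 g1 = (al g1 g2)⁻¹ := by unfold al; group
  rw [h2]
  exact inv_eq_of_mul_eq_one_left h1

/-- conjugation shifts the index -/
theorem pa_conj (g1 g2 : Q) (p q : ℤ) : g1 ^ (-q) * pa g1 g2 p * g1 ^ q = pa g1 g2 (p + q) := by
  unfold pa aa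
  rw [zpow_add, neg_add, zpow_add, ← mul_assoc, ← mul_assoc, zpow_neg g1 p, zpow_neg g1 q,
    ← (Commute.zpow_zpow_self g1 p q).inv_inv.eq]
  simp only [mul_assoc]

/-- conjugation shifts the index -/
theorem qa_conj (g1 g2 : Q) (p q : ℤ) : g2 ^ (-q) * qa g1 g2 p * g2 ^ q = qa g1 g2 (p + q) := by
  unfold qa aa
  rw [zpow_add, neg_add, zpow_add, ← mul_assoc, ← mul_assoc, zpow_neg g2 p, zpow_neg g2 q,
    ← (Commute.zpow_zpow_self g2 p q).inv_inv.eq]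
  simp only [mul_assoc]

private theorem pa_zero (g1 g2 : Q) : pa g1 g2 0 = al g1 g2 := by
  unfold pa aa
  simp

private theorem qa_zero (g1 g2 : Q) : qa g1 g2 0 = al g1 g2 := by
  unfold qa aa
  simp

private theorem mul_al (g1 g2 : Q) : g1 * g2 = g2 * g1 * al g1 g2 := by
  unfold al; group

theorem pow_mul_g2 (g1 g2 : Q) (k : ℕ) : g1 ^ k * g2 = g2 * g1 ^ k * ww g1 g2 k := by
  induction k with
  | zero => simp [ww]
  | succ k ih =>
    have e : al g1 g2 * g1 ^ k = g1 ^ k * pa g1 g2 k := by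
      unfold pa aa
      rw [zpow_neg, zpow_natCast]
      group
    rw [pow_succ', mul_assoc, ih]
    calc g1 * (g2 * g1 ^ k * ww g1 g2 k) = (g1 * g2) * g1 ^ k * ww g1 g2 k := by group
      _ = g2 * g1 * (al g1 g2 * g1 ^ k) * ww g1 g2 k := by rw [mul_al g1 g2]; group
      _ = g2 * (g1 * g1 ^ k) * ww g1 g2 (k + 1) := by
        rw [e]
        simp only [ww, mul_assoc]

private theorem r2' (h : Rel g1 g2) : g2⁻¹ * al g1 g2 * g2 = pa g1 g2 1 := by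
  have h2 := h.r2
  unfold pa
  rw [h2]
  unfold aa
  simp

theorem Rel.comm_c (h : Rel g1 g2) : Commute (g2 * g1⁻¹) (al g1 g2) := by
  have h2 := r2' h
  unfold pa aa at h2
  rw [zpow_neg, zpow_one] at h2
  have h3 : al g1 g2 * g2 = g2 * (g1⁻¹ * al g1 g2 * g1) := by
    rw [← h2]; group
  change g2 * g1⁻¹ * al g1 g2 = al g1 g2 * (g2 * g1⁻¹)
  rw [← mul_assoc, h3]
  group

theorem Rel.sq (h : Rel g1 g2) (p : ℤ) : pa g1 g2 p * pa g1 g2 p = 1 := by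
  have h1 := h.r1
  unfold pa aa
  calc g1 ^ (-p) * al g1 g2 * g1 ^ p * (g1 ^ (-p) * al g1 g2 * g1 ^ p)
      = g1 ^ (-p) * (al g1 g2 * al g1 g2) * g1 ^ p := by group
    _ = 1 := by rw [h1]; group

theorem Rel.braid (h : Rel g1 g2) (p : ℤ) :
    pa g1 g2 p * pa g1 g2 (p + 1) * pa g1 g2 p = pa g1 g2 (p + 1) * pa g1 g2 p * pa g1 g2 (p + 1) := by
  have h3 := h.r3
  have e0 : pa g1 g2 p = g1 ^ (-p) * al g1 g2 * g1 ^ p := rfl
  have e1 : pa g1 g2 (p + 1) = g1 ^ (-p) * aa g1 (al g1 g2) 1 * g1 ^ p := by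
    rw [add_comm p 1, ← pa_conj]
    rfl
  rw [e0, e1]
  calc g1 ^ (-p) * al g1 g2 * g1 ^ p * (g1 ^ (-p) * aa g1 (al g1 g2) 1 * g1 ^ p) *
        (g1 ^ (-p) * al g1 g2 * g1 ^ p)
      = g1 ^ (-p) * (al g1 g2 * aa g1 (al g1 g2) 1 * al g1 g2) * g1 ^ p := by group
    _ = g1 ^ (-p) * (aa g1 (al g1 g2) 1 * al g1 g2 * aa g1 (al g1 g2) 1) * g1 ^ p := by rw [h3]
    _ = _ := by group

/-- commutation is invariant under shifts -/
private theorem comm_shift {p q : ℤ} (r : ℤ) (h : Commute (pa g1 g2 p) (pa g1 g2 q)) :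
    Commute (pa g1 g2 (p + r)) (pa g1 g2 (q + r)) := by
  rw [← pa_conj, ← pa_conj]
  have h' : pa g1 g2 p * pa g1 g2 q = pa g1 g2 q * pa g1 g2 p := h
  change g1 ^ (-r) * pa g1 g2 p * g1 ^ r * (g1 ^ (-r) * pa g1 g2 q * g1 ^ r) =
    g1 ^ (-r) * pa g1 g2 q * g1 ^ r * (g1 ^ (-r) * pa g1 g2 p * g1 ^ r)
  calc g1 ^ (-r) * pa g1 g2 p * g1 ^ r * (g1 ^ (-r) * pa g1 g2 q * g1 ^ r)
      = g1 ^ (-r) * (pa g1 g2 p * pa g1 g2 q) * g1 ^ r := by group
    _ = g1 ^ (-r) * (pa g1 g2 q * pa g1 g2 p) * g1 ^ r := by rw [h']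
    _ = _ := by group

/-- the conjugate of `a 1` by `w k`, `k ≥ 2` -/
private theorem ww_conj (h : Rel g1 g2) (k : ℕ) (hk : 2 ≤ k)
    (hC : ∀ j : ℕ, 2 ≤ j → j < k → Commute (al g1 g2) (pa g1 g2 j)) :
    ww g1 g2 k * pa g1 g2 1 = al g1 g2 * ww g1 g2 k := by
  induction k, hk using Nat.le_induction with
  | base =>
    have h3 := h.braid 0
    rw [zero_add, pa_zero] at h3
    simp only [ww]
    rw [Nat.cast_one, Nat.cast_zero, pa_zero, mul_one, ← mul_assoc, ← h3]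
  | succ k hk ih =>
    have ih' := ih (fun j h1 h2 => hC j h1 (by omega))
    have hc := (hC k hk (by omega)).eq
    simp only [ww]
    rw [mul_assoc, ih', ← mul_assoc, ← hc, mul_assoc]

private theorem conj_aux (h : Rel g1 g2) (k : ℕ) (hk : 2 ≤ k)
    (hC : ∀ j : ℕ, 2 ≤ j → j < k → Commute (al g1 g2) (pa g1 g2 j)) :
    (g2 * g1⁻¹)⁻¹ * pa g1 g2 (-k) * (g2 * g1⁻¹) = pa g1 g2 (-k - 1) := by
  have e1 : (g2 * g1⁻¹)⁻¹ * g1 ^ k = g1 ^ (k + 1) * ww g1 g2 k * g2⁻¹ := by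
    have h1 := pow_mul_g2 g1 g2 k
    have h2 : g1 ^ k = g2 * g1 ^ k * ww g1 g2 k * g2⁻¹ := by rw [← h1]; group
    calc (g2 * g1⁻¹)⁻¹ * g1 ^ k = g1 * g2⁻¹ * g1 ^ k := by group
      _ = g1 * g2⁻¹ * (g2 * g1 ^ k * ww g1 g2 k * g2⁻¹) := by rw [← h2]
      _ = _ := by rw [pow_succ']; group
  have e2 : pa g1 g2 (-k) = g1 ^ k * al g1 g2 * (g1 ^ k)⁻¹ := by
    unfold pa aa
    rw [neg_neg, zpow_neg, zpow_natCast]
  have e3 : pa g1 g2 (-k - 1) = g1 ^ (k + 1) * al g1 g2 * (g1 ^ (k + 1))⁻¹ := by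
    unfold pa aa
    have : (-(k : ℤ) - 1) = -((k + 1 : ℕ) : ℤ) := by push_cast; ring
    rw [this, neg_neg, zpow_neg, zpow_natCast]
  have e4 := ww_conj h k hk hC
  calc (g2 * g1⁻¹)⁻¹ * pa g1 g2 (-k) * (g2 * g1⁻¹)
      = ((g2 * g1⁻¹)⁻¹ * g1 ^ k) * al g1 g2 * ((g2 * g1⁻¹)⁻¹ * g1 ^ k)⁻¹ := by rw [e2]; group
    _ = g1 ^ (k + 1) * (ww g1 g2 k * (g2⁻¹ * al g1 g2 * g2)) * (ww g1 g2 k)⁻¹ * (g1 ^ (k + 1))⁻¹ := by
      rw [e1, mul_inv_rev, mul_inv_rev, inv_inv]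
      simp only [mul_assoc]
    _ = g1 ^ (k + 1) * al g1 g2 * (g1 ^ (k + 1))⁻¹ := by
      rw [r2' h, e4, mul_assoc (g1 ^ (k + 1)) (al g1 g2 * ww g1 g2 k), mul_inv_cancel_right]
    _ = _ := e3.symm

private theorem comm0 (h : Rel g1 g2) (k : ℕ) (hk : 2 ≤ k) : Commute (al g1 g2) (pa g1 g2 k) := by
  induction k using Nat.strong_induction_on with
  | _ k ih =>
    rcases Nat.eq_or_lt_of_le hk with h2 | h2
    · subst h2
      exact h.r4
    · obtain ⟨m, rfl⟩ : ∃ m, k = m + 1 := ⟨k - 1, by omega⟩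
      have hm : 2 ≤ m := by omega
      have hc := conj_aux h m hm (fun j h1 h2 => ih j (by omega) h1)
      have h0 := ih m (by omega) hm
      -- `al` commutes with `a (-m)`
      have h1 : Commute (al g1 g2) (pa g1 g2 (-m)) := by
        rw [← pa_zero] at h0
        have := comm_shift (-(m : ℤ)) h0
        rw [zero_add, add_neg_cancel, pa_zero] at this
        exact this.symm
      have h3 : Commute (al g1 g2) (pa g1 g2 (-m - 1)) := by
        rw [← hc]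
        have hcc := h.comm_c
        exact (hcc.symm.inv_right.mul_right h1).mul_right hcc.symm
      rw [← pa_zero] at h3
      have := comm_shift ((m + 1 : ℕ) : ℤ) h3
      rw [zero_add] at this
      have e : (-(m : ℤ) - 1 + ((m + 1 : ℕ) : ℤ)) = 0 := by push_cast; ring
      rw [e, pa_zero] at this
      exact this.symm

theorem Rel.comm (h : Rel g1 g2) (p q : ℤ) (hpq : p + 2 ≤ q) : Commute (pa g1 g2 p) (pa g1 g2 q) := by
  obtain ⟨k, hk⟩ : ∃ k : ℕ, (k : ℤ) = q - p := ⟨(q - p).toNat, by omega⟩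
  have h0 := comm0 h k (by omega)
  rw [← pa_zero] at h0
  have := comm_shift p h0
  rw [zero_add, hk, sub_add_cancel] at this
  exact this

/-- conjugation by `c = g2 g1⁻¹` -/
theorem Rel.conj_c (h : Rel g1 g2) (k : ℕ) (hk : 2 ≤ k) :
    (g2 * g1⁻¹)⁻¹ * pa g1 g2 (-k) * (g2 * g1⁻¹) = pa g1 g2 (-k - 1) :=
  conj_aux h k hk (fun j h1 _ => comm0 h j h1)

/-- `w k` commutes with `a q`, `q ≥ k + 1` -/
private theorem ww_comm (h : Rel g1 g2) (k : ℕ) (q : ℤ) (hq : (k : ℤ) + 1 ≤ q) :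
    Commute (ww g1 g2 k) (pa g1 g2 q) := by
  induction k with
  | zero => exact Commute.one_left _
  | succ k ih =>
    simp only [ww]
    push_cast at hq
    exact (h.comm k q (by omega)).mul_left (ih (by omega))

theorem Rel.qa_eq (h : Rel g1 g2) (m : ℕ) : qa g1 g2 m = pa g1 g2 m := by
  induction m with
  | zero => rw [Nat.cast_zero, qa_zero, pa_zero]
  | succ m ih =>
    have e1 : qa g1 g2 ((m + 1 : ℕ) : ℤ) = g2⁻¹ * qa g1 g2 m * g2 := by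
      rw [Nat.cast_succ, ← qa_conj, zpow_neg, zpow_one]
    have e2 : pa g1 g2 ((m + 1 : ℕ) : ℤ) = (g1 ^ m)⁻¹ * pa g1 g2 1 * g1 ^ m := by
      have := pa_conj g1 g2 1 m
      rw [zpow_neg, zpow_natCast] at this
      rw [this]
      congr 1
      push_cast
      ring
    have e3 : pa g1 g2 m = (g1 ^ m)⁻¹ * al g1 g2 * g1 ^ m := by
      unfold pa aa
      rw [zpow_neg, zpow_natCast]
    have e4 := (ww_comm h m ((m + 1 : ℕ) : ℤ) (by push_cast; omega)).eq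
    rw [e1, ih, e3]
    calc g2⁻¹ * ((g1 ^ m)⁻¹ * al g1 g2 * g1 ^ m) * g2
        = (g1 ^ m * g2)⁻¹ * al g1 g2 * (g1 ^ m * g2) := by group
      _ = (ww g1 g2 m)⁻¹ * ((g1 ^ m)⁻¹ * (g2⁻¹ * al g1 g2 * g2) * g1 ^ m) * ww g1 g2 m := by
        rw [pow_mul_g2, mul_inv_rev, mul_inv_rev]
        simp only [mul_assoc]
      _ = (ww g1 g2 m)⁻¹ * (pa g1 g2 ((m + 1 : ℕ) : ℤ) * ww g1 g2 m) := by
        rw [r2' h, ← e2, mul_assoc]
      _ = _ := by rw [← e4, inv_mul_cancel_left]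

theorem Rel.symm (h : Rel g1 g2) : Rel g2 g1 := by
  have e := al_symm h
  have h2 := h.r2
  have h3 : aa g2 (al g1 g2) 2 = aa g1 (al g1 g2) 2 := h.qa_eq 2
  constructor
  · rw [e]; exact h.r1
  · rw [e]; exact h2.symm
  · rw [e, ← h2]; exact h.r3
  · rw [e, h3]; exact h.r4

/-- the line 02 is the line 01 for the exchanged generators -/
theorem Rel.qa_symm (h : Rel g1 g2) (p : ℤ) : pa g2 g1 p = qa g1 g2 p ∧ qa g2 g1 p = pa g1 g2 p := by
  unfold pa qa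
  rw [al_symm h]
  exact ⟨rfl, rfl⟩

end Pool.Agent.Helper27.SX
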