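import Mathlib

/-!
# SX-A7: the star lemma (pure group theory, MP_a16d94_pr)

PROOF. For a finite set `Y` let `P Y` be the subgroup generated by the `t x y`, `x ≠ y`, `x, y ∈ Y`. Show by induction on `Y` (`Finset.induction_on`): `q ∈ P Y`, `π q = 1` imply `q = 1`. `Y = ∅`: the subgroup is trivial. `Y = insert y0 Y'`:
every `q ∈ P Y` is in `P Y'` or of the form `t y0 z * w'`, `z ∈ Y'`, `w' ∈ P Y'`. Use induction on products of generators multiplied on the left (`Subgroup.closure_induction_left`; the inverse of a generator is itself by `hsq`):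
* `t x y` with `x, y ∈ Y'`: `t x y * w'` is fine; `t x y * (t y0 z * w') = t y0 (swap x y z) * (t x y * w')` by `hc` (`swap x y` fixes `y0`; `swap x y z ∈ Y'`).
* `t y0 y` (or `t y y0 = t y0 y`): `t y0 y * w'` is fine; `t y0 y * (t y0 z * w')`: if `z = y` it is `w'`; otherwise `t y0 y * t y0 z = t y z * t y0 y` (`hc` with `swap y0 y y0 = y`, `swap y0 y z = z`) `= t y0 z * t y z`
  (`hc` for the conjugation of `t y0 y` by `t y z`: `t y z * t y0 y * (t y z)⁻¹ = t y0 z`), so it is `t y0 z * (t y z * w')`.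
If `q = t y0 z * w'` and `π q = 1` then `π w'` fixes `y0` (all `swap x y`, `x, y ∈ Y'`, fix `y0`), so `y0 = π q y0 = swap y0 z y0 = z`, a contradiction. So `q ∈ P Y'`. Finally an element of the whole closure is in some `P Y` (closure induction; `P` is monotone).
-/

set_option autoImplicit false

namespace Pool.Agent.Helper27.SX

private def GS45 {X Q : Type*} (t : X → X → Q) (Y : Finset X) : Set Q :=
  {q | ∃ x y, x ∈ Y ∧ y ∈ Y ∧ x ≠ y ∧ q = t x y}

private theorem ins45 {X Q : Type*} [DecidableEq X] [Group Q] (t : X → X → Q)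
    (hs : ∀ x y, x ≠ y → t x y = t y x) (hsq : ∀ x y, x ≠ y → t x y * t x y = 1)
    (hc : ∀ x y z w, x ≠ y → z ≠ w → t z w * t x y * (t z w)⁻¹ = t (Equiv.swap z w x) (Equiv.swap z w y))
    (Y : Finset X) (y0 : X) (hy0 : y0 ∉ Y) {q : Q}
    (hq : q ∈ Subgroup.closure (GS45 t (insert y0 Y))) :
    q ∈ Subgroup.closure (GS45 t Y) ∨
      ∃ z ∈ Y, ∃ w ∈ Subgroup.closure (GS45 t Y), q = t y0 z * w := by
  have hinv : ∀ x y, x ≠ y → (t x y)⁻¹ = t x y := fun x y h =>
    inv_eq_of_mul_eq_one_left (hsq x y h)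
  -- multiplication by a generator
  have step : ∀ g ∈ GS45 t (insert y0 Y), ∀ q : Q, (q ∈ Subgroup.closure (GS45 t Y) ∨
      ∃ z ∈ Y, ∃ w ∈ Subgroup.closure (GS45 t Y), q = t y0 z * w) →
      (g * q ∈ Subgroup.closure (GS45 t Y) ∨
      ∃ z ∈ Y, ∃ w ∈ Subgroup.closure (GS45 t Y), g * q = t y0 z * w) := by
    have key : ∀ y ∈ Y, ∀ q : Q, (q ∈ Subgroup.closure (GS45 t Y) ∨
        ∃ z ∈ Y, ∃ w ∈ Subgroup.closure (GS45 t Y), q = t y0 z * w) →
        (t y0 y * q ∈ Subgroup.closure (GS45 t Y) ∨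
        ∃ z ∈ Y, ∃ w ∈ Subgroup.closure (GS45 t Y), t y0 y * q = t y0 z * w) := by
      rintro y hy q (hq | ⟨z, hz, w, hw, rfl⟩)
      · exact Or.inr ⟨y, hy, q, hq, rfl⟩
      · have hy0y : y0 ≠ y := fun h => hy0 (h ▸ hy)
        have hy0z : y0 ≠ z := fun h => hy0 (h ▸ hz)
        by_cases hzy : z = y
        · subst hzy
          left
          rw [← mul_assoc, hsq _ _ hy0y, one_mul]
          exact hw
        · right
          refine ⟨z, hz, t y z * w, Subgroup.mul_mem _ (Subgroup.subset_closure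
            ⟨y, z, hy, hz, Ne.symm hzy, rfl⟩) hw, ?_⟩
          have h1 : t y0 y * t y0 z * (t y0 y)⁻¹ = t y z := by
            rw [hc y0 z y0 y hy0z hy0y, Equiv.swap_apply_left,
              Equiv.swap_apply_of_ne_of_ne (Ne.symm hy0z) hzy]
          have h2 : t y z * t y0 y * (t y z)⁻¹ = t y0 z := by
            rw [hc y0 y y z hy0y (Ne.symm hzy), Equiv.swap_apply_left,
              Equiv.swap_apply_of_ne_of_ne hy0y hy0z]
          have h3 : t y0 y * t y0 z = t y z * t y0 y := by rw [← h1]; group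
          have h4 : t y z * t y0 y = t y0 z * t y z := by rw [← h2]; group
          rw [← mul_assoc, h3, h4, mul_assoc]
    rintro g ⟨x, y, hx, hy, hxy, rfl⟩ q hq
    rw [Finset.mem_insert] at hx hy
    rcases hx with rfl | hx
    · rcases hy with rfl | hy
      · exact absurd rfl hxy
      · exact key y hy q hq
    · rcases hy with rfl | hy
      · rw [hs x y hxy]
        exact key x hx q hq
      · rcases hq with hq | ⟨z, hz, w, hw, rfl⟩
        · exact Or.inl (Subgroup.mul_mem _ (Subgroup.subset_closure ⟨x, y, hx, hy, hxy, rfl⟩) hq)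
        · right
          have hxy0 : y0 ≠ x := fun h => hy0 (h ▸ hx)
          have hyy0 : y0 ≠ y := fun h => hy0 (h ▸ hy)
          have hzz0 : y0 ≠ z := fun h => hy0 (h ▸ hz)
          have hsw : Equiv.swap x y z ∈ Y := by
            by_cases h1 : z = x
            · rw [h1, Equiv.swap_apply_left]; exact hy
            · by_cases h2 : z = y
              · rw [h2, Equiv.swap_apply_right]; exact hx
              · rw [Equiv.swap_apply_of_ne_of_ne h1 h2]; exact hz
          refine ⟨Equiv.swap x y z, hsw, t x y * w, Subgroup.mul_mem _ (Subgroup.subset_closure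
            ⟨x, y, hx, hy, hxy, rfl⟩) hw, ?_⟩
          have h1 := hc y0 z x y hzz0 hxy
          rw [Equiv.swap_apply_of_ne_of_ne hxy0 hyy0] at h1
          rw [← h1]
          group
  refine Subgroup.closure_induction_left (p := fun q _ => q ∈ Subgroup.closure (GS45 t Y) ∨
      ∃ z ∈ Y, ∃ w ∈ Subgroup.closure (GS45 t Y), q = t y0 z * w) ?_ ?_ ?_ hq
  · exact Or.inl (Subgroup.one_mem _)
  · intro g hg q _ hq'
    exact step g hg q hq'
  · intro g hg q _ hq'
    obtain ⟨x, y, hx, hy, hxy, rfl⟩ := hg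
    rw [hinv x y hxy]
    exact step _ ⟨x, y, hx, hy, hxy, rfl⟩ q hq'

private theorem fin45 {X Q : Type*} [DecidableEq X] [Group Q] (π : Q →* Equiv.Perm X) (t : X → X → Q)
    (hs : ∀ x y, x ≠ y → t x y = t y x) (hsq : ∀ x y, x ≠ y → t x y * t x y = 1)
    (hπ : ∀ x y, x ≠ y → π (t x y) = Equiv.swap x y)
    (hc : ∀ x y z w, x ≠ y → z ≠ w → t z w * t x y * (t z w)⁻¹ = t (Equiv.swap z w x) (Equiv.swap z w y))
    (Y : Finset X) : ∀ q : Q, q ∈ Subgroup.closure (GS45 t Y) → π q = 1 → q = 1 := by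
  induction Y using Finset.induction_on with
  | empty =>
    intro q hq _
    have h1 : GS45 t (∅ : Finset X) = ∅ := by
      ext q
      simp only [Set.mem_empty_iff_false, iff_false]
      rintro ⟨x, y, hx, -⟩
      exact absurd hx (Finset.notMem_empty x)
    rw [h1, Subgroup.closure_empty, Subgroup.mem_bot] at hq
    exact hq
  | insert y0 Y hy0 ih =>
    intro q hq h1
    rcases ins45 t hs hsq hc Y y0 hy0 hq with h2 | ⟨z, hz, w, hw, rfl⟩
    · exact ih q h2 h1
    · exfalso
      have hy0z : y0 ≠ z := fun h => hy0 (h ▸ hz)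
      have hfix : ∀ w ∈ Subgroup.closure (GS45 t Y), π w y0 = y0 := by
        intro w hw
        induction hw using Subgroup.closure_induction with
        | mem g hg =>
          obtain ⟨x, y, hx, hy, hxy, rfl⟩ := hg
          rw [hπ x y hxy]
          exact Equiv.swap_apply_of_ne_of_ne (fun h => hy0 (h ▸ hx)) (fun h => hy0 (h ▸ hy))
        | one => rw [map_one]; rfl
        | mul a b _ _ ha hb =>
          rw [map_mul, Equiv.Perm.mul_apply, hb, ha]
        | inv a _ ha =>
          rw [map_inv, Equiv.Perm.inv_eq_iff_eq]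
          exact ha.symm
      have h3 : π (t y0 z * w) y0 = y0 := by rw [h1]; rfl
      rw [map_mul, Equiv.Perm.mul_apply, hfix w hw, hπ y0 z hy0z, Equiv.swap_apply_left] at h3
      exact hy0z h3.symm

theorem star {X Q : Type*} [DecidableEq X] [Group Q] (π : Q →* Equiv.Perm X) (t : X → X → Q)
    (hs : ∀ x y, x ≠ y → t x y = t y x) (hsq : ∀ x y, x ≠ y → t x y * t x y = 1)
    (hπ : ∀ x y, x ≠ y → π (t x y) = Equiv.swap x y)
    (hc : ∀ x y z w, x ≠ y → z ≠ w → t z w * t x y * (t z w)⁻¹ = t (Equiv.swap z w x) (Equiv.swap z w y))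
    {n : Q} (hn : n ∈ Subgroup.closure {q | ∃ x y, x ≠ y ∧ q = t x y}) (h1 : π n = 1) : n = 1 := by
  have hmono : ∀ Y Y' : Finset X, Y ⊆ Y' → GS45 t Y ⊆ GS45 t Y' := by
    rintro Y Y' h q ⟨x, y, hx, hy, hxy, rfl⟩
    exact ⟨x, y, h hx, h hy, hxy, rfl⟩
  have h2 : ∃ Y : Finset X, n ∈ Subgroup.closure (GS45 t Y) := by
    clear h1
    induction hn using Subgroup.closure_induction with
    | mem g hg =>
      obtain ⟨x, y, hxy, rfl⟩ := hg
      exact ⟨{x, y}, Subgroup.subset_closure ⟨x, y, by simp, by simp, hxy, rfl⟩⟩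
    | one => exact ⟨∅, Subgroup.one_mem _⟩
    | mul a b _ _ ha hb =>
      obtain ⟨Y, hY⟩ := ha
      obtain ⟨Y', hY'⟩ := hb
      exact ⟨Y ∪ Y', Subgroup.mul_mem _
        (Subgroup.closure_mono (hmono _ _ Finset.subset_union_left) hY)
        (Subgroup.closure_mono (hmono _ _ Finset.subset_union_right) hY')⟩
    | inv a _ ha =>
      obtain ⟨Y, hY⟩ := ha
      exact ⟨Y, Subgroup.inv_mem _ hY⟩
  obtain ⟨Y, hY⟩ := h2
  exact fin45 π t hs hsq hπ hc Y n hY h1

end Pool.Agent.Helper27.SX
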