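import Pool.Agent.Helper27.SX.A8
import Pool.Agent.Helper27.SX.A7

/-!
# SX-A8b: the presentation of Houghton's group (MP_a16d94_pr)

PROOF. `rigid`: `N` = closure of the `t x y`. `N ≤ HH g1 g2`, normalised by `g1`, `g2` and inverses (`equiv_tt`). Every `q ∈ HH` is `n * g1^a * g2^b`, `n ∈ N`, `a b : ℤ` (closure induction on the left, `Subgroup.closure_induction_left`: `g1 * (n g1^a g2^b) = (g1 n g1⁻¹) g1^(a+1) g2^b`;
`g2 * (n g1^a g2^b) = (g2 n g2⁻¹) g2 g1^a g2^b` and `g2 g1^a = n' g1^a g2` with `n' ∈ N` because `al = t (0,0) (0,1) ∈ N` (`tt_zero`): `g2 g1 = n'' g1 g2`, `n'' = (g1 g2 al⁻¹ (g1 g2)⁻¹)`, induction on `a`, or: modulo the normal subgroup the two generators commute).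
Let `π q = 1`. `π n` moves only finitely many points (it is a product of swaps), `G2^b` fixes ray 1, `G1^a (1,m) = (1,m+a)` for large `m`: so `a = 0`; the same on ray 2: `b = 0`. So `q = n` and `star` applies (`hc` from `equiv_tt` with `q = t z w`, `tt_mem`).
-/

set_option autoImplicit false

namespace Pool.Agent.Helper27.SX

variable {Q : Type*} [Group Q] {g1 g2 : Q}

/-- the subgroup generated by the transpositions -/
private def NN_34 (g1 g2 : Q) : Subgroup Q := Subgroup.closure {q | ∃ x y : X, x ≠ y ∧ q = tt g1 g2 x y}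

private lemma conj_mem_34 (h : Rel g1 g2) (π : Q →* Equiv.Perm X) (h1 : π g1 = G1) (h2 : π g2 = G2)
    {q : Q} (hq : q ∈ HH g1 g2) {n : Q} (hn : n ∈ NN_34 g1 g2) : q * n * q⁻¹ ∈ NN_34 g1 g2 := by
  induction hn using Subgroup.closure_induction with
  | mem z hz =>
    obtain ⟨x, y, hxy, rfl⟩ := hz
    rw [h.equiv_tt π h1 h2 hq hxy]
    exact Subgroup.subset_closure ⟨_, _, fun he => hxy ((π q).injective he), rfl⟩
  | one => rw [mul_one, mul_inv_cancel]; exact one_mem _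
  | mul x y _ _ hx hy =>
    have e : q * (x * y) * q⁻¹ = (q * x * q⁻¹) * (q * y * q⁻¹) := by group
    rw [e]
    exact mul_mem hx hy
  | inv x _ hx =>
    have e : q * x⁻¹ * q⁻¹ = (q * x * q⁻¹)⁻¹ := by group
    rw [e]
    exact inv_mem hx

private lemma comm_zpow_34 (h : Rel g1 g2) (π : Q →* Equiv.Perm X) (h1 : π g1 = G1)
    (h2 : π g2 = G2) {x y : Q} (_hx : x ∈ HH g1 g2) (hy : y ∈ HH g1 g2)
    (hc : x * y * x⁻¹ * y⁻¹ ∈ NN_34 g1 g2) (a : ℤ) :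
    x * y ^ a * x⁻¹ * (y ^ a)⁻¹ ∈ NN_34 g1 g2 := by
  let K : Subgroup Q :=
    { carrier := {z | z ∈ HH g1 g2 ∧ x * z * x⁻¹ * z⁻¹ ∈ NN_34 g1 g2}
      mul_mem' := by
        rintro u v ⟨hu, hu'⟩ ⟨hv, hv'⟩
        refine ⟨mul_mem hu hv, ?_⟩
        have e : x * (u * v) * x⁻¹ * (u * v)⁻¹ =
            (x * u * x⁻¹ * u⁻¹) * (u * (x * v * x⁻¹ * v⁻¹) * u⁻¹) := by group
        rw [e]
        exact mul_mem hu' (conj_mem_34 h π h1 h2 hu hv')
      one_mem' := ⟨one_mem _, by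
        have e : x * 1 * x⁻¹ * 1⁻¹ = 1 := by group
        rw [e]
        exact one_mem _⟩
      inv_mem' := by
        rintro u ⟨hu, hu'⟩
        refine ⟨inv_mem hu, ?_⟩
        have e : x * u⁻¹ * x⁻¹ * u⁻¹⁻¹ = u⁻¹ * (x * u * x⁻¹ * u⁻¹)⁻¹ * u⁻¹⁻¹ := by group
        rw [e]
        exact conj_mem_34 h π h1 h2 (inv_mem hu) (inv_mem hu') }
  have hyK : y ∈ K := ⟨hy, hc⟩
  exact (K.zpow_mem hyK a).2

private lemma g1_mem_34 (g1 g2 : Q) : g1 ∈ HH g1 g2 := Subgroup.subset_closure (Or.inl rfl)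

private lemma g2_mem_34 (g1 g2 : Q) : g2 ∈ HH g1 g2 := Subgroup.subset_closure (Or.inr rfl)

private lemma form_34 (h : Rel g1 g2) (π : Q →* Equiv.Perm X) (h1 : π g1 = G1) (h2 : π g2 = G2)
    {q : Q} (hq : q ∈ HH g1 g2) : ∃ n ∈ NN_34 g1 g2, ∃ a b : ℤ, q = n * g1 ^ a * g2 ^ b := by
  have hg1 := g1_mem_34 g1 g2
  have hg2 := g2_mem_34 g1 g2
  have hal : al g1 g2 ∈ NN_34 g1 g2 := by
    rw [← tt_zero]
    exact Subgroup.subset_closure ⟨(0, 0), (0, 1), by simp, rfl⟩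
  have hc1 : g2 * g1 * g2⁻¹ * g1⁻¹ ∈ NN_34 g1 g2 := by
    have e : g2 * g1 * g2⁻¹ * g1⁻¹ = (g1 * g2) * (al g1 g2)⁻¹ * (g1 * g2)⁻¹ := by
      unfold al; group
    rw [e]
    exact conj_mem_34 h π h1 h2 (mul_mem hg1 hg2) (inv_mem hal)
  have hc2 : g2⁻¹ * g1 * g2⁻¹⁻¹ * g1⁻¹ ∈ NN_34 g1 g2 := by
    have e : g2⁻¹ * g1 * g2⁻¹⁻¹ * g1⁻¹ = g1 * al g1 g2 * g1⁻¹ := by
      unfold al; group
    rw [e]
    exact conj_mem_34 h π h1 h2 hg1 hal
  have hstep : ∀ x ∈ ({g1, g2} : Set Q), ∀ y, (∃ n ∈ NN_34 g1 g2, ∃ a b : ℤ, y = n * g1 ^ a * g2 ^ b) →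
      (∃ n ∈ NN_34 g1 g2, ∃ a b : ℤ, x * y = n * g1 ^ a * g2 ^ b) ∧
      (∃ n ∈ NN_34 g1 g2, ∃ a b : ℤ, x⁻¹ * y = n * g1 ^ a * g2 ^ b) := by
    rintro x hx y ⟨n, hn, a, b, rfl⟩
    rcases hx with rfl | hx
    · refine ⟨⟨x * n * x⁻¹, conj_mem_34 h π h1 h2 hg1 hn, a + 1, b, ?_⟩,
        ⟨x⁻¹ * n * x⁻¹⁻¹, conj_mem_34 h π h1 h2 (inv_mem hg1) hn, a - 1, b, ?_⟩⟩
      · rw [add_comm, zpow_add, zpow_one]; group
      · rw [sub_eq_neg_add, zpow_add, zpow_neg_one]; group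
    · rw [Set.mem_singleton_iff] at hx
      subst hx
      refine ⟨⟨(x * n * x⁻¹) * (x * g1 ^ a * x⁻¹ * (g1 ^ a)⁻¹),
          mul_mem (conj_mem_34 h π h1 h2 hg2 hn) (comm_zpow_34 h π h1 h2 hg2 hg1 hc1 a),
          a, b + 1, ?_⟩,
        ⟨(x⁻¹ * n * x⁻¹⁻¹) * (x⁻¹ * g1 ^ a * x⁻¹⁻¹ * (g1 ^ a)⁻¹),
          mul_mem (conj_mem_34 h π h1 h2 (inv_mem hg2) hn)
            (comm_zpow_34 h π h1 h2 (inv_mem hg2) hg1 hc2 a), a, b - 1, ?_⟩⟩
      · rw [add_comm, zpow_add, zpow_one]; group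
      · rw [sub_eq_neg_add, zpow_add, zpow_neg_one]; group
  induction hq using Subgroup.closure_induction_left with
  | one => exact ⟨1, one_mem _, 0, 0, by simp⟩
  | mul_left x hx y _ ih => exact (hstep x hx y ih).1
  | inv_mul_cancel x hx y _ ih => exact (hstep x hx y ih).2

private lemma fin_34 (π : Q →* Equiv.Perm X) (h1 : π g1 = G1) (h2 : π g2 = G2) {n : Q}
    (hn : n ∈ NN_34 g1 g2) : ∃ M : ℕ, ∀ x : X, M ≤ x.2 → π n x = x := by
  induction hn using Subgroup.closure_induction with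
  | mem z hz =>
    obtain ⟨x, y, hxy, rfl⟩ := hz
    refine ⟨x.2 + y.2 + 1, fun w hw => ?_⟩
    rw [pi_tt π h1 h2 hxy]
    apply Equiv.swap_apply_of_ne_of_ne
    · rintro rfl; omega
    · rintro rfl; omega
  | one => exact ⟨0, fun x _ => by rw [map_one]; rfl⟩
  | mul x y _ _ hx hy =>
    obtain ⟨M, hM⟩ := hx
    obtain ⟨M', hM'⟩ := hy
    refine ⟨M + M', fun w hw => ?_⟩
    rw [map_mul, Equiv.Perm.mul_apply, hM' w (by omega), hM w (by omega)]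
  | inv x _ hx =>
    obtain ⟨M, hM⟩ := hx
    refine ⟨M, fun w hw => ?_⟩
    rw [map_inv, Equiv.Perm.inv_eq_iff_eq]
    exact (hM w hw).symm

private lemma shift_34 (σ ρ : Equiv.Perm X) (j : Fin 3) (hσ : ∀ m : ℕ, σ (j, m) = (j, m + 1))
    (M : ℕ) (hρ : ∀ x : X, M ≤ x.2 → ρ x = x) (a : ℤ)
    (ha : ∀ m : ℕ, ρ ((σ ^ a) (j, m)) = (j, m)) : a = 0 := by
  have hk : ∀ k m : ℕ, (σ ^ k) (j, m) = (j, m + k) := by
    intro k
    induction k with
    | zero => intro m; simp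
    | succ k ih =>
      intro m
      rw [pow_succ, Equiv.Perm.mul_apply, hσ, ih]
      congr 1
      omega
  obtain ⟨k, rfl | rfl⟩ := a.eq_nat_or_neg
  · have h1 := ha M
    rw [zpow_natCast, hk, hρ _ (by simp)] at h1
    have h2 := congrArg Prod.snd h1
    simp only at h2
    omega
  · have h1 := ha (M + k)
    have h3 : (σ ^ (-(k : ℤ))) (j, M + k) = (j, M) := by
      rw [zpow_neg, zpow_natCast, Equiv.Perm.inv_eq_iff_eq, hk]
    rw [h3, hρ _ (by simp)] at h1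
    have h2 := congrArg Prod.snd h1
    simp only at h2
    omega

theorem Rel.rigid (h : Rel g1 g2) (π : Q →* Equiv.Perm X) (h1 : π g1 = G1) (h2 : π g2 = G2)
    {q : Q} (hq : q ∈ HH g1 g2) (hπ : π q = 1) : q = 1 := by
  obtain ⟨n, hn, a, b, rfl⟩ := form_34 h π h1 h2 hq
  obtain ⟨M, hM⟩ := fin_34 π h1 h2 hn
  have hG1 : ∀ m : ℕ, G1 (1, m) = (1, m + 1) := fun m => by
    show gf 1 0 (1, m) = _
    simp [gf]
  have hG2 : ∀ m : ℕ, G2 (2, m) = (2, m + 1) := fun m => by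
    show gf 2 0 (2, m) = _
    simp [gf]
  have hG21 : ∀ m : ℕ, G2 (1, m) = (1, m) := fun m => by
    show gf 2 0 (1, m) = _
    simp [gf]
  have hπ' : ∀ x, π n ((G1 ^ a) ((G2 ^ b) x)) = x := by
    intro x
    have e := congrArg (fun σ : Equiv.Perm X => σ x) hπ
    simp only [map_mul, map_zpow, h1, h2, Equiv.Perm.mul_apply, Equiv.Perm.one_apply] at e
    exact e
  have ha : a = 0 := by
    refine shift_34 G1 (π n) 1 hG1 M hM a fun m => ?_
    have e := hπ' (1, m)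
    rwa [Equiv.Perm.zpow_apply_eq_self_of_apply_eq_self (hG21 m)] at e
  subst ha
  have hb : b = 0 := by
    refine shift_34 G2 (π n) 2 hG2 M hM b fun m => ?_
    have e := hπ' (2, m)
    rwa [zpow_zero, Equiv.Perm.one_apply] at e
  subst hb
  rw [zpow_zero, zpow_zero, mul_one, mul_one] at hπ ⊢
  refine star π (tt g1 g2) (fun x y hxy => h.tt_symm hxy) (fun x y hxy => h.tt_sq hxy)
    (fun x y hxy => pi_tt π h1 h2 hxy) (fun x y z w hxy hzw => ?_) hn hπ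
  rw [h.equiv_tt π h1 h2 (tt_mem g1 g2 z w) hxy, pi_tt π h1 h2 hzw]

end Pool.Agent.Helper27.SX
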