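import Pool.Agent.Helper27.SX.A9b
import Pool.Agent.Helper27.SX.A8b

/-!
# SX-A10: the homomorphism to the wreath product is injective (MP_a16d94_pr)

PROOF. `π = SemidirectProduct.rightHom.comp Φ : Q →* Perm X`, `π g1 = G1`, `π g2 = G2`, `π (ι a) = 1`. `Φ (lx ι g1 g2 x a) = inl (Pi.mulSingle x a)` (`phi_lx`): `Φ (rr g1 g2 x) = sft (rr G1 G2 x)`, `rr G1 G2 x` maps `x0` to `x`, and
`sft σ * inl f * (sft σ)⁻¹ = inl (fun y => f (σ⁻¹ y))` (`SemidirectProduct.inl_aut` and the definition of `mulAutArrow`).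
For a finite set `Y` of points let `N Y` be the subgroup generated by the ranges of `lx x`, `x ∈ Y`. (1) `q ∈ N Y`, `Φ q = 1` imply `q = 1`: induction on `Y`: as the `lx x a`, `lx y a'` commute for `x ≠ y` (`WRel.lx_comm`), every `q ∈ N (insert y Y)` is `lx y a * q'`, `q' ∈ N Y` (`y ∉ Y`); the value at `y` of
`(Φ q).left` is `a` (the value at `y` of `(Φ q').left` is `1`), so `a = 1`. (2) Every `q` in the closure of `range ι ∪ {g1, g2}` is `n * s`, `n ∈ N Y` for some `Y`, `s ∈ HH g1 g2` (closure induction on the left: `ι a = lx x0 a` since `rr x0 = 1`; `g1 * (n * s) = (g1 n g1⁻¹) * (g1 s)` and `WRel.lx_g1`; inverses of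
the generators in the same way, `g1⁻¹ * lx x a * g1 = lx (G1⁻¹ x) a`). (3) `Φ q = 1` gives `π s = 1` (`π n = 1`), so `s = 1` by `Rel.rigid`, and (1) applies to `n`.
-/

set_option autoImplicit false

namespace Pool.Agent.Helper27.SX

variable {Q : Type*} [Group Q] {g1 g2 : Q}

private lemma G1_zero67 (m : ℕ) : G1 (0, m + 1) = (0, m) := by
  show gf 1 0 (0, m + 1) = (0, m)
  simp [gf]

private lemma G1_one67 (m : ℕ) : G1 (1, m) = (1, m + 1) := by
  show gf 1 0 (1, m) = (1, m + 1)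
  simp [gf]

private lemma G1_x067 : G1 (0, 0) = (1, 0) := by
  show gf 1 0 (0, 0) = (1, 0)
  simp [gf]

private lemma G2_two67 (m : ℕ) : G2 (2, m) = (2, m + 1) := by
  show gf 2 0 (2, m) = (2, m + 1)
  simp [gf]

private lemma G2_x067 : G2 (0, 0) = (2, 0) := by
  show gf 2 0 (0, 0) = (2, 0)
  simp [gf]

private lemma rr_x067 (x : X) : rr G1 G2 x x0 = x := by
  obtain ⟨i, m⟩ := x
  have h1 : ∀ m : ℕ, (G1 ^ m) (0, m) = (0, 0) := by
    intro m
    induction m with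
    | zero => rfl
    | succ m ih =>
      rw [pow_succ, Equiv.Perm.mul_apply, G1_zero67, ih]
  have h2 : ∀ m : ℕ, (G1 ^ (m + 1)) (0, 0) = (1, m) := by
    intro m
    induction m with
    | zero => rw [zero_add, pow_one, G1_x067]
    | succ m ih => rw [pow_succ', Equiv.Perm.mul_apply, ih, G1_one67]
  have h3 : ∀ m : ℕ, (G2 ^ (m + 1)) (0, 0) = (2, m) := by
    intro m
    induction m with
    | zero => rw [zero_add, pow_one, G2_x067]
    | succ m ih => rw [pow_succ', Equiv.Perm.mul_apply, ih, G2_two67]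
  unfold rr x0
  fin_cases i
  · show (if (0 : Fin 3) = 0 then G1 ^ (-(m : ℤ)) else _) (0, 0) = (0, m)
    rw [if_pos rfl, zpow_neg, zpow_natCast, Equiv.Perm.inv_eq_iff_eq]
    exact (h1 m).symm
  · show (if (1 : Fin 3) = 0 then G1 ^ (-(m : ℤ)) else if (1 : Fin 3) = 1 then G1 ^ (m + 1) else
      G2 ^ (m + 1)) (0, 0) = (1, m)
    rw [if_neg (by decide), if_pos rfl]
    exact h2 m
  · show (if (2 : Fin 3) = 0 then G1 ^ (-(m : ℤ)) else if (2 : Fin 3) = 1 then G1 ^ (m + 1) else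
      G2 ^ (m + 1)) (0, 0) = (2, m)
    rw [if_neg (by decide), if_neg (by decide)]
    exact h3 m

theorem sft_conj {A : Type} [Group A] (σ : Equiv.Perm X) (f : X → A) :
    (sft σ : W A) * SemidirectProduct.inl f * (sft σ)⁻¹ = SemidirectProduct.inl (fun y => f (σ⁻¹ y)) := by
  rw [← map_inv]
  show (SemidirectProduct.inr σ : W A) * SemidirectProduct.inl f * SemidirectProduct.inr σ⁻¹ = _
  rw [← SemidirectProduct.inl_aut]
  rfl

theorem phi_lx {A : Type} [Group A] {ι : A →* Q} (Φ : Q →* W A) (hι : ∀ a, Φ (ι a) = lamp a)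
    (h1 : Φ g1 = sft G1) (h2 : Φ g2 = sft G2) (x : X) (a : A) :
    Φ (lx ι g1 g2 x a) = SemidirectProduct.inl (Pi.mulSingle x a) := by
  have hr : Φ (rr g1 g2 x) = sft (rr G1 G2 x) := by
    unfold rr
    split_ifs
    · rw [map_zpow, h1, map_zpow]
    · rw [map_pow, h1, map_pow]
    · rw [map_pow, h2, map_pow]
  show Φ (rr g1 g2 x * ι a * (rr g1 g2 x)⁻¹) = _
  rw [map_mul, map_mul, map_inv, hr, hι]
  show (sft (rr G1 G2 x) : W A) * SemidirectProduct.inl (Pi.mulSingle x0 a) *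
    (sft (rr G1 G2 x))⁻¹ = _
  rw [sft_conj]
  congr 1
  funext y
  by_cases hy : y = x
  · subst hy
    have h3 : (rr G1 G2 y)⁻¹ y = x0 := by
      rw [Equiv.Perm.inv_eq_iff_eq, rr_x067]
    rw [h3, Pi.mulSingle_eq_same, Pi.mulSingle_eq_same]
  · have h3 : (rr G1 G2 x)⁻¹ y ≠ x0 := by
      intro h4
      rw [Equiv.Perm.inv_eq_iff_eq, rr_x067] at h4
      exact hy h4
    rw [Pi.mulSingle_eq_of_ne h3, Pi.mulSingle_eq_of_ne hy]

/-- the subgroup of all lamps -/
private def NN67 {A : Type} [Group A] (ι : A →* Q) (g1 g2 : Q) : Subgroup Q :=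
  ⨆ x : X, (lx ι g1 g2 x).range

private lemma NN_fin67 {A : Type} [Group A] {ι : A →* Q} {q : Q} (hq : q ∈ NN67 ι g1 g2) :
    ∃ t : Finset X, q ∈ ⨆ x : t, (lx ι g1 g2 x).range := by
  unfold NN67 at hq
  rw [iSup_eq_iSup_finset, Subgroup.mem_iSup_of_directed] at hq
  · obtain ⟨t, ht⟩ := hq
    refine ⟨t, ?_⟩
    rwa [iSup_subtype']  at ht
  · intro s t
    refine ⟨s ∪ t, ?_, ?_⟩
    · exact biSup_mono (fun x hx => Finset.mem_union_left _ hx)
    · exact biSup_mono (fun x hx => Finset.mem_union_right _ hx)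

private lemma NN_left67 {A : Type} [Group A] {ι : A →* Q} (h : WRel ι g1 g2) (Φ : Q →* W A)
    (hι : ∀ a, Φ (ι a) = lamp a) (h1 : Φ g1 = sft G1) (h2 : Φ g2 = sft G2) {q : Q}
    (hq : q ∈ NN67 ι g1 g2) :
    ∃ f : X → A, Φ q = SemidirectProduct.inl f ∧ (f = 1 → q = 1) := by
  classical
  obtain ⟨t, ht⟩ := NN_fin67 hq
  have hπ1 : (SemidirectProduct.rightHom.comp Φ : Q →* Equiv.Perm X) g1 = G1 := by
    rw [MonoidHom.comp_apply, h1]
    rfl
  have hπ2 : (SemidirectProduct.rightHom.comp Φ : Q →* Equiv.Perm X) g2 = G2 := by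
    rw [MonoidHom.comp_apply, h2]
    rfl
  have hcomm : Pairwise fun i j : t => ∀ (x y : A),
      Commute (lx ι g1 g2 (i : X) x) (lx ι g1 g2 (j : X) y) := by
    intro i j hij x y
    exact h.lx_comm _ hπ1 hπ2 (fun hc => hij (Subtype.ext hc)) x y
  rw [← MonoidHom.noncommPiCoprod_range (H := fun _ : t => A)
    (ϕ := fun i : t => lx ι g1 g2 (i : X)) (hcomm := hcomm)] at ht
  obtain ⟨f, rfl⟩ := ht
  let ext : (t → A) →* (X → A) :=
    { toFun := fun f x => if hx : x ∈ t then f ⟨x, hx⟩ else 1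
      map_one' := by
        funext x
        simp
      map_mul' := by
        intro f g
        funext x
        by_cases hx : x ∈ t
        · simp [hx]
        · simp [hx] }
  have hext : Φ.comp (MonoidHom.noncommPiCoprod (N := fun _ : t => A)
      (fun i : t => lx ι g1 g2 (i : X)) hcomm) =
      (SemidirectProduct.inl (φ := (mulAutArrow : Equiv.Perm X →* MulAut (X → A)))).comp ext := by
    apply MonoidHom.pi_ext
    intro i a
    rw [MonoidHom.comp_apply, MonoidHom.noncommPiCoprod_mulSingle, phi_lx Φ hι h1 h2,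
      MonoidHom.comp_apply]
    congr 1
    funext x
    show _ = if hx : x ∈ t then (Pi.mulSingle i a : t → A) ⟨x, hx⟩ else 1
    by_cases hx : x = i
    · subst hx
      rw [Pi.mulSingle_eq_same, dif_pos i.2, Pi.mulSingle_eq_same]
    · rw [Pi.mulSingle_eq_of_ne hx]
      split_ifs with hx'
      · rw [Pi.mulSingle_eq_of_ne]
        intro h3
        exact hx (congrArg Subtype.val h3)
      · rfl
  refine ⟨ext f, DFunLike.congr_fun hext f, fun hf => ?_⟩
  have hf1 : f = 1 := by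
    funext x
    have h3 := congrFun hf x
    change (if hx : (x : X) ∈ t then f ⟨x, hx⟩ else 1) = 1 at h3
    rw [dif_pos x.2] at h3
    exact h3
  rw [hf1, map_one]

private lemma NN_conj67 {A : Type} [Group A] {ι : A →* Q} (h : WRel ι g1 g2)
    (π : Q →* Equiv.Perm X) (h1 : π g1 = G1) (h2 : π g2 = G2) {s : Q} (hs : s ∈ HH g1 g2)
    {n : Q} (hn : n ∈ NN67 ι g1 g2) : s * n * s⁻¹ ∈ NN67 ι g1 g2 := by
  have h3 : NN67 ι g1 g2 ≤ (NN67 ι g1 g2).comap (MulAut.conj s).toMonoidHom := by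
    conv_lhs => unfold NN67
    apply iSup_le
    rintro x _ ⟨a, rfl⟩
    show s * lx ι g1 g2 x a * s⁻¹ ∈ NN67 ι g1 g2
    rw [h.lx_equiv π h1 h2 hs]
    exact (le_iSup (fun x : X => (lx ι g1 g2 x).range) (π s x)) ⟨a, rfl⟩
  exact h3 hn

theorem wker {A : Type} [Group A] {ι : A →* Q} (h : WRel ι g1 g2) (Φ : Q →* W A)
    (hι : ∀ a, Φ (ι a) = lamp a) (h1 : Φ g1 = sft G1) (h2 : Φ g2 = sft G2) {q : Q}
    (hq : q ∈ Subgroup.closure (Set.range ι ∪ {g1, g2})) (hΦ : Φ q = 1) : q = 1 := by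
  classical
  set π : Q →* Equiv.Perm X := SemidirectProduct.rightHom.comp Φ with hπ
  have hπ1 : π g1 = G1 := by
    rw [hπ, MonoidHom.comp_apply, h1]
    rfl
  have hπ2 : π g2 = G2 := by
    rw [hπ, MonoidHom.comp_apply, h2]
    rfl
  have hg1 : g1 ∈ HH g1 g2 := Subgroup.subset_closure (by simp)
  have hg2 : g2 ∈ HH g1 g2 := Subgroup.subset_closure (by simp)
  have hιN : ∀ a, ι a ∈ NN67 ι g1 g2 := by
    intro a
    have h3 : lx ι g1 g2 x0 a = ι a := by
      show rr g1 g2 x0 * ι a * (rr g1 g2 x0)⁻¹ = ι a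
      have h4 : rr g1 g2 x0 = 1 := by
        show (if (0 : Fin 3) = 0 then g1 ^ (-((0 : ℕ) : ℤ)) else _) = 1
        rw [if_pos rfl]
        simp
      rw [h4, one_mul, inv_one, mul_one]
    rw [← h3]
    exact (le_iSup (fun x : X => (lx ι g1 g2 x).range) x0) ⟨a, rfl⟩
  have hdec : ∃ n ∈ NN67 ι g1 g2, ∃ s ∈ HH g1 g2, q = n * s := by
    have hH : ∀ u ∈ HH g1 g2, ∀ y, (∃ n ∈ NN67 ι g1 g2, ∃ s ∈ HH g1 g2, y = n * s) →
        ∃ n ∈ NN67 ι g1 g2, ∃ s ∈ HH g1 g2, u * y = n * s := by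
      rintro u hu y ⟨n, hn, s, hs, rfl⟩
      exact ⟨u * n * u⁻¹, NN_conj67 h π hπ1 hπ2 hu hn, u * s, mul_mem hu hs, by group⟩
    have hN : ∀ u ∈ NN67 ι g1 g2, ∀ y, (∃ n ∈ NN67 ι g1 g2, ∃ s ∈ HH g1 g2, y = n * s) →
        ∃ n ∈ NN67 ι g1 g2, ∃ s ∈ HH g1 g2, u * y = n * s := by
      rintro u hu y ⟨n, hn, s, hs, rfl⟩
      exact ⟨u * n, mul_mem hu hn, s, hs, by rw [mul_assoc]⟩
    clear hΦ
    induction hq using Subgroup.closure_induction_left with
    | one => exact ⟨1, one_mem _, 1, one_mem _, (one_mul 1).symm⟩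
    | mul_left x hx y hy ih =>
      rcases hx with ⟨a, rfl⟩ | hx | hx
      · exact hN _ (hιN a) _ ih
      · rw [hx]; exact hH _ hg1 _ ih
      · rw [Set.mem_singleton_iff.1 hx]; exact hH _ hg2 _ ih
    | inv_mul_cancel x hx y hy ih =>
      rcases hx with ⟨a, rfl⟩ | hx | hx
      · exact hN _ (inv_mem (hιN a)) _ ih
      · rw [hx]; exact hH _ (inv_mem hg1) _ ih
      · rw [Set.mem_singleton_iff.1 hx]; exact hH _ (inv_mem hg2) _ ih
  obtain ⟨n, hn, s, hs, rfl⟩ := hdec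
  obtain ⟨f, hf, hf1⟩ := NN_left67 h Φ hι h1 h2 hn
  have hπn : π n = 1 := by
    rw [hπ, MonoidHom.comp_apply, hf, SemidirectProduct.rightHom_inl]
  have hπs : π s = 1 := by
    have h3 : π (n * s) = 1 := by
      rw [hπ, MonoidHom.comp_apply, hΦ, map_one]
    rwa [map_mul, hπn, one_mul] at h3
  have hs1 : s = 1 := h.rel.rigid π hπ1 hπ2 hs hπs
  rw [hs1, mul_one] at hΦ ⊢
  apply hf1
  rw [hf] at hΦ
  exact SemidirectProduct.inl_injective (hΦ.trans (map_one _).symm)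

end Pool.Agent.Helper27.SX
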