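import Pool.Agent.Helper27.SX.A11a

/-!
# SX-A11: finite presentation (MP_a16d94_pr)

PROOF. `fp`: `A` is finitely generated by a finite set `S` (`Group.IsFinitelyPresented` gives a surjection from a free group). `K = Monoid.Coprod A (FreeGroup (Fin 2))` is finitely presented (instance). `x1, x2` = the two free generators in `K`. Finite set `Rr ⊂ K` of relators: the four of `Rel` for `x1, x2`, and
for `a, a' ∈ S` the commutators of `inl a` with `aa x1 (al x1 x2) 1`, `x1 * al x1 x2`, `x2 * al x1 x2`, `x2 * x1⁻¹`, `aa x1 (al x1 x2) (-2)`, and of `inl a` with `x1⁻¹ * inl a' * x1`. `Q = K ⧸ normalClosure Rr` is finitely presented (`Group.IsFinitelyPresented.quotient`). `ι : A →* Q`, `g1, g2` the images: `WRel ι g1 g2` holds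
(commutation with all elements of the generating set `S` gives commutation with `A`: `Subgroup.closure_induction` in the centralizer; for `w6` twice). `Φ : Q →* W A`: `QuotientGroup.lift` of `Coprod.lift lamp (FreeGroup.lift ![sft G1, sft G2])`, the relators are in the kernel by `wrelW`. The closure of `range ι ∪ {g1, g2}` is `⊤`, so `Φ` is
injective (`wker`), its range is `GA A` (`MonoidHom.map_closure`), and `Q ≃* Φ.range = GA A` (`MonoidHom.ofInjective`, `Group.IsFinitelyPresented.equiv`).
-/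

set_option autoImplicit false

namespace Pool.Agent.Helper27.SX

section
variable {Q Q' : Type*} [Group Q] [Group Q']

private theorem map_al (φ : Q →* Q') (a b : Q) : φ (al a b) = al (φ a) (φ b) := by
  unfold al
  simp only [map_mul, map_inv]

private theorem map_aa (φ : Q →* Q') (a s : Q) (p : ℤ) : φ (aa a s p) = aa (φ a) (φ s) p := by
  unfold aa
  simp only [map_mul, map_zpow]

/-- commutation with a generating set -/
private theorem comm_all {A : Type*} [Group A] (ι : A →* Q) (S : Set A) (hS : Subgroup.closure S = ⊤)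
    (y : Q) (h : ∀ a ∈ S, Commute (ι a) y) (a : A) : Commute (ι a) y := by
  have ha : a ∈ Subgroup.closure S := by rw [hS]; exact Subgroup.mem_top a
  induction ha using Subgroup.closure_induction with
  | mem x hx => exact h x hx
  | one => rw [map_one]; exact Commute.one_left _
  | mul x z _ _ hx hz => rw [map_mul]; exact hx.mul_left hz
  | inv x _ hx => rw [map_inv]; exact hx.inv_left

end

theorem fp (A : Type) [Group A] [Group.IsFinitelyPresented A] : Group.IsFinitelyPresented (GA A) := by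
  classical
  obtain ⟨n, φ, hφ, -⟩ := (inferInstance : Group.IsFinitelyPresented A).out
  obtain ⟨S, hSf, hSg⟩ : ∃ S : Set A, S.Finite ∧ Subgroup.closure S = ⊤ := by
    refine ⟨φ '' Set.range FreeGroup.of, (Set.finite_range _).image _, ?_⟩
    rw [← MonoidHom.map_closure, FreeGroup.closure_range_of, ← MonoidHom.range_eq_map]
    exact MonoidHom.range_eq_top.mpr hφ
  let K := Monoid.Coprod A (FreeGroup (Fin 2))
  let i' : A →* K := Monoid.Coprod.inl
  let x1 : K := Monoid.Coprod.inr (FreeGroup.of 0)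
  let x2 : K := Monoid.Coprod.inr (FreeGroup.of 1)
  let R0 : Set K := {al x1 x2 * al x1 x2, aa x1 (al x1 x2) 1 * (aa x2 (al x1 x2) 1)⁻¹,
    (al x1 x2 * aa x1 (al x1 x2) 1 * al x1 x2) * (aa x1 (al x1 x2) 1 * al x1 x2 * aa x1 (al x1 x2) 1)⁻¹,
    (al x1 x2 * aa x1 (al x1 x2) 2) * (aa x1 (al x1 x2) 2 * al x1 x2)⁻¹}
  let Y : Set K := {aa x1 (al x1 x2) 1, x1 * al x1 x2, x2 * al x1 x2, x2 * x1⁻¹, aa x1 (al x1 x2) (-2)}
  let R1 : Set K := (fun p : A × K => (i' p.1 * p.2) * (p.2 * i' p.1)⁻¹) '' (S ×ˢ Y)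
  let R2 : Set K := (fun p : A × A => (i' p.1 * (x1⁻¹ * i' p.2 * x1)) * ((x1⁻¹ * i' p.2 * x1) * i' p.1)⁻¹) '' (S ×ˢ S)
  let R : Set K := R0 ∪ R1 ∪ R2
  have hYf : Y.Finite := by simp only [Y, Set.finite_insert, Set.finite_singleton]
  have hRf : R.Finite := by
    refine Set.Finite.union (Set.Finite.union ?_ ?_) ?_
    · simp only [R0, Set.finite_insert, Set.finite_singleton]
    · exact (hSf.prod hYf).image _
    · exact (hSf.prod hSf).image _
  let N : Subgroup K := Subgroup.normalClosure R
  have hN : N.Normal := Subgroup.normalClosure_normal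
  have hQfp : Group.IsFinitelyPresented (K ⧸ N) :=
    Group.IsFinitelyPresented.quotient N ⟨R, hRf, rfl⟩
  let mk : K →* K ⧸ N := QuotientGroup.mk' N
  have hmk : ∀ r ∈ R, mk r = 1 := by
    intro r hr
    exact (QuotientGroup.eq_one_iff r).mpr (Subgroup.subset_normalClosure hr)
  let ι : A →* K ⧸ N := mk.comp i'
  have hR0 : ∀ r ∈ R0, mk r = 1 := fun r hr => hmk r (Or.inl (Or.inl hr))
  have hR1 : ∀ y ∈ Y, ∀ a, Commute (ι a) (mk y) := by
    intro y hy
    apply comm_all ι S hSg
    intro a ha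
    have := hmk ((i' a * y) * (y * i' a)⁻¹) (Or.inl (Or.inr ⟨(a, y), ⟨ha, hy⟩, rfl⟩))
    rw [map_mul, map_inv, mul_inv_eq_one, map_mul, map_mul] at this
    exact this
  have hR2 : ∀ a a', Commute (ι a) ((mk x1)⁻¹ * ι a' * mk x1) := by
    have h1 : ∀ a' ∈ S, ∀ a, Commute (ι a) ((mk x1)⁻¹ * ι a' * mk x1) := by
      intro a' ha'
      apply comm_all ι S hSg
      intro a ha
      have := hmk ((i' a * (x1⁻¹ * i' a' * x1)) * ((x1⁻¹ * i' a' * x1) * i' a)⁻¹)
        (Or.inr ⟨(a, a'), ⟨ha, ha'⟩, rfl⟩)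
      rw [map_mul, map_inv, mul_inv_eq_one] at this
      simp only [map_mul, map_inv] at this
      exact this
    intro a a'
    let ι' : A →* K ⧸ N := (MulAut.conj (mk x1)⁻¹).toMonoidHom.comp ι
    have e : ∀ b, ι' b = (mk x1)⁻¹ * ι b * mk x1 := by
      intro b
      change (mk x1)⁻¹ * ι b * (mk x1)⁻¹⁻¹ = _
      rw [inv_inv]
    have h2 := comm_all ι' S hSg (ι a) (fun b hb => by rw [e]; exact (h1 b hb a).symm) a'
    rw [e] at h2
    exact h2.symm
  have hrel : Rel (mk x1) (mk x2) := by
    constructor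
    · have := hR0 _ (show al x1 x2 * al x1 x2 ∈ R0 from Or.inl rfl)
      rwa [map_mul, map_al] at this
    · have := hR0 _ (show aa x1 (al x1 x2) 1 * (aa x2 (al x1 x2) 1)⁻¹ ∈ R0 from Or.inr (Or.inl rfl))
      rw [map_mul, map_inv, mul_inv_eq_one, map_aa, map_aa, map_al] at this
      exact this
    · have := hR0 _ (show (al x1 x2 * aa x1 (al x1 x2) 1 * al x1 x2) *
        (aa x1 (al x1 x2) 1 * al x1 x2 * aa x1 (al x1 x2) 1)⁻¹ ∈ R0 from Or.inr (Or.inr (Or.inl rfl)))
      rw [map_mul, map_inv, mul_inv_eq_one] at this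
      simp only [map_mul, map_aa, map_al] at this
      exact this
    · have := hR0 _ (show (al x1 x2 * aa x1 (al x1 x2) 2) * (aa x1 (al x1 x2) 2 * al x1 x2)⁻¹ ∈ R0
        from Or.inr (Or.inr (Or.inr rfl)))
      rw [map_mul, map_inv, mul_inv_eq_one] at this
      simp only [map_mul, map_aa, map_al] at this
      exact this
  have hW : WRel ι (mk x1) (mk x2) := by
    refine ⟨hrel, ?_, ?_, ?_, ?_, ?_, hR2⟩
    · intro a
      have := hR1 _ (show aa x1 (al x1 x2) 1 ∈ Y from Or.inl rfl) a
      rwa [map_aa, map_al] at this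
    · intro a
      have := hR1 _ (show x1 * al x1 x2 ∈ Y from Or.inr (Or.inl rfl)) a
      rwa [map_mul, map_al] at this
    · intro a
      have := hR1 _ (show x2 * al x1 x2 ∈ Y from Or.inr (Or.inr (Or.inl rfl))) a
      rwa [map_mul, map_al] at this
    · intro a
      have := hR1 _ (show x2 * x1⁻¹ ∈ Y from Or.inr (Or.inr (Or.inr (Or.inl rfl)))) a
      rwa [map_mul, map_inv] at this
    · intro a
      have := hR1 _ (show aa x1 (al x1 x2) (-2) ∈ Y from Or.inr (Or.inr (Or.inr (Or.inr rfl)))) a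
      rwa [map_aa, map_al] at this
  -- the homomorphism
  let F : K →* W A := Monoid.Coprod.lift lamp (FreeGroup.lift ![sft G1, sft G2])
  have hFi : ∀ a, F (i' a) = lamp a := fun a => Monoid.Coprod.lift_apply_inl _ _ a
  have hF1 : F x1 = sft G1 := by
    change Monoid.Coprod.lift _ _ (Monoid.Coprod.inr (FreeGroup.of 0)) = _
    rw [Monoid.Coprod.lift_apply_inr, FreeGroup.lift_apply_of]
    rfl
  have hF2 : F x2 = sft G2 := by
    change Monoid.Coprod.lift _ _ (Monoid.Coprod.inr (FreeGroup.of 1)) = _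
    rw [Monoid.Coprod.lift_apply_inr, FreeGroup.lift_apply_of]
    rfl
  have hw := wrelW A
  have hFN : N ≤ F.ker := by
    apply Subgroup.normalClosure_le_normal
    rintro r ((hr | hr) | hr)
    · change F r = 1
      rcases hr with rfl | rfl | rfl | rfl
      · rw [map_mul, map_al, hF1, hF2]; exact hw.rel.r1
      · rw [map_mul, map_inv, map_aa, map_aa, map_al, hF1, hF2, mul_inv_eq_one]; exact hw.rel.r2
      · rw [map_mul, map_inv, mul_inv_eq_one]
        simp only [map_mul, map_aa, map_al, hF1, hF2]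
        exact hw.rel.r3
      · rw [map_mul, map_inv, mul_inv_eq_one]
        simp only [map_mul, map_aa, map_al, hF1, hF2]
        exact hw.rel.r4
    · obtain ⟨⟨a, y⟩, ⟨-, hy⟩, rfl⟩ := hr
      change F ((i' a * y) * (y * i' a)⁻¹) = 1
      rw [map_mul, map_inv, mul_inv_eq_one, map_mul, map_mul, hFi]
      change Commute (lamp a) (F y)
      rcases hy with rfl | rfl | rfl | rfl | rfl
      · rw [map_aa, map_al, hF1, hF2]; exact hw.w1 a
      · rw [map_mul, map_al, hF1, hF2]; exact hw.w2 a
      · rw [map_mul, map_al, hF1, hF2]; exact hw.w3 a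
      · rw [map_mul, map_inv, hF1, hF2]; exact hw.w4 a
      · rw [map_aa, map_al, hF1, hF2]; exact hw.w5 a
    · obtain ⟨⟨a, a'⟩, -, rfl⟩ := hr
      change F ((i' a * (x1⁻¹ * i' a' * x1)) * ((x1⁻¹ * i' a' * x1) * i' a)⁻¹) = 1
      rw [map_mul, map_inv, mul_inv_eq_one]
      simp only [map_mul, map_inv, hFi, hF1]
      exact hw.w6 a a'
  let Φ : K ⧸ N →* W A := QuotientGroup.lift N F hFN
  have hΦ : ∀ x : K, Φ (mk x) = F x := fun x => rfl
  have hgen : Subgroup.closure (Set.range ι ∪ {mk x1, mk x2}) = ⊤ := by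
    have h0 : Subgroup.closure (Set.range i' ∪ {x1, x2}) = ⊤ := by
      rw [eq_top_iff, ← Monoid.Coprod.closure_range_inl_union_inr, Subgroup.closure_le]
      rintro _ (⟨a, rfl⟩ | ⟨b, rfl⟩)
      · exact Subgroup.subset_closure (Or.inl ⟨a, rfl⟩)
      · have hb : b ∈ Subgroup.closure (Set.range (FreeGroup.of : Fin 2 → FreeGroup (Fin 2))) := by
          rw [FreeGroup.closure_range_of]; exact Subgroup.mem_top b
        have h3 : (Monoid.Coprod.inr : FreeGroup (Fin 2) →* K) b ∈
            (Subgroup.closure (Set.range (FreeGroup.of : Fin 2 → FreeGroup (Fin 2)))).map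
              Monoid.Coprod.inr := ⟨b, hb, rfl⟩
        rw [MonoidHom.map_closure] at h3
        refine (Subgroup.closure_mono ?_) h3
        rintro _ ⟨_, ⟨j, rfl⟩, rfl⟩
        right
        fin_cases j
        · exact Or.inl rfl
        · exact Or.inr rfl
    have h1 : (Subgroup.closure (Set.range i' ∪ {x1, x2})).map mk = ⊤ := by
      rw [h0, ← MonoidHom.range_eq_map]
      exact MonoidHom.range_eq_top.mpr (QuotientGroup.mk'_surjective N)
    rw [MonoidHom.map_closure, Set.image_union, ← Set.range_comp, Set.image_pair] at h1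
    exact h1
  have hinj : Function.Injective Φ := by
    rw [injective_iff_map_eq_one]
    intro q hq
    exact wker hW Φ (fun a => hFi a) hF1 hF2 (by rw [hgen]; exact Subgroup.mem_top q) hq
  have hrange : Φ.range = GA A := by
    rw [MonoidHom.range_eq_map, ← hgen, MonoidHom.map_closure, Set.image_union, ← Set.range_comp,
      Set.image_pair]
    have e1 : (Φ ∘ ι : A → W A) = lamp := by
      funext a
      exact hFi a
    rw [e1, hΦ, hΦ, hF1, hF2]
    rfl
  have e : (K ⧸ N) ≃* GA A := (MonoidHom.ofInjective hinj).trans (MulEquiv.subgroupCongr hrange)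
  exact Group.IsFinitelyPresented.equiv e

end Pool.Agent.Helper27.SX
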