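import Pool.Agent.Helper27.SX.Defs2

/-!
# SX-A5d: the transpositions in the symmetric group (MP_a16d94_pr)

PROOF. `alG`: check on the points `(0,0)`, `(0,1)`, `(0,m+2)`, `(1,m)`, `(2,m)`; `al x = g1⁻¹ (g2⁻¹ (g1 (g2 x)))`. `(G1⁻¹) = T ⟨(0,1),_⟩` is the inverse function `gf 0 1`.
`bbG`: `σ * swap a b * σ⁻¹ = swap (σ a) (σ b)` (`Equiv.Perm` lemma, for instance `Equiv.swap_apply_apply` or `Equiv.mul_swap_eq_swap_mul`), `pa G1 G2 p = swap (G1^(-p) (0,0)) (G1^(-p) (0,1))`; `G1^(-m) (0,j) = (0,j+m)`, `G1^(m+1) (0,0) = (1,m)`, `G1^(m+2) (0,1) = (1, m)`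
(`G1^(m+2)(0,0) = (1,m+1)`), the same for `G2` and ray 2. So `bb G1 G2 i m = swap (i,m) (i,m+1)` (as swaps are symmetric) and `ee G1 G2 i j = swap (i,0) (j,0)` for `i ≠ j`.
`DD G1 G2 i m k` maps `(i,m)` to `(i,m+k)`, fixes the other rays and `(i,n)` for `n < m`. `ttG`: the conjugate of a swap. `relG`: `Rel G1 G2`: by `bbG` all four relations are identities between swaps of the points `(0,0), (0,1), (0,2), (0,3)` (`r2`: `pa 1 = swap (0,1) (0,2) = qa 1`).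
`map_tt`: `tt` is a word in `g1, g2` (unfold and `map_mul`, `map_inv`, `map_zpow`, induction for `DD`).
-/

set_option autoImplicit false

namespace Pool.Agent.Helper27.SX

private lemma g1_00 : G1 ((0, 0) : X) = (1, 0) := rfl

private lemma g1_0s (m : ℕ) : G1 ((0, m + 1) : X) = (0, m) := by
  show gf 1 0 (0, m + 1) = (0, m)
  simp [gf]

private lemma g1_1 (m : ℕ) : G1 ((1, m) : X) = (1, m + 1) := by
  show gf 1 0 (1, m) = (1, m + 1)
  simp [gf]

private lemma g1_2 (m : ℕ) : G1 ((2, m) : X) = (2, m) := by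
  show gf 1 0 (2, m) = (2, m)
  simp [gf]

private lemma g2_00 : G2 ((0, 0) : X) = (2, 0) := rfl

private lemma g2_0s (m : ℕ) : G2 ((0, m + 1) : X) = (0, m) := by
  show gf 2 0 (0, m + 1) = (0, m)
  simp [gf]

private lemma g2_2 (m : ℕ) : G2 ((2, m) : X) = (2, m + 1) := by
  show gf 2 0 (2, m) = (2, m + 1)
  simp [gf]

private lemma g2_1 (m : ℕ) : G2 ((1, m) : X) = (1, m) := by
  show gf 2 0 (1, m) = (1, m)
  simp [gf]

private lemma g1i_0 (m : ℕ) : G1⁻¹ ((0, m) : X) = (0, m + 1) := by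
  rw [Equiv.Perm.inv_eq_iff_eq, g1_0s]

private lemma g1i_1s (m : ℕ) : G1⁻¹ ((1, m + 1) : X) = (1, m) := by
  rw [Equiv.Perm.inv_eq_iff_eq, g1_1]

private lemma g1i_2 (m : ℕ) : G1⁻¹ ((2, m) : X) = (2, m) := by
  rw [Equiv.Perm.inv_eq_iff_eq, g1_2]

private lemma g1i_10 : G1⁻¹ ((1, 0) : X) = (0, 0) := by
  rw [Equiv.Perm.inv_eq_iff_eq, g1_00]

private lemma g2i_0 (m : ℕ) : G2⁻¹ ((0, m) : X) = (0, m + 1) := by
  rw [Equiv.Perm.inv_eq_iff_eq, g2_0s]

private lemma g2i_2s (m : ℕ) : G2⁻¹ ((2, m + 1) : X) = (2, m) := by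
  rw [Equiv.Perm.inv_eq_iff_eq, g2_2]

private lemma g2i_1 (m : ℕ) : G2⁻¹ ((1, m) : X) = (1, m) := by
  rw [Equiv.Perm.inv_eq_iff_eq, g2_1]

private lemma g2i_20 : G2⁻¹ ((2, 0) : X) = (0, 0) := by
  rw [Equiv.Perm.inv_eq_iff_eq, g2_00]

theorem alG : al G1 G2 = Equiv.swap ((0, 0) : X) (0, 1) := by
  ext1 x
  show G1⁻¹ (G2⁻¹ (G1 (G2 x))) = _
  obtain ⟨i, m⟩ := x
  fin_cases i
  · rcases m with _ | _ | m
    · show G1⁻¹ (G2⁻¹ (G1 (G2 ((0, 0) : X)))) = Equiv.swap ((0, 0) : X) (0, 1) (0, 0)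
      rw [g2_00, g1_2, g2i_20, g1i_0, Equiv.swap_apply_left]
    · show G1⁻¹ (G2⁻¹ (G1 (G2 ((0, 0 + 1) : X)))) = Equiv.swap ((0, 0) : X) (0, 1) (0, 1)
      rw [g2_0s, g1_00, g2i_1, g1i_10, Equiv.swap_apply_right]
    · show G1⁻¹ (G2⁻¹ (G1 (G2 ((0, m + 1 + 1) : X)))) = Equiv.swap ((0, 0) : X) (0, 1) (0, m + 1 + 1)
      rw [g2_0s, g1_0s, g2i_0, g1i_0, Equiv.swap_apply_of_ne_of_ne (by simp) (by simp)]
  · show G1⁻¹ (G2⁻¹ (G1 (G2 ((1, m) : X)))) = Equiv.swap ((0, 0) : X) (0, 1) (1, m)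
    rw [g2_1, g1_1, g2i_1, g1i_1s, Equiv.swap_apply_of_ne_of_ne (by simp) (by simp)]
  · show G1⁻¹ (G2⁻¹ (G1 (G2 ((2, m) : X)))) = Equiv.swap ((0, 0) : X) (0, 1) (2, m)
    rw [g2_2, g1_2, g2i_2s, g1i_2, Equiv.swap_apply_of_ne_of_ne (by simp) (by simp)]

private lemma g1_neg (m j : ℕ) : (G1 ^ (-(m : ℤ))) ((0, j) : X) = (0, j + m) := by
  rw [zpow_neg, ← inv_zpow, zpow_natCast]
  induction m with
  | zero => rfl
  | succ m ih => rw [pow_succ', Equiv.Perm.mul_apply, ih, g1i_0, add_assoc]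

private lemma g2_neg (m j : ℕ) : (G2 ^ (-(m : ℤ))) ((0, j) : X) = (0, j + m) := by
  rw [zpow_neg, ← inv_zpow, zpow_natCast]
  induction m with
  | zero => rfl
  | succ m ih => rw [pow_succ', Equiv.Perm.mul_apply, ih, g2i_0, add_assoc]

private lemma g1_pow (m : ℕ) : (G1 ^ (m + 1)) ((0, 0) : X) = (1, m) := by
  induction m with
  | zero => rfl
  | succ m ih => rw [pow_succ', Equiv.Perm.mul_apply, ih, g1_1]

private lemma g2_pow (m : ℕ) : (G2 ^ (m + 1)) ((0, 0) : X) = (2, m) := by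
  induction m with
  | zero => rfl
  | succ m ih => rw [pow_succ', Equiv.Perm.mul_apply, ih, g2_2]

private lemma paG (p : ℤ) : pa G1 G2 p =
    Equiv.swap ((G1 ^ (-p)) ((0, 0) : X)) ((G1 ^ (-p)) (0, 1)) := by
  unfold pa aa
  rw [alG, Equiv.swap_apply_apply, ← zpow_neg, neg_neg]

private lemma qaG (p : ℤ) : qa G1 G2 p =
    Equiv.swap ((G2 ^ (-p)) ((0, 0) : X)) ((G2 ^ (-p)) (0, 1)) := by
  unfold qa aa
  rw [alG, Equiv.swap_apply_apply, ← zpow_neg, neg_neg]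

private lemma pa_nat (m : ℕ) : pa G1 G2 (m : ℤ) = Equiv.swap ((0, m) : X) (0, m + 1) := by
  rw [paG, g1_neg, g1_neg, zero_add, add_comm 1 m]

private lemma qa_nat (m : ℕ) : qa G1 G2 (m : ℤ) = Equiv.swap ((0, m) : X) (0, m + 1) := by
  rw [qaG, g2_neg, g2_neg, zero_add, add_comm 1 m]

private lemma pa_neg (m : ℕ) : pa G1 G2 (-2 - (m : ℤ)) = Equiv.swap ((1, m) : X) (1, m + 1) := by
  have h : -(-2 - (m : ℤ)) = ((m + 1 + 1 : ℕ) : ℤ) := by push_cast; ring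
  rw [paG, h, zpow_natCast, g1_pow]
  have h2 : (G1 ^ (m + 1 + 1)) ((0, 1) : X) = (1, m) := by
    rw [pow_succ, Equiv.Perm.mul_apply]
    have h3 : G1 ((0, 1) : X) = (0, 0) := g1_0s 0
    rw [h3, g1_pow]
  rw [h2, Equiv.swap_comm]

private lemma qa_neg (m : ℕ) : qa G1 G2 (-2 - (m : ℤ)) = Equiv.swap ((2, m) : X) (2, m + 1) := by
  have h : -(-2 - (m : ℤ)) = ((m + 1 + 1 : ℕ) : ℤ) := by push_cast; ring
  rw [qaG, h, zpow_natCast, g2_pow]
  have h2 : (G2 ^ (m + 1 + 1)) ((0, 1) : X) = (2, m) := by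
    rw [pow_succ, Equiv.Perm.mul_apply]
    have h3 : G2 ((0, 1) : X) = (0, 0) := g2_0s 0
    rw [h3, g2_pow]
  rw [h2, Equiv.swap_comm]

private lemma pa_m1 : pa G1 G2 (-1) = Equiv.swap ((0, 0) : X) (1, 0) := by
  rw [paG, neg_neg, zpow_one, Equiv.swap_comm]
  rfl

private lemma qa_m1 : qa G1 G2 (-1) = Equiv.swap ((0, 0) : X) (2, 0) := by
  rw [qaG, neg_neg, zpow_one, Equiv.swap_comm]
  rfl

theorem bbG (i : Fin 3) (m : ℕ) : bb G1 G2 i m = Equiv.swap ((i, m) : X) (i, m + 1) := by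
  fin_cases i
  · exact pa_nat m
  · exact pa_neg m
  · exact qa_neg m

theorem eeG {i j : Fin 3} (hij : i ≠ j) : ee G1 G2 i j = Equiv.swap ((i, 0) : X) (j, 0) := by
  have h12 : G1 * qa G1 G2 (-1) * G1⁻¹ = Equiv.swap ((1, 0) : X) (2, 0) := by
    rw [qa_m1, ← Equiv.swap_apply_apply, g1_00, g1_2]
  fin_cases i <;> fin_cases j
  · exact absurd rfl hij
  · exact pa_m1
  · exact qa_m1
  · rw [Equiv.swap_comm]; exact pa_m1
  · exact absurd rfl hij
  · exact h12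
  · rw [Equiv.swap_comm]; exact qa_m1
  · rw [Equiv.swap_comm]; exact h12
  · exact absurd rfl hij

private lemma DD_ne {i j : Fin 3} (h : j ≠ i) (m n k : ℕ) : DD G1 G2 i m k ((j, n) : X) = (j, n) := by
  induction k with
  | zero => rfl
  | succ k ih =>
    show (bb G1 G2 i (m + k) * DD G1 G2 i m k) ((j, n) : X) = (j, n)
    rw [Equiv.Perm.mul_apply, ih, bbG, Equiv.swap_apply_of_ne_of_ne (by simp [h]) (by simp [h])]

private lemma DD_lt (i : Fin 3) {m n : ℕ} (h : n < m) (k : ℕ) :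
    DD G1 G2 i m k ((i, n) : X) = (i, n) := by
  induction k with
  | zero => rfl
  | succ k ih =>
    show (bb G1 G2 i (m + k) * DD G1 G2 i m k) ((i, n) : X) = (i, n)
    rw [Equiv.Perm.mul_apply, ih, bbG, Equiv.swap_apply_of_ne_of_ne]
    · intro h'
      have := (Prod.mk.inj h').2
      omega
    · intro h'
      have := (Prod.mk.inj h').2
      omega

private lemma DD_self (i : Fin 3) (m k : ℕ) : DD G1 G2 i m k ((i, m) : X) = (i, m + k) := by
  induction k with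
  | zero => rfl
  | succ k ih =>
    show (bb G1 G2 i (m + k) * DD G1 G2 i m k) ((i, m) : X) = (i, m + (k + 1))
    rw [Equiv.Perm.mul_apply, ih, bbG, Equiv.swap_apply_left, add_assoc]

private lemma tt_aux (i : Fin 3) {m n : ℕ} (h : m < n) :
    DD G1 G2 i (m + 1) (n - m - 1) * bb G1 G2 i m * (DD G1 G2 i (m + 1) (n - m - 1))⁻¹ =
      Equiv.swap ((i, m) : X) (i, n) := by
  rw [bbG, ← Equiv.swap_apply_apply, DD_lt i (Nat.lt_succ_self m), DD_self]
  have h2 : m + 1 + (n - m - 1) = n := by omega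
  rw [h2]

theorem ttG {x y : X} (hxy : x ≠ y) : tt G1 G2 x y = Equiv.swap x y := by
  obtain ⟨i, m⟩ := x
  obtain ⟨j, n⟩ := y
  unfold tt
  by_cases hij : i = j
  · subst hij
    rw [if_pos rfl]
    by_cases hmn : m < n
    · rw [if_pos hmn]
      exact tt_aux i hmn
    · rw [if_neg hmn, Equiv.swap_comm]
      refine tt_aux i ?_
      have : m ≠ n := fun h => hxy (by rw [h])
      show n < m
      omega
  · rw [if_neg hij, eeG hij, ← Equiv.swap_apply_apply, Equiv.Perm.mul_apply, Equiv.Perm.mul_apply,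
      DD_ne hij, DD_self, DD_self, DD_ne (Ne.symm hij), zero_add, zero_add]

theorem relG : Rel G1 G2 := by
  have e1 : aa G1 (al G1 G2) 1 = Equiv.swap ((0, 1) : X) (0, 2) := pa_nat 1
  have e2 : aa G2 (al G1 G2) 1 = Equiv.swap ((0, 1) : X) (0, 2) := qa_nat 1
  have e3 : aa G1 (al G1 G2) 2 = Equiv.swap ((0, 2) : X) (0, 3) := pa_nat 2
  refine ⟨?_, ?_, ?_, ?_⟩
  · rw [alG, Equiv.swap_mul_self]
  · rw [e1, e2]
  · rw [e1, alG]
    have h1 := Equiv.swap_apply_apply (Equiv.swap ((0, 0) : X) (0, 1)) (0, 1) (0, 2)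
    have h2 := Equiv.swap_apply_apply (Equiv.swap ((0, 1) : X) (0, 2)) (0, 0) (0, 1)
    rw [Equiv.swap_inv] at h1 h2
    rw [← h1, ← h2, Equiv.swap_apply_right, Equiv.swap_apply_left,
      Equiv.swap_apply_of_ne_of_ne (by simp) (by simp),
      Equiv.swap_apply_of_ne_of_ne (by simp) (by simp)]
  · rw [e3, alG]
    have h1 := Equiv.swap_apply_apply (Equiv.swap ((0, 0) : X) (0, 1)) (0, 2) (0, 3)
    rw [Equiv.swap_apply_of_ne_of_ne (by simp) (by simp),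
      Equiv.swap_apply_of_ne_of_ne (by simp) (by simp)] at h1
    rw [eq_mul_inv_iff_mul_eq] at h1
    exact h1.symm

theorem map_tt {Q Q' : Type*} [Group Q] [Group Q'] (φ : Q →* Q') (g1 g2 : Q) (x y : X) :
    φ (tt g1 g2 x y) = tt (φ g1) (φ g2) x y := by
  have hal : φ (al g1 g2) = al (φ g1) (φ g2) := by simp [al]
  have hpa : ∀ p, φ (pa g1 g2 p) = pa (φ g1) (φ g2) p := by
    intro p
    unfold pa aa
    rw [map_mul, map_mul, map_zpow, map_zpow, hal]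
  have hqa : ∀ p, φ (qa g1 g2 p) = qa (φ g1) (φ g2) p := by
    intro p
    unfold qa aa
    rw [map_mul, map_mul, map_zpow, map_zpow, hal]
  have hbb : ∀ i m, φ (bb g1 g2 i m) = bb (φ g1) (φ g2) i m := by
    intro i m
    unfold bb
    split_ifs
    · exact hpa _
    · exact hpa _
    · exact hqa _
  have hDD : ∀ i m k, φ (DD g1 g2 i m k) = DD (φ g1) (φ g2) i m k := by
    intro i m k
    induction k with
    | zero => exact map_one φ
    | succ k ih =>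
      show φ (bb g1 g2 i (m + k) * DD g1 g2 i m k) = bb (φ g1) (φ g2) i (m + k) * DD (φ g1) (φ g2) i m k
      rw [map_mul, hbb, ih]
  have hee : ∀ i j, φ (ee g1 g2 i j) = ee (φ g1) (φ g2) i j := by
    intro i j
    unfold ee
    split_ifs
    · exact hpa _
    · exact hqa _
    · rw [map_mul, map_mul, map_inv, hqa]
  unfold tt
  split_ifs
  · rw [map_mul, map_mul, map_inv, hDD, hbb]
  · rw [map_mul, map_mul, map_inv, hDD, hbb]
  · rw [map_mul, map_mul, map_inv, map_mul, hDD, hDD, hee]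

end Pool.Agent.Helper27.SX
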