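import Pool.Agent.Helper27.SX.A10
import Pool.Agent.Helper27.SX.A5d

/-!
# SX-A11a: the relations hold in the wreath product (MP_a16d94_pr)

PROOF. `wrelW`: in `W A`: `rel` is the image of `relG` under `sft` (a homomorphism: `al`, `aa` are words). `sft σ * lamp a * (sft σ)⁻¹ = inl (mulSingle (σ x0) a)` (`sft_conj`), so `lamp a` commutes with `sft σ` if `σ x0 = x0`; check that `pa G1 G2 1 = swap (0,1) (0,2)`, `G1 * al`, `G2 * al`, `G2 * G1⁻¹`,
`pa G1 G2 (-2) = swap (1,0) (1,1)` fix `x0 = (0,0)` (`bbG`, `alG`). `w6`: lamps at `x0` and at `G1⁻¹ x0 = (0,1)` commute.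
-/

set_option autoImplicit false

namespace Pool.Agent.Helper27.SX

private theorem map_al50 {Q Q' : Type*} [Group Q] [Group Q'] (φ : Q →* Q') (g1 g2 : Q) :
    al (φ g1) (φ g2) = φ (al g1 g2) := by
  simp only [al, map_mul, map_inv]

private theorem map_aa50 {Q Q' : Type*} [Group Q] [Group Q'] (φ : Q →* Q') (g s : Q) (p : ℤ) :
    aa (φ g) (φ s) p = φ (aa g s p) := by
  simp only [aa, map_mul, map_zpow]

private theorem map_rel50 {Q Q' : Type*} [Group Q] [Group Q'] (φ : Q →* Q') {g1 g2 : Q}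
    (h : Rel g1 g2) : Rel (φ g1) (φ g2) := by
  refine ⟨?_, ?_, ?_, ?_⟩
  · rw [map_al50, ← map_mul, h.r1, map_one]
  · rw [map_al50, map_aa50, map_aa50, h.r2]
  · rw [map_al50, map_aa50, ← map_mul, ← map_mul, ← map_mul, ← map_mul, h.r3]
  · rw [map_al50, map_aa50, ← map_mul, ← map_mul, h.r4]

private theorem conj_lamp50 {A : Type} [Group A] (σ : Equiv.Perm X) (a : A) :
    (sft σ : W A) * lamp a * (sft σ)⁻¹ = SemidirectProduct.inl (Pi.mulSingle (σ x0) a) := by
  have h : (lamp a : W A) = SemidirectProduct.inl (Pi.mulSingle x0 a) := rfl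
  rw [h, sft_conj]
  congr 1
  funext y
  by_cases hy : y = σ x0
  · subst hy
    have h1 : σ⁻¹ (σ x0) = x0 := σ.symm_apply_apply x0
    rw [h1, Pi.mulSingle_eq_same, Pi.mulSingle_eq_same]
  · rw [Pi.mulSingle_eq_of_ne hy, Pi.mulSingle_eq_of_ne]
    intro h1
    apply hy
    rw [← h1]
    exact (σ.apply_symm_apply y).symm

private theorem comm_lamp50 {A : Type} [Group A] {σ : Equiv.Perm X} (hσ : σ x0 = x0) (a : A) :
    Commute (lamp a : W A) (sft σ) := by
  have h := conj_lamp50 σ a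
  rw [hσ] at h
  have h1 : (sft σ : W A) * lamp a * (sft σ)⁻¹ = lamp a := h
  have h2 : (sft σ : W A) * lamp a = lamp a * sft σ := by
    rw [← mul_inv_eq_iff_eq_mul]
    exact h1
  exact h2.symm

private theorem G1_inv50 : G1⁻¹ x0 = ((0, 1) : X) := by
  change gf 0 1 x0 = (0, 1)
  simp [gf, x0]

theorem wrelW (A : Type) [Group A] : WRel (lamp (A := A)) (sft G1) (sft G2) := by
  have hal : al G1 G2 x0 = ((0, 1) : X) := by
    rw [alG]
    exact Equiv.swap_apply_left _ _
  have h1 : G1 ((0, 1) : X) = x0 := by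
    change gf 1 0 (0, 1) = x0
    simp [gf, x0]
  have h2 : G2 ((0, 1) : X) = x0 := by
    change gf 2 0 (0, 1) = x0
    simp [gf, x0]
  refine ⟨map_rel50 sft relG, fun a => ?_, fun a => ?_, fun a => ?_, fun a => ?_, fun a => ?_,
    fun a a' => ?_⟩
  · rw [map_al50, map_aa50]
    apply comm_lamp50
    have h3 : aa G1 (al G1 G2) 1 = bb G1 G2 0 1 := by
      simp [bb, pa]
    rw [h3, bbG]
    apply Equiv.swap_apply_of_ne_of_ne
    · decide
    · decide
  · rw [map_al50, ← map_mul]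
    apply comm_lamp50
    rw [Equiv.Perm.mul_apply, hal, h1]
  · rw [map_al50, ← map_mul]
    apply comm_lamp50
    rw [Equiv.Perm.mul_apply, hal, h2]
  · rw [← map_inv, ← map_mul]
    apply comm_lamp50
    rw [Equiv.Perm.mul_apply, G1_inv50, h2]
  · rw [map_al50, map_aa50]
    apply comm_lamp50
    have h3 : aa G1 (al G1 G2) (-2) = bb G1 G2 1 0 := by
      simp [bb, pa]
    rw [h3, bbG]
    apply Equiv.swap_apply_of_ne_of_ne
    · decide
    · decide
  · have h3 : (sft G1)⁻¹ * lamp a' * sft G1 = (sft G1⁻¹ : W A) * lamp a' * (sft G1⁻¹)⁻¹ := by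
      rw [map_inv, inv_inv]
    rw [h3, conj_lamp50, G1_inv50]
    have h4 : (lamp a : W A) = SemidirectProduct.inl (Pi.mulSingle x0 a) := rfl
    rw [h4]
    apply Commute.map (f := (SemidirectProduct.inl : (X → A) →* W A))
    have h5 : x0 ≠ ((0, 1) : X) := by decide
    exact Pi.mulSingle_commute (f := fun _ : X => A) h5 a a'

end Pool.Agent.Helper27.SX
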