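import Pool.Agent.Helper27.SX.A1

/-!
# SX-A2: commutations (MP_a16d94_pr)

PROOF (`h : Rel g1 g2`). By `h.symm`, `al_symm` and `Rel.qa_symm` the statements of SX-A1 hold for `a' = qa` (apply them to `h.symm : Rel g2 g1`).
(1) `comm_g1`: `g1` commutes with `a'(-k)`, `k ≥ 2`. `g2^k g1 = g1 g2^k w'(k)` (`pow_mul_g2` for `(g2, g1)`), `w'(k) = a'(k-1) ... a'(0)`. So `g1 g2^k = g2^k g1 (w'(k))⁻¹`, and
 `g1 a'(-k) g1⁻¹ = g1 g2^k al g2^(-k) g1⁻¹ = g2^k g1 [(w'k)⁻¹ al (w'k)] g1⁻¹ g2^(-k)`. Here `(w' k)⁻¹ al (w' k) = a'(1)`: `(w' k)⁻¹ = a'(0) a'(1) ... a'(k-1)`, the factors `a'(j)`, `j ≥ 2`, commute with `a'(0) = al`, and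
 `a'0 a'1 a'0 a'1 a'0 = a'1` (braid and squares). `a'(1) = a(1)` and `g1 a(1) g1⁻¹ = al`. So the result is `g2^k al g2^(-k) = a'(-k)`. `comm_g2` by symmetry.
(2) `bb_comm`: `b_i(m)`, `b_j(n)` commute for `i ≠ j`: rays 0, 1: `Rel.comm`; rays 0, 2: `a(m) = a'(m)` and `Rel.comm` for the line 02; rays 1, 2: `a(-2-m) = g1^(m+2) al g1^(-m-2)`, both `g1` and `al = a'(0)` commute with `a'(-2-n)`.
 Symmetry: it is enough to treat `i < j`.
(3) `bb_comm_same`: `|m - n| ≥ 2`, `bb_sq`, `bb_braid`: SX-A1.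
(4) `e_comm`: `e01 = a(-1)` commutes with `b_1(m)`, `m ≥ 1`, and with `b_0(m)`, `m ≥ 1`, and with all `b_2(m)` (as in (2): `a(-1) = g1 al g1⁻¹`); `e02 = a'(-1)` symmetric (commutes with `b_2(m)`, `b_0(m)`, `m ≥ 1`, and all `b_1(m)`).
-/

set_option autoImplicit false

namespace Pool.Agent.Helper27.SX

variable {Q : Type*} [Group Q] {g1 g2 : Q}

private lemma pa_zero52 (g1 g2 : Q) : pa g1 g2 0 = al g1 g2 := by
  unfold pa aa
  rw [neg_zero, zpow_zero, one_mul, mul_one]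

private lemma qa_zero52 (g1 g2 : Q) : qa g1 g2 0 = al g1 g2 := by
  unfold qa aa
  rw [neg_zero, zpow_zero, one_mul, mul_one]

private lemma ww52 (h : Rel g1 g2) (k : ℕ) :
    ww g1 g2 (k + 2) * pa g1 g2 1 = pa g1 g2 0 * ww g1 g2 (k + 2) := by
  induction k with
  | zero =>
    have hb := h.braid 0
    rw [zero_add] at hb
    show pa g1 g2 ((1 : ℕ) : ℤ) * (pa g1 g2 ((0 : ℕ) : ℤ) * 1) * pa g1 g2 1 =
      pa g1 g2 0 * (pa g1 g2 ((1 : ℕ) : ℤ) * (pa g1 g2 ((0 : ℕ) : ℤ) * 1))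
    rw [Nat.cast_one, Nat.cast_zero, mul_one, ← hb, mul_assoc]
  | succ k ih =>
    have hc : Commute (pa g1 g2 0) (pa g1 g2 ((k + 2 : ℕ) : ℤ)) := by
      refine h.comm 0 _ ?_
      push_cast
      omega
    show pa g1 g2 ((k + 2 : ℕ) : ℤ) * ww g1 g2 (k + 2) * pa g1 g2 1 =
      pa g1 g2 0 * (pa g1 g2 ((k + 2 : ℕ) : ℤ) * ww g1 g2 (k + 2))
    rw [mul_assoc, ih, ← mul_assoc, ← mul_assoc, hc.eq]

theorem Rel.comm_g1 (h : Rel g1 g2) (k : ℕ) (hk : 2 ≤ k) : Commute g1 (qa g1 g2 (-k)) := by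
  obtain ⟨j, rfl⟩ := Nat.exists_eq_add_of_le' hk
  have hw := ww52 h.symm j
  have hp := pow_mul_g2 g2 g1 (j + 2)
  set W := ww g2 g1 (j + 2) with hW
  set P := g2 ^ (j + 2) with hP
  have h1 : pa g2 g1 1 = g1⁻¹ * al g1 g2 * g1 := by
    rw [(h.qa_symm 1).1]
    unfold qa
    rw [← h.r2]
    unfold aa
    rw [zpow_neg, zpow_one]
  have h0 : pa g2 g1 0 = al g1 g2 := by
    rw [(h.qa_symm 0).1, qa_zero52]
  rw [h1, h0] at hw
  have hq : qa g1 g2 (-((j + 2 : ℕ) : ℤ)) = P * al g1 g2 * P⁻¹ := by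
    unfold qa aa
    rw [neg_neg, zpow_neg, zpow_natCast]
  rw [hq]
  have h2 : P⁻¹ * g1 = g1 * W⁻¹ * P⁻¹ := by
    have h3 : g1 = P * g1 * W⁻¹ * P⁻¹ := by
      rw [hp]
      group
    calc P⁻¹ * g1 = P⁻¹ * (P * g1 * W⁻¹ * P⁻¹) := by rw [← h3]
      _ = g1 * W⁻¹ * P⁻¹ := by group
  show g1 * (P * al g1 g2 * P⁻¹) = P * al g1 g2 * P⁻¹ * g1
  calc g1 * (P * al g1 g2 * P⁻¹) = g1 * P * (al g1 g2 * W) * W⁻¹ * P⁻¹ := by group
    _ = g1 * P * (W * (g1⁻¹ * al g1 g2 * g1)) * W⁻¹ * P⁻¹ := by rw [hw]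
    _ = (g1 * P * W) * g1⁻¹ * al g1 g2 * (g1 * W⁻¹ * P⁻¹) := by group
    _ = (P * g1) * g1⁻¹ * al g1 g2 * (P⁻¹ * g1) := by rw [hp, h2]
    _ = P * al g1 g2 * P⁻¹ * g1 := by group

theorem Rel.comm_g2 (h : Rel g1 g2) (k : ℕ) (hk : 2 ≤ k) : Commute g2 (pa g1 g2 (-k)) := by
  have h1 := h.symm.comm_g1 k hk
  rwa [(h.qa_symm _).2] at h1

private lemma qcomm52 (h : Rel g1 g2) (p q : ℤ) (hpq : p + 2 ≤ q) :
    Commute (qa g1 g2 p) (qa g1 g2 q) := by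
  have h1 := h.symm.comm p q hpq
  rwa [(h.qa_symm p).1, (h.qa_symm q).1] at h1

private lemma pq52 (h : Rel g1 g2) (p : ℤ) (n : ℕ) :
    Commute (pa g1 g2 p) (qa g1 g2 (-2 - (n : ℤ))) := by
  have e : (-2 - (n : ℤ)) = -((n + 2 : ℕ) : ℤ) := by push_cast; ring
  have h1 : Commute g1 (qa g1 g2 (-2 - (n : ℤ))) := by
    rw [e]
    exact h.comm_g1 (n + 2) (by omega)
  have h2 : Commute (al g1 g2) (qa g1 g2 (-2 - (n : ℤ))) := by
    rw [← qa_zero52]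
    exact (qcomm52 h _ _ (by omega)).symm
  unfold pa aa
  exact ((h1.zpow_left _).mul_left h2).mul_left (h1.zpow_left _)

private lemma qp52 (h : Rel g1 g2) (p : ℤ) (n : ℕ) :
    Commute (qa g1 g2 p) (pa g1 g2 (-2 - (n : ℤ))) := by
  have e : (-2 - (n : ℤ)) = -((n + 2 : ℕ) : ℤ) := by push_cast; ring
  have h1 : Commute g2 (pa g1 g2 (-2 - (n : ℤ))) := by
    rw [e]
    exact h.comm_g2 (n + 2) (by omega)
  have h2 : Commute (al g1 g2) (pa g1 g2 (-2 - (n : ℤ))) := by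
    rw [← pa_zero52]
    exact (h.comm _ _ (by omega)).symm
  unfold qa aa
  exact ((h1.zpow_left _).mul_left h2).mul_left (h1.zpow_left _)

private lemma bb0_52 (m : ℕ) : bb g1 g2 0 m = pa g1 g2 m := rfl

private lemma bb1_52 (m : ℕ) : bb g1 g2 1 m = pa g1 g2 (-2 - m) := rfl

private lemma bb2_52 (m : ℕ) : bb g1 g2 2 m = qa g1 g2 (-2 - m) := rfl

theorem Rel.bb_comm (h : Rel g1 g2) {i j : Fin 3} (hij : i ≠ j) (m n : ℕ) :
    Commute (bb g1 g2 i m) (bb g1 g2 j n) := by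
  have h01 : ∀ m n : ℕ, Commute (bb g1 g2 0 m) (bb g1 g2 1 n) := by
    intro m n
    rw [bb0_52, bb1_52]
    exact (h.comm _ _ (by omega)).symm
  have h02 : ∀ m n : ℕ, Commute (bb g1 g2 0 m) (bb g1 g2 2 n) := by
    intro m n
    rw [bb0_52, bb2_52]
    exact pq52 h _ _
  have h12 : ∀ m n : ℕ, Commute (bb g1 g2 1 m) (bb g1 g2 2 n) := by
    intro m n
    rw [bb1_52, bb2_52]
    exact pq52 h _ _
  fin_cases i <;> fin_cases j
  · exact absurd rfl hij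
  · exact h01 m n
  · exact h02 m n
  · exact (h01 n m).symm
  · exact absurd rfl hij
  · exact h12 m n
  · exact (h02 n m).symm
  · exact (h12 n m).symm
  · exact absurd rfl hij

theorem Rel.bb_comm_same (h : Rel g1 g2) (i : Fin 3) (m n : ℕ) (hmn : m + 2 ≤ n) :
    Commute (bb g1 g2 i m) (bb g1 g2 i n) := by
  fin_cases i
  · show Commute (pa g1 g2 m) (pa g1 g2 n)
    exact h.comm _ _ (by omega)
  · show Commute (pa g1 g2 (-2 - m)) (pa g1 g2 (-2 - n))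
    exact (h.comm _ _ (by omega)).symm
  · show Commute (qa g1 g2 (-2 - m)) (qa g1 g2 (-2 - n))
    exact (qcomm52 h _ _ (by omega)).symm

theorem Rel.bb_sq (h : Rel g1 g2) (i : Fin 3) (m : ℕ) : bb g1 g2 i m * bb g1 g2 i m = 1 := by
  fin_cases i
  · exact h.sq _
  · exact h.sq _
  · have h1 := h.symm.sq (-2 - (m : ℤ))
    rw [(h.qa_symm _).1] at h1
    exact h1

theorem Rel.bb_braid (h : Rel g1 g2) (i : Fin 3) (m : ℕ) :
    bb g1 g2 i m * bb g1 g2 i (m + 1) * bb g1 g2 i m = bb g1 g2 i (m + 1) * bb g1 g2 i m * bb g1 g2 i (m + 1) := by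
  have e : (-2 - ((m + 1 : ℕ) : ℤ)) + 1 = -2 - (m : ℤ) := by push_cast; ring
  fin_cases i
  · have h1 := h.braid (m : ℤ)
    have e1 : ((m + 1 : ℕ) : ℤ) = (m : ℤ) + 1 := by push_cast; ring
    show pa g1 g2 m * pa g1 g2 ((m + 1 : ℕ) : ℤ) * pa g1 g2 m =
      pa g1 g2 ((m + 1 : ℕ) : ℤ) * pa g1 g2 m * pa g1 g2 ((m + 1 : ℕ) : ℤ)
    rw [e1]
    exact h1
  · have h1 := h.braid (-2 - ((m + 1 : ℕ) : ℤ))
    rw [e] at h1
    exact h1.symm
  · have h1 := h.symm.braid (-2 - ((m + 1 : ℕ) : ℤ))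
    rw [e, (h.qa_symm _).1, (h.qa_symm _).1] at h1
    exact h1.symm

theorem Rel.e01_comm (h : Rel g1 g2) (m : ℕ) : Commute (pa g1 g2 (-1)) (bb g1 g2 1 (m + 1)) ∧
    Commute (pa g1 g2 (-1)) (bb g1 g2 0 (m + 1)) ∧ Commute (pa g1 g2 (-1)) (bb g1 g2 2 m) := by
  refine ⟨?_, ?_, ?_⟩
  · rw [bb1_52]
    exact (h.comm _ _ (by push_cast; omega)).symm
  · rw [bb0_52]
    exact h.comm _ _ (by push_cast; omega)
  · rw [bb2_52]
    exact pq52 h _ _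

theorem Rel.e02_comm (h : Rel g1 g2) (m : ℕ) : Commute (qa g1 g2 (-1)) (bb g1 g2 2 (m + 1)) ∧
    Commute (qa g1 g2 (-1)) (bb g1 g2 0 (m + 1)) ∧ Commute (qa g1 g2 (-1)) (bb g1 g2 1 m) := by
  refine ⟨?_, ?_, ?_⟩
  · rw [bb2_52]
    exact (qcomm52 h _ _ (by push_cast; omega)).symm
  · rw [bb0_52, ← h.qa_eq]
    exact qcomm52 h _ _ (by push_cast; omega)
  · rw [bb1_52]
    exact qp52 h _ _

private lemma DD52 {i : Fin 3} {x : Q} (hx : ∀ m, Commute x (bb g1 g2 i m)) (n l : ℕ) :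
    Commute x (DD g1 g2 i n l) := by
  induction l with
  | zero => exact Commute.one_right _
  | succ l ih => exact (hx _).mul_right ih

/-- products of the `b_i` on different rays commute -/
theorem Rel.DD_comm (h : Rel g1 g2) {i j : Fin 3} (hij : i ≠ j) (m k n l : ℕ) :
    Commute (DD g1 g2 i m k) (DD g1 g2 j n l) := by
  refine DD52 (fun n' => ?_) n l
  exact (DD52 (fun m' => h.bb_comm hij.symm n' m') m k).symm

end Pool.Agent.Helper27.SX
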