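import Pool.Agent.Helper27.SX.A1

/-!
# SX-A4: the transposition e12 (MP_a16d94_pr)

`e01 = a(-1) = g1 al g1⁻¹`, `e02 = a'(-1) = g2 al g2⁻¹`, `e12 = g1 e02 g1⁻¹`, `c = g2 g1⁻¹`. PROOF (`h : Rel g1 g2`):
(1) `e12 = g2 e01 g2⁻¹` (`e12_symm`): `g1 g2 = g2 g1 al`, so `g1 g2 al (g1 g2)⁻¹ = g2 g1 al al al⁻¹ (g2 g1)⁻¹ = g2 g1 al (g2 g1)⁻¹`.
(2) `g1⁻¹ c g1 = g1⁻¹ g2`. And `c a(-1) = g2 g1⁻¹ g1 al g1⁻¹ = g2 al g1⁻¹`; `g1⁻¹ g2 = g2 al g1⁻¹`: from `g1 g2 = g2 g1 al`: `g2 = g1⁻¹ g2 g1 al`, so `g1⁻¹ g2 = g2 al⁻¹ g1⁻¹ = g2 al g1⁻¹`. So `g1⁻¹ c g1 = c a(-1)` (`c1`).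
 Also `a'(-1) c = g2 al g2⁻¹ g2 g1⁻¹ = g2 al g1⁻¹`. So `g1⁻¹ c g1 = a'(-1) c` and `e02 = c e01 c⁻¹` (`e02_eq`).
(3) Conjugate (2) by `g1`: `c = g1 c g1⁻¹ · g1 a(-1) g1⁻¹ = (g1 c g1⁻¹) a(-2)`, so `g1 c g1⁻¹ = c a(-2)` (`c2`; `a(-2)² = 1`).
(4) `e12 = g1 (c a(-1) c⁻¹) g1⁻¹ = (c a(-2)) a(-2) (c a(-2))⁻¹ = c a(-2) c⁻¹` (`e12_eq`).
(5) `c⁻¹ a(-1) c = a(-2) a(-1) a(-2)` (`c3`): `g1 (c a(-1)) g1⁻¹ = g1 g1⁻¹ c g1 g1⁻¹ = c`... precisely: conjugate `al = c⁻¹ al c` (`Rel.comm_c`) by `g1`: `a(-1) = (g1 c g1⁻¹)⁻¹ a(-1) (g1 c g1⁻¹) = a(-2) c⁻¹ a(-1) c a(-2)`.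
(6) `e01 e02 e01 = e12`: by (5), `c a(-2) a(-1) a(-2) c⁻¹ = a(-1)`, i.e. `e12 e02 e12 = e01`; by the braid relation conjugated by `c`: `e12 e02 e12 = e02 e12 e02`. So `e01 = e02 e12 e02`, `e12 = e02 e01 e02`; and `e02 = e12 e01 e12` from `e01 = e12 e02 e12`.
 `e01 e12 e01 = e02`: `e01 e12 e01 = (e12 e02 e12) e12 (e12 e02 e12) = e12 e02 e12 e02 e12 = e12 (e12 e02 e12) e12 = e02`. `e01 e02 e01 = e12` from it.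
(7) `g1 e12 g1⁻¹ = b_1(0) e12 b_1(0)`, `b_1(0) = a(-2)`: `g1 e12 g1⁻¹ = g1 (c a(-2) c⁻¹) g1⁻¹ = c a(-2) a(-3) a(-2) c⁻¹`, and `c⁻¹ a(-2) c = a(-3)` (`Rel.conj_c`), i.e. `c a(-3) c⁻¹ = a(-2)`; so it is `(c a(-2) c⁻¹)(c a(-3) c⁻¹)(c a(-2) c⁻¹) = e12 a(-2) e12`;
 and `c a(-2) a(-3) a(-2) c⁻¹ = c a(-3) a(-2) a(-3) c⁻¹ = a(-2) e12 a(-2)` (braid).
-/

set_option autoImplicit false

namespace Pool.Agent.Helper27.SX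

variable {Q : Type*} [Group Q] {g1 g2 : Q}

private lemma sp1 (g1 g2 : Q) : g1 * g2 = g2 * g1 * al g1 g2 := by
  unfold al
  group

private lemma sinv (h : Rel g1 g2) : (al g1 g2)⁻¹ = al g1 g2 := inv_eq_of_mul_eq_one_left h.r1

private lemma pm1 (g1 g2 : Q) : pa g1 g2 (-1) = g1 * al g1 g2 * g1⁻¹ := by
  unfold pa aa
  rw [neg_neg, zpow_one, zpow_neg_one]

private lemma qm1 (g1 g2 : Q) : qa g1 g2 (-1) = g2 * al g1 g2 * g2⁻¹ := by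
  unfold qa aa
  rw [neg_neg, zpow_one, zpow_neg_one]

private lemma pm2 (g1 g2 : Q) : pa g1 g2 (-2) = g1 * pa g1 g2 (-1) * g1⁻¹ := by
  have h := pa_conj g1 g2 (-1) (-1)
  rw [neg_neg, zpow_one, zpow_neg_one] at h
  rw [h]
  norm_num

private lemma pm3 (g1 g2 : Q) : pa g1 g2 (-3) = g1 * pa g1 g2 (-2) * g1⁻¹ := by
  have h := pa_conj g1 g2 (-2) (-1)
  rw [neg_neg, zpow_one, zpow_neg_one] at h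
  rw [h]
  norm_num

theorem Rel.e12_symm (h : Rel g1 g2) : g1 * qa g1 g2 (-1) * g1⁻¹ = g2 * pa g1 g2 (-1) * g2⁻¹ := by
  rw [pm1, qm1]
  have e := sp1 g1 g2
  calc g1 * (g2 * al g1 g2 * g2⁻¹) * g1⁻¹ = (g1 * g2) * al g1 g2 * (g1 * g2)⁻¹ := by group
    _ = (g2 * g1 * al g1 g2) * al g1 g2 * (g2 * g1 * al g1 g2)⁻¹ := by rw [e]
    _ = g2 * (g1 * al g1 g2 * g1⁻¹) * g2⁻¹ := by group

theorem Rel.c1 (h : Rel g1 g2) : g1⁻¹ * (g2 * g1⁻¹) * g1 = (g2 * g1⁻¹) * pa g1 g2 (-1) := by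
  rw [pm1]
  have e : g2 * (al g1 g2)⁻¹ * g1⁻¹ = g1⁻¹ * g2 := by
    unfold al
    group
  rw [sinv h] at e
  calc g1⁻¹ * (g2 * g1⁻¹) * g1 = g1⁻¹ * g2 := by group
    _ = g2 * al g1 g2 * g1⁻¹ := e.symm
    _ = (g2 * g1⁻¹) * (g1 * al g1 g2 * g1⁻¹) := by group

theorem Rel.c2 (h : Rel g1 g2) : g1 * (g2 * g1⁻¹) * g1⁻¹ = (g2 * g1⁻¹) * pa g1 g2 (-2) := by
  have e := h.c1
  have hs := h.sq (-2)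
  have h2 := pm2 g1 g2
  have e3 : g2 * g1⁻¹ = g1 * (g2 * g1⁻¹) * g1⁻¹ * pa g1 g2 (-2) := by
    calc g2 * g1⁻¹ = g1 * (g1⁻¹ * (g2 * g1⁻¹) * g1) * g1⁻¹ := by group
      _ = g1 * ((g2 * g1⁻¹) * pa g1 g2 (-1)) * g1⁻¹ := by rw [e]
      _ = g1 * (g2 * g1⁻¹) * g1⁻¹ * (g1 * pa g1 g2 (-1) * g1⁻¹) := by group
      _ = _ := by rw [← h2]
  calc g1 * (g2 * g1⁻¹) * g1⁻¹ = g1 * (g2 * g1⁻¹) * g1⁻¹ * (pa g1 g2 (-2) * pa g1 g2 (-2)) := by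
        rw [hs, mul_one]
    _ = (g1 * (g2 * g1⁻¹) * g1⁻¹ * pa g1 g2 (-2)) * pa g1 g2 (-2) := (mul_assoc _ _ _).symm
    _ = _ := by rw [← e3]

private lemma e02_eq (g1 g2 : Q) :
    qa g1 g2 (-1) = (g2 * g1⁻¹) * pa g1 g2 (-1) * (g2 * g1⁻¹)⁻¹ := by
  rw [pm1, qm1]
  group

private lemma e12_eq (h : Rel g1 g2) : g1 * qa g1 g2 (-1) * g1⁻¹ =
    (g2 * g1⁻¹) * pa g1 g2 (-2) * (g2 * g1⁻¹)⁻¹ := by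
  have e := h.c2
  have hs := h.sq (-2)
  have h2 := pm2 g1 g2
  have hi : (pa g1 g2 (-2))⁻¹ = pa g1 g2 (-2) := inv_eq_of_mul_eq_one_left hs
  rw [e02_eq]
  calc g1 * ((g2 * g1⁻¹) * pa g1 g2 (-1) * (g2 * g1⁻¹)⁻¹) * g1⁻¹
      = (g1 * (g2 * g1⁻¹) * g1⁻¹) * (g1 * pa g1 g2 (-1) * g1⁻¹) *
        (g1 * (g2 * g1⁻¹) * g1⁻¹)⁻¹ := by group
    _ = ((g2 * g1⁻¹) * pa g1 g2 (-2)) * pa g1 g2 (-2) *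
        ((g2 * g1⁻¹) * pa g1 g2 (-2))⁻¹ := by rw [e, ← h2]
    _ = (g2 * g1⁻¹) * (pa g1 g2 (-2) * pa g1 g2 (-2)) * (pa g1 g2 (-2))⁻¹ * (g2 * g1⁻¹)⁻¹ := by
        group
    _ = _ := by rw [hs, mul_one, hi]

private lemma conj3 (x c a : Q) : x * (c⁻¹ * a * c) * x⁻¹ =
    (x * c * x⁻¹)⁻¹ * (x * a * x⁻¹) * (x * c * x⁻¹) := by
  group

private lemma c3 (h : Rel g1 g2) : (g2 * g1⁻¹)⁻¹ * pa g1 g2 (-1) * (g2 * g1⁻¹) =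
    pa g1 g2 (-2) * pa g1 g2 (-1) * pa g1 g2 (-2) := by
  have e := h.c2
  have hs := h.sq (-2)
  have hi : (pa g1 g2 (-2))⁻¹ = pa g1 g2 (-2) := inv_eq_of_mul_eq_one_left hs
  have hc : al g1 g2 = (g2 * g1⁻¹)⁻¹ * al g1 g2 * (g2 * g1⁻¹) := by
    have := h.comm_c.eq
    rw [mul_assoc, ← this, ← mul_assoc, inv_mul_cancel, one_mul]
  have e1 : pa g1 g2 (-1) = (pa g1 g2 (-2))⁻¹ * ((g2 * g1⁻¹)⁻¹ * pa g1 g2 (-1) * (g2 * g1⁻¹)) *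
      pa g1 g2 (-2) := by
    calc pa g1 g2 (-1) = g1 * al g1 g2 * g1⁻¹ := pm1 g1 g2
      _ = g1 * ((g2 * g1⁻¹)⁻¹ * al g1 g2 * (g2 * g1⁻¹)) * g1⁻¹ := by rw [← hc]
      _ = (g1 * (g2 * g1⁻¹) * g1⁻¹)⁻¹ * (g1 * al g1 g2 * g1⁻¹) *
          (g1 * (g2 * g1⁻¹) * g1⁻¹) := conj3 _ _ _
      _ = ((g2 * g1⁻¹) * pa g1 g2 (-2))⁻¹ * pa g1 g2 (-1) *
          ((g2 * g1⁻¹) * pa g1 g2 (-2)) := by rw [e, ← pm1]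
      _ = _ := by group
  generalize (g2 * g1⁻¹)⁻¹ * pa g1 g2 (-1) * (g2 * g1⁻¹) = u at e1 ⊢
  rw [e1]
  calc u = (pa g1 g2 (-2) * (pa g1 g2 (-2))⁻¹) * u * (pa g1 g2 (-2) * (pa g1 g2 (-2))⁻¹) := by group
    _ = (pa g1 g2 (-2) * (pa g1 g2 (-2))⁻¹) * u * (pa g1 g2 (-2) * pa g1 g2 (-2)) := by rw [hi]
    _ = _ := by group

private lemma key (h : Rel g1 g2) :
    let E := qa g1 g2 (-1)
    let F := g1 * qa g1 g2 (-1) * g1⁻¹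
    E * E = 1 ∧ F * F = 1 ∧ F * E * F = pa g1 g2 (-1) ∧ E * F * E = F * E * F := by
  intro E F
  have hE : E = (g2 * g1⁻¹) * pa g1 g2 (-1) * (g2 * g1⁻¹)⁻¹ := e02_eq g1 g2
  have hF : F = (g2 * g1⁻¹) * pa g1 g2 (-2) * (g2 * g1⁻¹)⁻¹ := e12_eq h
  have hs1 := h.sq (-1)
  have hs2 := h.sq (-2)
  have hb := h.braid (-2)
  have e0 : (-2 : ℤ) + 1 = -1 := by norm_num
  rw [e0] at hb
  have h3 := c3 h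
  refine ⟨?_, ?_, ?_, ?_⟩
  · rw [hE]
    calc (g2 * g1⁻¹) * pa g1 g2 (-1) * (g2 * g1⁻¹)⁻¹ * ((g2 * g1⁻¹) * pa g1 g2 (-1) * (g2 * g1⁻¹)⁻¹)
        = (g2 * g1⁻¹) * (pa g1 g2 (-1) * pa g1 g2 (-1)) * (g2 * g1⁻¹)⁻¹ := by group
      _ = 1 := by rw [hs1]; group
  · rw [hF]
    calc (g2 * g1⁻¹) * pa g1 g2 (-2) * (g2 * g1⁻¹)⁻¹ * ((g2 * g1⁻¹) * pa g1 g2 (-2) * (g2 * g1⁻¹)⁻¹)
        = (g2 * g1⁻¹) * (pa g1 g2 (-2) * pa g1 g2 (-2)) * (g2 * g1⁻¹)⁻¹ := by group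
      _ = 1 := by rw [hs2]; group
  · rw [hE, hF]
    calc (g2 * g1⁻¹) * pa g1 g2 (-2) * (g2 * g1⁻¹)⁻¹ * ((g2 * g1⁻¹) * pa g1 g2 (-1) * (g2 * g1⁻¹)⁻¹) *
          ((g2 * g1⁻¹) * pa g1 g2 (-2) * (g2 * g1⁻¹)⁻¹)
        = (g2 * g1⁻¹) * (pa g1 g2 (-2) * pa g1 g2 (-1) * pa g1 g2 (-2)) * (g2 * g1⁻¹)⁻¹ := by group
      _ = (g2 * g1⁻¹) * ((g2 * g1⁻¹)⁻¹ * pa g1 g2 (-1) * (g2 * g1⁻¹)) * (g2 * g1⁻¹)⁻¹ := by rw [h3]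
      _ = _ := by group
  · rw [hE, hF]
    calc (g2 * g1⁻¹) * pa g1 g2 (-1) * (g2 * g1⁻¹)⁻¹ * ((g2 * g1⁻¹) * pa g1 g2 (-2) * (g2 * g1⁻¹)⁻¹) *
          ((g2 * g1⁻¹) * pa g1 g2 (-1) * (g2 * g1⁻¹)⁻¹)
        = (g2 * g1⁻¹) * (pa g1 g2 (-1) * pa g1 g2 (-2) * pa g1 g2 (-1)) * (g2 * g1⁻¹)⁻¹ := by group
      _ = (g2 * g1⁻¹) * (pa g1 g2 (-2) * pa g1 g2 (-1) * pa g1 g2 (-2)) * (g2 * g1⁻¹)⁻¹ := by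
          rw [hb]
      _ = _ := by group

private lemma word1 {E F : Q} (hE : E * E = 1) (hF : F * F = 1) (hb : E * F * E = F * E * F) :
    (F * E * F) * E * (F * E * F) = F ∧ (F * E * F) * F * (F * E * F) = E := by
  constructor
  · calc (F * E * F) * E * (F * E * F) = (E * F * E) * E * (E * F * E) := by rw [← hb]
      _ = E * F * (E * E) * (E * F * E) := by group
      _ = E * F * (F * E * F) := by rw [hE, mul_one, hb]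
      _ = E * (F * F) * E * F := by group
      _ = F := by rw [hF, mul_one, hE, one_mul]
  · calc (F * E * F) * F * (F * E * F) = F * E * (F * F) * (F * E * F) := by group
      _ = F * E * (F * E * F) := by rw [hF, mul_one]
      _ = F * E * (E * F * E) := by rw [← hb]
      _ = F * (E * E) * F * E := by group
      _ = E := by rw [hE, mul_one, hF, one_mul]

theorem Rel.e010201 (h : Rel g1 g2) :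
    pa g1 g2 (-1) * qa g1 g2 (-1) * pa g1 g2 (-1) = g1 * qa g1 g2 (-1) * g1⁻¹ := by
  obtain ⟨hE, hF, hA, hb⟩ := key h
  rw [← hA]
  exact (word1 hE hF hb).1

theorem Rel.e011201 (h : Rel g1 g2) :
    pa g1 g2 (-1) * (g1 * qa g1 g2 (-1) * g1⁻¹) * pa g1 g2 (-1) = qa g1 g2 (-1) := by
  obtain ⟨hE, hF, hA, hb⟩ := key h
  rw [← hA]
  exact (word1 hE hF hb).2

theorem Rel.e12_conj (h : Rel g1 g2) : g1 * (g1 * qa g1 g2 (-1) * g1⁻¹) * g1⁻¹ =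
    pa g1 g2 (-2) * (g1 * qa g1 g2 (-1) * g1⁻¹) * pa g1 g2 (-2) := by
  have hs := h.sq (-2)
  have hi : (pa g1 g2 (-2))⁻¹ = pa g1 g2 (-2) := inv_eq_of_mul_eq_one_left hs
  have hb := h.braid (-3)
  have e0 : (-3 : ℤ) + 1 = -2 := by norm_num
  rw [e0] at hb
  have h4 : (g2 * g1⁻¹)⁻¹ * pa g1 g2 (-2) * (g2 * g1⁻¹) = pa g1 g2 (-3) := by
    have := h.conj_c 2 le_rfl
    norm_num at this ⊢
    exact this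
  have h5 : pa g1 g2 (-2) = (g2 * g1⁻¹) * pa g1 g2 (-3) * (g2 * g1⁻¹)⁻¹ := by
    rw [← h4]
    group
  rw [e12_eq h]
  calc g1 * ((g2 * g1⁻¹) * pa g1 g2 (-2) * (g2 * g1⁻¹)⁻¹) * g1⁻¹
      = (g1 * (g2 * g1⁻¹) * g1⁻¹) * (g1 * pa g1 g2 (-2) * g1⁻¹) *
        (g1 * (g2 * g1⁻¹) * g1⁻¹)⁻¹ := by group
    _ = ((g2 * g1⁻¹) * pa g1 g2 (-2)) * pa g1 g2 (-3) *
        ((g2 * g1⁻¹) * pa g1 g2 (-2))⁻¹ := by rw [h.c2, ← pm3]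
    _ = (g2 * g1⁻¹) * (pa g1 g2 (-2) * pa g1 g2 (-3) * (pa g1 g2 (-2))⁻¹) * (g2 * g1⁻¹)⁻¹ := by
        group
    _ = (g2 * g1⁻¹) * (pa g1 g2 (-3) * pa g1 g2 (-2) * pa g1 g2 (-3)) * (g2 * g1⁻¹)⁻¹ := by
        rw [hi, hb]
    _ = ((g2 * g1⁻¹) * pa g1 g2 (-3) * (g2 * g1⁻¹)⁻¹) *
        ((g2 * g1⁻¹) * pa g1 g2 (-2) * (g2 * g1⁻¹)⁻¹) *
        ((g2 * g1⁻¹) * pa g1 g2 (-3) * (g2 * g1⁻¹)⁻¹) := by group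
    _ = _ := by rw [← h5]

end Pool.Agent.Helper27.SX
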