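import Pool.Agent.Helper27.SX.A2
import Pool.Agent.Helper27.SX.A4

/-!
# SX-A5: conjugation by g1 of the transpositions (MP_a16d94_pr)

Notation `b_i m = bb g1 g2 i m`, `D_i m k = DD g1 g2 i m k = b_i(m+k-1) ... b_i(m)`, `e01 = a(-1)`, `e02 = a'(-1)`, `e12 = g1 e02 g1⁻¹`. `DD_succ'`: peel off the right factor, `D_i m (k+1) = D_i (m+1) k * b_i m` (induction on `k`).
Conjugation by `g1` (`g X g⁻¹`): `b_0(m+1) -> b_0(m)`, `b_0(0) -> e01`, `e01 -> b_1(0)`, `b_1(m) -> b_1(m+1)` (all by `pa_conj` with `q = -1`), `b_2(m) -> b_2(m)` (`Rel.comm_g1`), `e02 -> e12` (definition), `e12 -> b_1(0) e12 b_1(0)` (`Rel.e12_conj`). So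
`D_0 (m+1) k -> D_0 m k`, `D_0 0 (k+1) = D_0 1 k * b_0 0 -> D_0 0 k * e01`, `D_1 m k -> D_1 (m+1) k`, `D_2 m k -> D_2 m k`.
`tt_g1`: `g1 t(x,y) g1⁻¹ = t(g1 x, g1 y)`, `x ≠ y`. By `tt_symm` (SX-A5c proves it; prove here the cases below and use `tt_symm` of this file, which is a simple consequence of `Rel.DD_comm` and the definition) it is enough to treat the pairs, `G1 (0,m+1) = (0,m)`, `G1 (0,0) = (1,0)`, `G1 (1,m) = (1,m+1)`, `G1 (2,m) = (2,m)`: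
* `x = (0,m+1)`, `y = (0,m+k+2)`; both on ray 1; both on ray 2: immediate.
* `x = (0,0)`, `y = (0,k+1)`: `D_0 1 k b_0(0) (D_0 1 k)⁻¹ -> D_0 0 k e01 (D_0 0 k)⁻¹ = t((1,0),(0,k))`.
* `x = (0,m+1)`, `y = (1,n)`: `D_0 0 (m+1) D_1 0 n e01 (..)⁻¹ -> D_0 0 m e01 D_1 1 n b_1(0) (..)⁻¹ = D_0 0 m D_1 1 n e01 b_1(0) e01 (..)⁻¹ = D_0 0 m D_1 1 n b_1(0) e01 b_1(0) (..)⁻¹ = D_0 0 m D_1 0 (n+1) e01 (..)⁻¹` (`e01` commutes with `b_1(j)`, `j ≥ 1`; braid relation of `a(-1)`, `a(-2)`).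
* `x = (0,0)`, `y = (1,n)`: `D_1 0 n e01 (..)⁻¹ -> D_1 1 n b_1(0) (..)⁻¹ = t((1,0),(1,n+1))`.
* `x = (0,m+1)`, `y = (2,n)`: `-> D_0 0 m e01 D_2 0 n e12 (..)⁻¹ = D_0 0 m D_2 0 n (e01 e12 e01) (..)⁻¹`, `e01 e12 e01 = e02` (`Rel.e011201`; `e01` commutes with all `b_2`).
* `x = (0,0)`, `y = (2,n)`: `D_2 0 n e02 (..)⁻¹ -> D_2 0 n e12 (..)⁻¹`.
* `x = (1,m)`, `y = (2,n)`: `-> D_1 1 m D_2 0 n b_1(0) e12 b_1(0) (..)⁻¹ = D_1 0 (m+1) D_2 0 n e12 (..)⁻¹` (`b_1(0)` commutes with `b_2`).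
-/

set_option autoImplicit false

namespace Pool.Agent.Helper27.SX

variable {Q : Type*} [Group Q] {g1 g2 : Q}

theorem DD_succ' (g1 g2 : Q) (i : Fin 3) (m k : ℕ) :
    DD g1 g2 i m (k + 1) = DD g1 g2 i (m + 1) k * bb g1 g2 i m := by
  induction k with
  | zero => simp [DD]
  | succ k ih =>
    have h1 : DD g1 g2 i m (k + 1 + 1) = bb g1 g2 i (m + (k + 1)) * DD g1 g2 i m (k + 1) := rfl
    have h2 : DD g1 g2 i (m + 1) (k + 1) = bb g1 g2 i (m + 1 + k) * DD g1 g2 i (m + 1) k := rfl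
    have h3 : m + (k + 1) = m + 1 + k := by omega
    rw [h1, ih, h2, h3, mul_assoc]

lemma a5_ee_symm (g1 g2 : Q) (i j : Fin 3) : ee g1 g2 i j = ee g1 g2 j i := by
  simp only [ee, and_comm (a := i ≠ 2), and_comm (a := i ≠ 1)]

lemma a5_tt_same (g1 g2 : Q) (i : Fin 3) (m k : ℕ) :
    tt g1 g2 (i, m) (i, m + k + 1) =
      DD g1 g2 i (m + 1) k * bb g1 g2 i m * (DD g1 g2 i (m + 1) k)⁻¹ := by
  have h1 : m < m + k + 1 := by omega
  have h2 : m + k + 1 - m - 1 = k := by omega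
  simp only [tt, if_true, h1, h2]

lemma a5_tt_diff (g1 g2 : Q) {i j : Fin 3} (hij : i ≠ j) (m n : ℕ) :
    tt g1 g2 (i, m) (j, n) =
      (DD g1 g2 i 0 m * DD g1 g2 j 0 n) * ee g1 g2 i j * (DD g1 g2 i 0 m * DD g1 g2 j 0 n)⁻¹ := by
  simp only [tt, hij, if_false]

theorem Rel.tt_symm (h : Rel g1 g2) {x y : X} (hxy : x ≠ y) : tt g1 g2 x y = tt g1 g2 y x := by
  obtain ⟨i, m⟩ := x
  obtain ⟨j, n⟩ := y
  by_cases hij : i = j
  · subst hij
    have hmn : m ≠ n := fun e => hxy (by rw [e])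
    rcases lt_or_gt_of_ne hmn with hlt | hlt
    · have h2 : ¬ n < m := by omega
      simp only [tt, if_true, hlt, h2, if_false]
    · have h2 : ¬ m < n := by omega
      simp only [tt, if_true, hlt, h2, if_false]
  · rw [a5_tt_diff g1 g2 hij, a5_tt_diff g1 g2 (Ne.symm hij), (h.DD_comm hij 0 m 0 n).eq,
      a5_ee_symm g1 g2 i j]

lemma a5_G1_00 : G1 ((0 : Fin 3), (0 : ℕ)) = (1, 0) := by
  simp [G1, T, gf]

lemma a5_G1_0 (m : ℕ) : G1 ((0 : Fin 3), m + 1) = (0, m) := by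
  simp [G1, T, gf]

lemma a5_G1_1 (m : ℕ) : G1 ((1 : Fin 3), m) = (1, m + 1) := by
  simp [G1, T, gf]

lemma a5_G1_2 (m : ℕ) : G1 ((2 : Fin 3), m) = (2, m) := by
  simp [G1, T, gf]

lemma a5_pa (g1 g2 : Q) (p : ℤ) : MulAut.conj g1 (pa g1 g2 p) = pa g1 g2 (p - 1) := by
  have := pa_conj g1 g2 p (-1)
  rw [MulAut.conj_apply]
  simpa [sub_eq_add_neg] using this

lemma a5_b0 (g1 g2 : Q) (m : ℕ) : MulAut.conj g1 (bb g1 g2 0 (m + 1)) = bb g1 g2 0 m := by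
  simp only [bb, if_true]
  rw [a5_pa]
  congr 1
  push_cast
  ring

lemma a5_b00 (g1 g2 : Q) : MulAut.conj g1 (bb g1 g2 0 0) = pa g1 g2 (-1) := by
  simp only [bb, if_true]
  rw [a5_pa]
  congr 1

lemma a5_b1 (g1 g2 : Q) (m : ℕ) : MulAut.conj g1 (bb g1 g2 1 m) = bb g1 g2 1 (m + 1) := by
  have h10 : ¬ ((1 : Fin 3) = 0) := by decide
  simp only [bb, if_true, h10, if_false]
  rw [a5_pa]
  congr 1
  push_cast
  ring

lemma a5_e01 (g1 g2 : Q) : MulAut.conj g1 (pa g1 g2 (-1)) = bb g1 g2 1 0 := by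
  have h10 : ¬ ((1 : Fin 3) = 0) := by decide
  simp only [bb, if_true, h10, if_false]
  rw [a5_pa]
  congr 1

lemma a5_b2 (h : Rel g1 g2) (m : ℕ) : MulAut.conj g1 (bb g1 g2 2 m) = bb g1 g2 2 m := by
  have h20 : ¬ ((2 : Fin 3) = 0) := by decide
  have h21 : ¬ ((2 : Fin 3) = 1) := by decide
  simp only [bb, h20, h21, if_false]
  have h1 := h.comm_g1 (m + 2) (by omega)
  have h2 : (-2 - (m : ℤ)) = -((m + 2 : ℕ) : ℤ) := by push_cast; ring
  rw [h2, MulAut.conj_apply, h1.eq, mul_inv_cancel_right]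

lemma a5_D0 (g1 g2 : Q) (m k : ℕ) :
    MulAut.conj g1 (DD g1 g2 0 (m + 1) k) = DD g1 g2 0 m k := by
  induction k with
  | zero => simp [DD]
  | succ k ih =>
    have h1 : DD g1 g2 0 (m + 1) (k + 1) = bb g1 g2 0 (m + 1 + k) * DD g1 g2 0 (m + 1) k := rfl
    have h2 : DD g1 g2 0 m (k + 1) = bb g1 g2 0 (m + k) * DD g1 g2 0 m k := rfl
    have h3 : m + 1 + k = m + k + 1 := by omega
    rw [h1, h2, map_mul, ih, h3, a5_b0]

lemma a5_D00 (g1 g2 : Q) (k : ℕ) :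
    MulAut.conj g1 (DD g1 g2 0 0 (k + 1)) = DD g1 g2 0 0 k * pa g1 g2 (-1) := by
  rw [DD_succ', map_mul, a5_b00, zero_add]
  have := a5_D0 g1 g2 0 k
  rw [zero_add] at this
  rw [this]

lemma a5_D1 (g1 g2 : Q) (m k : ℕ) :
    MulAut.conj g1 (DD g1 g2 1 m k) = DD g1 g2 1 (m + 1) k := by
  induction k with
  | zero => simp [DD]
  | succ k ih =>
    have h1 : DD g1 g2 1 (m + 1) (k + 1) = bb g1 g2 1 (m + 1 + k) * DD g1 g2 1 (m + 1) k := rfl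
    have h2 : DD g1 g2 1 m (k + 1) = bb g1 g2 1 (m + k) * DD g1 g2 1 m k := rfl
    have h3 : m + 1 + k = m + k + 1 := by omega
    rw [h1, h2, map_mul, ih, h3, a5_b1]

lemma a5_D2 (h : Rel g1 g2) (m k : ℕ) :
    MulAut.conj g1 (DD g1 g2 2 m k) = DD g1 g2 2 m k := by
  induction k with
  | zero => simp [DD]
  | succ k ih =>
    have h2 : DD g1 g2 2 m (k + 1) = bb g1 g2 2 (m + k) * DD g1 g2 2 m k := rfl
    rw [h2, map_mul, ih, a5_b2 h]

lemma a5_eD1 (h : Rel g1 g2) (m k : ℕ) : Commute (pa g1 g2 (-1)) (DD g1 g2 1 (m + 1) k) := by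
  induction k with
  | zero => simp [DD]
  | succ k ih =>
    have h1 : DD g1 g2 1 (m + 1) (k + 1) = bb g1 g2 1 (m + 1 + k) * DD g1 g2 1 (m + 1) k := rfl
    have h3 : m + 1 + k = m + k + 1 := by omega
    rw [h1, h3]
    exact (h.e01_comm (m + k)).1.mul_right ih

lemma a5_eD2 (h : Rel g1 g2) (m k : ℕ) : Commute (pa g1 g2 (-1)) (DD g1 g2 2 m k) := by
  induction k with
  | zero => simp [DD]
  | succ k ih =>
    have h1 : DD g1 g2 2 m (k + 1) = bb g1 g2 2 (m + k) * DD g1 g2 2 m k := rfl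
    rw [h1]
    exact (h.e01_comm (m + k)).2.2.mul_right ih

lemma a5_b1D2 (h : Rel g1 g2) (k : ℕ) : Commute (bb g1 g2 1 0) (DD g1 g2 2 0 k) := by
  have h12 : (1 : Fin 3) ≠ 2 := by decide
  have := h.DD_comm h12 0 1 0 k
  simpa [DD] using this

lemma a5_inv_of_sq {e : Q} (he : e * e = 1) : e⁻¹ = e := inv_eq_of_mul_eq_one_left he

lemma a5_ee01 (g1 g2 : Q) : ee g1 g2 0 1 = pa g1 g2 (-1) := by
  have h1 : (0 : Fin 3) ≠ 2 ∧ (1 : Fin 3) ≠ 2 := by decide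
  simp only [ee, if_pos h1]

lemma a5_ee02 (g1 g2 : Q) : ee g1 g2 0 2 = qa g1 g2 (-1) := by
  have h1 : ¬ ((0 : Fin 3) ≠ 2 ∧ (2 : Fin 3) ≠ 2) := by decide
  have h2 : ((0 : Fin 3) ≠ 1 ∧ (2 : Fin 3) ≠ 1) := by decide
  simp only [ee, if_neg h1, if_pos h2]

lemma a5_ee12 (g1 g2 : Q) : ee g1 g2 1 2 = g1 * qa g1 g2 (-1) * g1⁻¹ := by
  have h1 : ¬ ((1 : Fin 3) ≠ 2 ∧ (2 : Fin 3) ≠ 2) := by decide
  have h2 : ¬ ((1 : Fin 3) ≠ 1 ∧ (2 : Fin 3) ≠ 1) := by decide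
  simp only [ee, if_neg h1, if_neg h2]

/-- the statement for the pair `x`, `y` -/
def A5P (g1 g2 : Q) (x y : X) : Prop :=
  MulAut.conj g1 (tt g1 g2 x y) = tt g1 g2 (G1 x) (G1 y)

lemma a5_symm (h : Rel g1 g2) {x y : X} (hxy : x ≠ y) (hp : A5P g1 g2 x y) : A5P g1 g2 y x := by
  unfold A5P at *
  rw [← h.tt_symm hxy, hp, h.tt_symm (fun e => hxy (G1.injective e))]

lemma a5_00 (m k : ℕ) : A5P g1 g2 (0, m) (0, m + k + 1) := by
  unfold A5P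
  rw [a5_tt_same]
  cases m with
  | zero =>
    have e1 : 0 + k + 1 = k + 1 := by omega
    have h10 : (1 : Fin 3) ≠ 0 := by decide
    rw [e1, a5_G1_00, a5_G1_0, map_mul, map_mul, map_inv, a5_D0, a5_b00, a5_tt_diff g1 g2 h10,
      a5_ee_symm, a5_ee01]
    have : DD g1 g2 1 0 0 = 1 := rfl
    rw [this, one_mul]
  | succ m =>
    have e1 : m + 1 + k + 1 = (m + k + 1) + 1 := by omega
    rw [e1, a5_G1_0, a5_G1_0, map_mul, map_mul, map_inv, a5_D0, a5_b0, a5_tt_same]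

lemma a5_11 (m k : ℕ) : A5P g1 g2 (1, m) (1, m + k + 1) := by
  unfold A5P
  have e1 : m + k + 1 + 1 = (m + 1) + k + 1 := by omega
  rw [a5_tt_same, a5_G1_1, a5_G1_1, map_mul, map_mul, map_inv, a5_D1, a5_b1, e1, a5_tt_same]

lemma a5_22 (h : Rel g1 g2) (m k : ℕ) : A5P g1 g2 (2, m) (2, m + k + 1) := by
  unfold A5P
  rw [a5_tt_same, a5_G1_2, a5_G1_2, map_mul, map_mul, map_inv, a5_D2 h, a5_b2 h, a5_tt_same]

lemma a5_01 (h : Rel g1 g2) (m n : ℕ) : A5P g1 g2 (0, m) (1, n) := by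
  unfold A5P
  have h01 : (0 : Fin 3) ≠ 1 := by decide
  rw [a5_tt_diff g1 g2 h01, a5_G1_1]
  cases m with
  | zero =>
    have e1 : n + 1 = 0 + n + 1 := by omega
    have e2 : DD g1 g2 0 0 0 = 1 := rfl
    rw [a5_G1_00, e1, a5_tt_same, e2, one_mul, map_mul, map_mul, map_inv, a5_D1, a5_ee01, a5_e01]
  | succ m =>
    rw [a5_G1_0, a5_tt_diff g1 g2 h01, map_mul, map_mul, map_inv, map_mul, a5_D00, a5_D1, a5_ee01,
      a5_e01, DD_succ' g1 g2 1 0 n]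
    have hc := a5_eD1 h 0 n
    have hbr := h.braid (-2)
    have e3 : (-2 : ℤ) + 1 = -1 := by norm_num
    rw [e3] at hbr
    have hb : bb g1 g2 1 0 = pa g1 g2 (-2) := by
      have h10 : ¬ ((1 : Fin 3) = 0) := by decide
      simp [bb]
    have hb2 := a5_inv_of_sq (h.sq (-2))
    have he2 := a5_inv_of_sq (h.sq (-1))
    rw [hb]
    generalize DD g1 g2 1 (0 + 1) n = B at *
    generalize DD g1 g2 0 0 m = A at *
    generalize pa g1 g2 (-1) = e at *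
    generalize pa g1 g2 (-2) = b at *
    have h1 : A * e * B = A * B * e := by rw [mul_assoc, hc.eq, ← mul_assoc]
    rw [h1]
    simp only [mul_inv_rev, hb2, he2]
    have h2 : e * b * e = b * e * b := hbr.symm
    calc A * B * e * b * (e * (B⁻¹ * A⁻¹)) = A * B * (e * b * e) * (B⁻¹ * A⁻¹) := by group
      _ = A * B * (b * e * b) * (B⁻¹ * A⁻¹) := by rw [h2]
      _ = A * (B * b) * e * (b * B⁻¹ * A⁻¹) := by group

lemma a5_02 (h : Rel g1 g2) (m n : ℕ) : A5P g1 g2 (0, m) (2, n) := by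
  unfold A5P
  have h02 : (0 : Fin 3) ≠ 2 := by decide
  have h12 : (1 : Fin 3) ≠ 2 := by decide
  rw [a5_tt_diff g1 g2 h02, a5_G1_2]
  cases m with
  | zero =>
    have e2 : DD g1 g2 0 0 0 = 1 := rfl
    have e3 : DD g1 g2 1 0 0 = 1 := rfl
    rw [a5_G1_00, a5_tt_diff g1 g2 h12, e2, e3, one_mul, map_mul, map_mul, map_inv, a5_D2 h,
      a5_ee02, a5_ee12, MulAut.conj_apply g1 (qa g1 g2 (-1))]
  | succ m =>
    rw [a5_G1_0, a5_tt_diff g1 g2 h02, map_mul, map_mul, map_inv, map_mul, a5_D00, a5_D2 h, a5_ee02,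
      MulAut.conj_apply g1 (qa g1 g2 (-1))]
    have hc := a5_eD2 h 0 n
    have he2 := a5_inv_of_sq (h.sq (-1))
    have hr := h.e011201
    generalize DD g1 g2 2 0 n = B at *
    generalize DD g1 g2 0 0 m = A at *
    generalize pa g1 g2 (-1) = e at *
    have h1 : A * e * B = A * B * e := by rw [mul_assoc, hc.eq, ← mul_assoc]
    rw [h1]
    simp only [mul_inv_rev, he2]
    generalize g1 * qa g1 g2 (-1) * g1⁻¹ = f at *
    calc A * B * e * f * (e * (B⁻¹ * A⁻¹)) = A * B * (e * f * e) * (B⁻¹ * A⁻¹) := by group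
      _ = A * B * qa g1 g2 (-1) * (B⁻¹ * A⁻¹) := by rw [hr]

lemma a5_12 (h : Rel g1 g2) (m n : ℕ) : A5P g1 g2 (1, m) (2, n) := by
  unfold A5P
  have h12 : (1 : Fin 3) ≠ 2 := by decide
  rw [a5_tt_diff g1 g2 h12, a5_G1_2, a5_G1_1, a5_tt_diff g1 g2 h12, map_mul, map_mul, map_inv,
    map_mul, a5_D1, a5_D2 h, a5_ee12, MulAut.conj_apply g1 (g1 * qa g1 g2 (-1) * g1⁻¹),
    DD_succ' g1 g2 1 0 m, h.e12_conj]
  have hb : bb g1 g2 1 0 = pa g1 g2 (-2) := by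
    have h10 : ¬ ((1 : Fin 3) = 0) := by decide
    simp [bb]
  have hb2 := a5_inv_of_sq (h.sq (-2))
  have hc := a5_b1D2 h n
  rw [hb] at hc ⊢
  generalize DD g1 g2 2 0 n = B at *
  generalize DD g1 g2 1 (0 + 1) m = A at *
  generalize g1 * qa g1 g2 (-1) * g1⁻¹ = f at *
  generalize pa g1 g2 (-2) = b at *
  have h1 : A * b * B = A * B * b := by rw [mul_assoc, hc.eq, ← mul_assoc]
  rw [h1]
  simp only [mul_inv_rev, hb2]
  group

theorem Rel.tt_g1 (h : Rel g1 g2) {x y : X} (hxy : x ≠ y) :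
    g1 * tt g1 g2 x y * g1⁻¹ = tt g1 g2 (G1 x) (G1 y) := by
  rw [← MulAut.conj_apply]
  change A5P g1 g2 x y
  obtain ⟨i, m⟩ := x
  obtain ⟨j, n⟩ := y
  by_cases hij : i = j
  · subst hij
    have hmn : m ≠ n := fun e => hxy (by rw [e])
    have key : ∀ m k : ℕ, A5P g1 g2 (i, m) (i, m + k + 1) := by
      intro m k
      fin_cases i
      · exact a5_00 m k
      · exact a5_11 m k
      · exact a5_22 h m k
    rcases lt_or_gt_of_ne hmn with hlt | hlt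
    · obtain ⟨k, rfl⟩ := Nat.exists_eq_add_of_lt hlt
      exact key m k
    · obtain ⟨k, rfl⟩ := Nat.exists_eq_add_of_lt hlt
      exact a5_symm h (Ne.symm hxy) (key n k)
  · fin_cases i <;> fin_cases j
    · exact absurd rfl hij
    · exact a5_01 h m n
    · exact a5_02 h m n
    · exact a5_symm h (Ne.symm hxy) (a5_01 h n m)
    · exact absurd rfl hij
    · exact a5_12 h m n
    · exact a5_symm h (Ne.symm hxy) (a5_02 h n m)
    · exact a5_symm h (Ne.symm hxy) (a5_12 h n m)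
    · exact absurd rfl hij

end Pool.Agent.Helper27.SX
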