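import Pool.Agent.Helper27.SX.A5

/-!
# SX-A5c: the second generator, squares (MP_a16d94_pr)

PROOF. `tt_fl`: exchange of the generators and of rays 1, 2. `bb g2 g1 (fl i) m = bb g1 g2 i m`: `i = 0`: `pa g2 g1 m = qa g1 g2 m = pa g1 g2 m` (`Rel.qa_symm`, `Rel.qa_eq`); `i = 1, 2`: `Rel.qa_symm`. So `DD g2 g1 (fl i) m k = DD g1 g2 i m k`.
`ee g2 g1 (fl i) (fl j) = ee g1 g2 i j` for `i ≠ j`: `(0,1)`, `(0,2)`: `Rel.qa_symm`; `(1,2)`: `ee g2 g1 2 1 = g2 (qa g2 g1 (-1)) g2⁻¹ = g2 (pa g1 g2 (-1)) g2⁻¹` and `Rel.e12_symm`.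
`G2 x = flX (G1 (flX x))` (cases). `tt_g2`: `g2 t(x,y) g2⁻¹ = g2 tt g2 g1 (flX x) (flX y) g2⁻¹ = tt g2 g1 (G1 (flX x)) (G1 (flX y))` by `Rel.tt_g1` for `h.symm`, then `tt_fl` again (`flX (flX x) = x`).
`tt_sq`: `t(x,y)` is a conjugate of `b_i(m)` or `e_ij`, which have square `1` (`Rel.sq` for `h` and `h.symm`). `tt_mem`: everything is a product of powers of `g1`, `g2`. `tt_zero`: `t((0,0),(0,1)) = al`.
-/

set_option autoImplicit false

namespace Pool.Agent.Helper27.SX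

variable {Q : Type*} [Group Q] {g1 g2 : Q}

private theorem h99_fl_inj {i j : Fin 3} : fl i = fl j ↔ i = j := by
  fin_cases i <;> fin_cases j <;> simp [fl]

private theorem h99_flX_flX (x : X) : flX (flX x) = x := by
  obtain ⟨i, m⟩ := x
  fin_cases i <;> simp [flX, fl]

private theorem h99_flX_inj {x y : X} (h : flX x = flX y) : x = y := by
  rw [← h99_flX_flX x, h, h99_flX_flX]

private theorem h99_bb_fl (h : Rel g1 g2) (i : Fin 3) (m : ℕ) :
    bb g2 g1 (fl i) m = bb g1 g2 i m := by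
  fin_cases i
  · change bb g2 g1 0 m = bb g1 g2 0 m
    unfold bb
    rw [if_pos rfl, if_pos rfl, (h.qa_symm m).1, h.qa_eq]
  · change bb g2 g1 2 m = bb g1 g2 1 m
    unfold bb
    rw [if_neg (by decide), if_neg (by decide), if_neg (by decide), if_pos rfl,
      (h.qa_symm (-2 - m)).2]
  · change bb g2 g1 1 m = bb g1 g2 2 m
    unfold bb
    rw [if_neg (by decide), if_pos rfl, if_neg (by decide), if_neg (by decide),
      (h.qa_symm (-2 - m)).1]

private theorem h99_DD_fl (h : Rel g1 g2) (i : Fin 3) (m k : ℕ) :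
    DD g2 g1 (fl i) m k = DD g1 g2 i m k := by
  induction k with
  | zero => rfl
  | succ k ih => simp only [DD, ih, h99_bb_fl h]

private theorem h99_ee_fl (h : Rel g1 g2) {i j : Fin 3} (hij : i ≠ j) :
    ee g2 g1 (fl i) (fl j) = ee g1 g2 i j := by
  have h1 := (h.qa_symm (-1)).1
  have h2 := (h.qa_symm (-1)).2
  have h3 := h.e12_symm
  fin_cases i <;> fin_cases j <;> first
    | exact absurd rfl hij
    | (simp [ee, fl, h1, h2, h3])

theorem Rel.tt_fl (h : Rel g1 g2) {x y : X} (hxy : x ≠ y) : tt g2 g1 (flX x) (flX y) = tt g1 g2 x y := by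
  obtain ⟨i, m⟩ := x
  obtain ⟨j, n⟩ := y
  unfold tt flX
  simp only [h99_fl_inj, h99_DD_fl h, h99_bb_fl h]
  by_cases hij : i = j
  · simp only [hij, ↓reduceIte]
  · rw [if_neg hij, if_neg hij, h99_ee_fl h hij]

private theorem h99_G2 (x : X) : G2 x = flX (G1 (flX x)) := by
  obtain ⟨i, m⟩ := x
  fin_cases i
  · by_cases hm : m = 0
    · simp [G2, G1, T, gf, flX, fl, hm]
    · simp [G2, G1, T, gf, flX, fl, hm]
  · simp [G2, G1, T, gf, flX, fl]
  · simp [G2, G1, T, gf, flX, fl]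

theorem Rel.tt_g2 (h : Rel g1 g2) {x y : X} (hxy : x ≠ y) :
    g2 * tt g1 g2 x y * g2⁻¹ = tt g1 g2 (G2 x) (G2 y) := by
  have h1 : flX x ≠ flX y := fun e => hxy (h99_flX_inj e)
  have h2 : G1 (flX x) ≠ G1 (flX y) := fun e => h1 (G1.injective e)
  rw [← h.tt_fl hxy, h.symm.tt_g1 h1, h99_G2, h99_G2]
  have h3 := h.symm.tt_fl h2
  rw [← h3]

private theorem h99_conj_sq {a b : Q} (hb : b * b = 1) : (a * b * a⁻¹) * (a * b * a⁻¹) = 1 := by
  have : (a * b * a⁻¹) * (a * b * a⁻¹) = a * (b * b) * a⁻¹ := by group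
  rw [this, hb]
  group

private theorem h99_ee_sq (h : Rel g1 g2) (i j : Fin 3) : ee g1 g2 i j * ee g1 g2 i j = 1 := by
  have h1 := h.sq (-1)
  have h2 : qa g1 g2 (-1) * qa g1 g2 (-1) = 1 := by
    rw [← (h.qa_symm (-1)).1]
    exact h.symm.sq (-1)
  unfold ee
  split_ifs
  · exact h1
  · exact h2
  · exact h99_conj_sq h2

theorem Rel.tt_sq (h : Rel g1 g2) {x y : X} (hxy : x ≠ y) : tt g1 g2 x y * tt g1 g2 x y = 1 := by
  unfold tt
  split_ifs
  · exact h99_conj_sq (h.bb_sq _ _)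
  · exact h99_conj_sq (h.bb_sq _ _)
  · exact h99_conj_sq (h99_ee_sq h _ _)

private theorem h99_g1_mem (g1 g2 : Q) : g1 ∈ HH g1 g2 := Subgroup.subset_closure (by simp)

private theorem h99_g2_mem (g1 g2 : Q) : g2 ∈ HH g1 g2 := Subgroup.subset_closure (by simp)

private theorem h99_al_mem (g1 g2 : Q) : al g1 g2 ∈ HH g1 g2 := by
  unfold al
  have h1 := h99_g1_mem g1 g2
  have h2 := h99_g2_mem g1 g2
  exact mul_mem (mul_mem (mul_mem (inv_mem h1) (inv_mem h2)) h1) h2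

private theorem h99_pa_mem (g1 g2 : Q) (p : ℤ) : pa g1 g2 p ∈ HH g1 g2 := by
  unfold pa aa
  have h1 := h99_g1_mem g1 g2
  exact mul_mem (mul_mem (zpow_mem h1 _) (h99_al_mem g1 g2)) (zpow_mem h1 _)

private theorem h99_qa_mem (g1 g2 : Q) (p : ℤ) : qa g1 g2 p ∈ HH g1 g2 := by
  unfold qa aa
  have h1 := h99_g2_mem g1 g2
  exact mul_mem (mul_mem (zpow_mem h1 _) (h99_al_mem g1 g2)) (zpow_mem h1 _)

private theorem h99_bb_mem (g1 g2 : Q) (i : Fin 3) (m : ℕ) : bb g1 g2 i m ∈ HH g1 g2 := by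
  unfold bb
  split_ifs
  · exact h99_pa_mem _ _ _
  · exact h99_pa_mem _ _ _
  · exact h99_qa_mem _ _ _

private theorem h99_DD_mem (g1 g2 : Q) (i : Fin 3) (m k : ℕ) : DD g1 g2 i m k ∈ HH g1 g2 := by
  induction k with
  | zero => exact one_mem _
  | succ k ih => exact mul_mem (h99_bb_mem _ _ _ _) ih

private theorem h99_ee_mem (g1 g2 : Q) (i j : Fin 3) : ee g1 g2 i j ∈ HH g1 g2 := by
  unfold ee
  split_ifs
  · exact h99_pa_mem _ _ _
  · exact h99_qa_mem _ _ _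
  · exact mul_mem (mul_mem (h99_g1_mem _ _) (h99_qa_mem _ _ _)) (inv_mem (h99_g1_mem _ _))

theorem tt_mem (g1 g2 : Q) (x y : X) : tt g1 g2 x y ∈ HH g1 g2 := by
  have hc : ∀ a b : Q, a ∈ HH g1 g2 → b ∈ HH g1 g2 → a * b * a⁻¹ ∈ HH g1 g2 :=
    fun a b ha hb => mul_mem (mul_mem ha hb) (inv_mem ha)
  unfold tt
  split_ifs
  · exact hc _ _ (h99_DD_mem _ _ _ _ _) (h99_bb_mem _ _ _ _)
  · exact hc _ _ (h99_DD_mem _ _ _ _ _) (h99_bb_mem _ _ _ _)
  · exact hc _ _ (mul_mem (h99_DD_mem _ _ _ _ _) (h99_DD_mem _ _ _ _ _)) (h99_ee_mem _ _ _ _)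

theorem tt_zero (g1 g2 : Q) : tt g1 g2 (0, 0) (0, 1) = al g1 g2 := by
  simp [tt, DD, bb, pa, aa]

end Pool.Agent.Helper27.SX
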