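import Pool.Agent.Helper27.SX.A5c
import Pool.Agent.Helper27.SX.A5d

/-!
# SX-A8: the presentation of Houghton's group (MP_a16d94_pr)

PROOF. `equiv_tt`: closure induction over `HH g1 g2 = closure {g1, g2}`: generators `Rel.tt_g1`, `Rel.tt_g2` (`π g1 = G1`), products and inverses formally (`π q` is a permutation; for `q⁻¹` apply the statement for `q` to the pair `(π q)⁻¹ x, (π q)⁻¹ y`).
`pi_tt`: `π (tt g1 g2 x y) = tt G1 G2 x y = swap x y` (`map_tt`, `ttG`).
`two_trans`: `rr G1 G2 x` moves `(0,0)` to `x`; if `rr⁻¹ y = z ≠ (0,0)` use a product of swaps `tt` (`pi_tt`, `tt_mem`): `q = tt x (0,0) * ...`: the permutation `swap (0,0) x` then `swap (0,1) y'` (the `π (tt ..)` are all the swaps).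
-/

set_option autoImplicit false

namespace Pool.Agent.Helper27.SX

variable {Q : Type*} [Group Q] {g1 g2 : Q}

theorem Rel.equiv_tt (h : Rel g1 g2) (π : Q →* Equiv.Perm X) (h1 : π g1 = G1) (h2 : π g2 = G2)
    {q : Q} (hq : q ∈ HH g1 g2) {x y : X} (hxy : x ≠ y) :
    q * tt g1 g2 x y * q⁻¹ = tt g1 g2 (π q x) (π q y) := by
  have key : ∀ q ∈ HH g1 g2, ∀ x y : X, x ≠ y →
      q * tt g1 g2 x y * q⁻¹ = tt g1 g2 (π q x) (π q y) := by
    intro q hq
    unfold HH at hq
    induction hq using Subgroup.closure_induction with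
    | mem z hz =>
      intro x y hxy
      rcases hz with rfl | hz
      · rw [h1, h.tt_g1 hxy]
      · rw [Set.mem_singleton_iff] at hz
        subst hz
        rw [h2, h.tt_g2 hxy]
    | one =>
      intro x y _
      rw [map_one, one_mul, inv_one, mul_one]
      rfl
    | mul a b _ _ ha hb =>
      intro x y hxy
      have e : a * b * tt g1 g2 x y * (a * b)⁻¹ = a * (b * tt g1 g2 x y * b⁻¹) * a⁻¹ := by group
      rw [e, hb x y hxy, ha _ _ ((π b).injective.ne hxy), map_mul]
      rfl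
    | inv a _ ha =>
      intro x y hxy
      have hne : (π a)⁻¹ x ≠ (π a)⁻¹ y := ((π a)⁻¹).injective.ne hxy
      have h3 := ha _ _ hne
      have e1 : (π a) ((π a)⁻¹ x) = x := (π a).apply_symm_apply x
      have e2 : (π a) ((π a)⁻¹ y) = y := (π a).apply_symm_apply y
      rw [e1, e2] at h3
      rw [← h3, map_inv]
      group
  exact key q hq x y hxy

theorem pi_tt (π : Q →* Equiv.Perm X) (h1 : π g1 = G1) (h2 : π g2 = G2) {x y : X} (hxy : x ≠ y) :
    π (tt g1 g2 x y) = Equiv.swap x y := by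
  rw [map_tt, h1, h2, ttG hxy]

/-- two-transitivity -/
theorem two_trans (π : Q →* Equiv.Perm X) (h1 : π g1 = G1) (h2 : π g2 = G2) {x y : X} (hxy : x ≠ y) :
    ∃ q ∈ HH g1 g2, π q (0, 0) = x ∧ π q (0, 1) = y := by
  have key : ∀ a b : X, ∃ q ∈ HH g1 g2, π q = Equiv.swap a b := by
    intro a b
    by_cases hab : a = b
    · subst hab
      exact ⟨1, Subgroup.one_mem _, by rw [map_one, Equiv.swap_self]; rfl⟩
    · exact ⟨tt g1 g2 a b, tt_mem g1 g2 a b, pi_tt π h1 h2 hab⟩
  obtain ⟨q1, hq1, e1⟩ := key (0, 0) x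
  have hx : π q1 (0, 0) = x := by rw [e1, Equiv.swap_apply_left]
  have hy' : π q1 ((π q1)⁻¹ y) = y := (π q1).apply_symm_apply y
  set y' := (π q1)⁻¹ y with hy'def
  have hne : y' ≠ (0, 0) := by
    intro h
    rw [h] at hy'
    exact hxy (hx.symm.trans hy')
  obtain ⟨q2, hq2, e2⟩ := key (0, 1) y'
  refine ⟨q1 * q2, Subgroup.mul_mem _ hq1 hq2, ?_, ?_⟩
  · have h0 : π q2 (0, 0) = (0, 0) := by
      rw [e2]
      apply Equiv.swap_apply_of_ne_of_ne
      · simp
      · exact hne.symm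
    rw [map_mul]
    change π q1 (π q2 (0, 0)) = x
    rw [h0, hx]
  · have h0 : π q2 (0, 1) = y' := by
      rw [e2, Equiv.swap_apply_left]
    rw [map_mul]
    change π q1 (π q2 (0, 1)) = y
    rw [h0, hy']

end Pool.Agent.Helper27.SX
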