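import Pool.Agent.Helper27.SX.A8

/-!
# SX-A9: conjugation of the lamps (MP_a16d94_pr)

Notation: `r x = rr g1 g2 x` (moves `(0,0)` to `x`), `lx ι g1 g2 x a = r x * ι a * (r x)⁻¹`, `al = a 0`, `a p = pa g1 g2 p`, `c = g2 g1⁻¹`. PROOF (`h : WRel ι g1 g2`).
`comm_pa`: `Commute (ι a) (a p)`, `p ≥ 1`: `p = 1` is `w1`. `(g1 al)⁻¹ a(p) (g1 al) = al⁻¹ a(p+1) al = a(p+1)` for `p ≥ 1` (`Rel.comm`), and `ι a` commutes with `g1 al` (`w2`).
`comm_pa_neg`: `k = 2` is `w5`; `c⁻¹ a(-k) c = a(-k-1)` (`Rel.conj_c`) and `w4`.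
`lx_g1`: to show `(r (G1 x))⁻¹ g1 (r x)` commutes with `ι a`. `x = (0,0)`, `(0,m+1)`, `(1,n)`: it is `1`. `x = (2,n)`, `k = n + 1`: `g2^(-k) g1 g2^k = g1 * (w' k)⁻¹` where `g2^k g1 = g1 g2^k (w' k)`, `w' k = ww g2 g1 k = a'(k-1) ... a'(0)` (`pow_mul_g2` for `(g2, g1)`), so
`g1 * (w' k)⁻¹ = g1 * al * (a 1) * ... * (a (k-1))` (`a'(p) = a(p)`, `al⁻¹ = al`), commutes by `w2` and `comm_pa`.
`lx_g2`: `x = (0,0)`, `(2,n)`: `1`. `x = (0,m+1)`: `g1^m g2 g1^(-m-1) = c a(-2) a(-3) ... a(-m-1)`: induction: `m = 0`: `c`; `g1 (c a(-2) ... a(-m-1)) g1⁻¹ = (c a(-2)) a(-3) ... a(-m-2)` (`Rel.c2`, `pa_conj`); commutes by `w4`, `comm_pa_neg`.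
`x = (1,n)`, `k = n + 1`: `g1^(-k) g2 g1^k = g2 (ww g1 g2 k)⁻¹ = g2 al a(1) ... a(k-1)` (`pow_mul_g2`), commutes by `w3`, `comm_pa`.
-/

set_option autoImplicit false

namespace Pool.Agent.Helper27.SX

variable {Q : Type*} [Group Q] {g1 g2 : Q} {A : Type*} [Group A] {ι : A →* Q}

theorem WRel.comm_pa (h : WRel ι g1 g2) (p : ℕ) (hp : 1 ≤ p) (a : A) : Commute (ι a) (pa g1 g2 p) := by
  induction p, hp using Nat.le_induction with
  | base => exact h.w1 a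
  | succ p hp ih =>
    have h1 : Commute (ι a) ((g1 * al g1 g2)⁻¹ * pa g1 g2 p * (g1 * al g1 g2)) :=
      ((h.w2 a).inv_right.mul_right ih).mul_right (h.w2 a)
    have h2 : g1⁻¹ * pa g1 g2 p * g1 = pa g1 g2 ((p : ℤ) + 1) := by
      have := pa_conj g1 g2 p 1
      simpa using this
    have h3 : Commute (pa g1 g2 0) (pa g1 g2 ((p : ℤ) + 1)) := h.rel.comm 0 _ (by omega)
    have h4 : pa g1 g2 0 = al g1 g2 := by simp [pa, aa]
    rw [h4] at h3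
    have h5 : (g1 * al g1 g2)⁻¹ * pa g1 g2 p * (g1 * al g1 g2) = pa g1 g2 ((p : ℤ) + 1) := by
      calc (g1 * al g1 g2)⁻¹ * pa g1 g2 p * (g1 * al g1 g2)
          = (al g1 g2)⁻¹ * (g1⁻¹ * pa g1 g2 p * g1) * al g1 g2 := by group
        _ = (al g1 g2)⁻¹ * (pa g1 g2 ((p : ℤ) + 1) * al g1 g2) := by rw [h2, mul_assoc]
        _ = pa g1 g2 ((p : ℤ) + 1) := by rw [← h3.eq, inv_mul_cancel_left]
    rw [h5] at h1
    push_cast
    exact h1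

theorem WRel.comm_pa_neg (h : WRel ι g1 g2) (k : ℕ) (hk : 2 ≤ k) (a : A) : Commute (ι a) (pa g1 g2 (-k)) := by
  induction k, hk using Nat.le_induction with
  | base => exact h.w5 a
  | succ k hk ih =>
    have h1 : Commute (ι a) ((g2 * g1⁻¹)⁻¹ * pa g1 g2 (-k) * (g2 * g1⁻¹)) :=
      ((h.w4 a).inv_right.mul_right ih).mul_right (h.w4 a)
    rw [h.rel.conj_c k hk] at h1
    have h2 : (-((k + 1 : ℕ) : ℤ)) = -k - 1 := by push_cast; ring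
    rw [h2]
    exact h1

private lemma conj_aux {g R R' z : Q} (hc : Commute z (R'⁻¹ * g * R)) :
    g * (R * z * R⁻¹) * g⁻¹ = R' * z * R'⁻¹ := by
  have h1 : g * R = R' * (R'⁻¹ * g * R) := by group
  calc g * (R * z * R⁻¹) * g⁻¹ = (g * R) * z * (g * R)⁻¹ := by group
    _ = (R' * (R'⁻¹ * g * R)) * z * (R' * (R'⁻¹ * g * R))⁻¹ := by rw [← h1]
    _ = R' * ((R'⁻¹ * g * R) * z) * (R'⁻¹ * g * R)⁻¹ * R'⁻¹ := by group
    _ = R' * (z * (R'⁻¹ * g * R)) * (R'⁻¹ * g * R)⁻¹ * R'⁻¹ := by rw [hc.eq]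
    _ = R' * z * R'⁻¹ := by group

private lemma lx_apply (x : X) (a : A) : lx ι g1 g2 x a = rr g1 g2 x * ι a * (rr g1 g2 x)⁻¹ := rfl

private lemma rr_zero (m : ℕ) : rr g1 g2 ((0 : Fin 3), m) = g1 ^ (-(m : ℤ)) := by simp [rr]

private lemma rr_one (m : ℕ) : rr g1 g2 ((1 : Fin 3), m) = g1 ^ (m + 1) := by simp [rr]

private lemma rr_two (m : ℕ) : rr g1 g2 ((2 : Fin 3), m) = g2 ^ (m + 1) := by simp [rr]

private lemma al_inv (h : Rel g1 g2) : (al g1 g2)⁻¹ = al g1 g2 :=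
  inv_eq_of_mul_eq_one_left h.r1

private lemma ww1 (h : WRel ι g1 g2) (k : ℕ) (a : A) : Commute (ι a) (g1 * (ww g2 g1 (k + 1))⁻¹) := by
  induction k with
  | zero =>
    have h1 : ww g2 g1 (0 + 1) = al g1 g2 := by
      simp [ww, pa, aa, al_symm h.rel]
    rw [h1, al_inv h.rel]
    exact h.w2 a
  | succ k ih =>
    have h1 : g1 * (ww g2 g1 (k + 1 + 1))⁻¹ = (g1 * (ww g2 g1 (k + 1))⁻¹) * (pa g1 g2 ((k + 1 : ℕ) : ℤ))⁻¹ := by
      have h2 : pa g2 g1 ((k + 1 : ℕ) : ℤ) = pa g1 g2 ((k + 1 : ℕ) : ℤ) := by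
        rw [(h.rel.qa_symm _).1, h.rel.qa_eq]
      rw [ww, h2, mul_inv_rev, mul_assoc]
    rw [h1]
    exact ih.mul_right (h.comm_pa (k + 1) (by omega) a).inv_right

private lemma ww2 (h : WRel ι g1 g2) (k : ℕ) (a : A) : Commute (ι a) (g2 * (ww g1 g2 (k + 1))⁻¹) := by
  induction k with
  | zero =>
    have h1 : ww g1 g2 (0 + 1) = al g1 g2 := by
      simp [ww, pa, aa]
    rw [h1, al_inv h.rel]
    exact h.w3 a
  | succ k ih =>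
    have h1 : g2 * (ww g1 g2 (k + 1 + 1))⁻¹ = (g2 * (ww g1 g2 (k + 1))⁻¹) * (pa g1 g2 ((k + 1 : ℕ) : ℤ))⁻¹ := by
      rw [ww, mul_inv_rev, mul_assoc]
    rw [h1]
    exact ih.mul_right (h.comm_pa (k + 1) (by omega) a).inv_right

private lemma ww3 (h : WRel ι g1 g2) (k q : ℕ) (hq : k + 1 ≤ q) (a : A) :
    Commute (ι a) (g1 ^ (q : ℤ) * ww g1 g2 k * g1 ^ (-(q : ℤ))) := by
  induction k with
  | zero => simp [ww]
  | succ k ih =>
    have h1 : g1 ^ (q : ℤ) * ww g1 g2 (k + 1) * g1 ^ (-(q : ℤ)) =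
        pa g1 g2 (-((q - k : ℕ) : ℤ)) * (g1 ^ (q : ℤ) * ww g1 g2 k * g1 ^ (-(q : ℤ))) := by
      have h2 := pa_conj g1 g2 k (-(q : ℤ))
      rw [neg_neg] at h2
      have h3 : (-((q - k : ℕ) : ℤ)) = (k : ℤ) + -(q : ℤ) := by
        rw [Nat.cast_sub (by omega)]; ring
      rw [h3, ← h2, ww]
      group
    rw [h1]
    exact (h.comm_pa_neg (q - k) (by omega) a).mul_right (ih (by omega))

theorem WRel.lx_g1 (h : WRel ι g1 g2) (x : X) (a : A) : g1 * lx ι g1 g2 x a * g1⁻¹ = lx ι g1 g2 (G1 x) a := by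
  rw [lx_apply, lx_apply]
  apply conj_aux
  obtain ⟨i, m⟩ := x
  fin_cases i
  · cases m with
    | zero =>
      have h1 : G1 ((0 : Fin 3), 0) = ((1 : Fin 3), 0) := by simp [G1, T, gf]
      show Commute (ι a) ((rr g1 g2 (G1 ((0 : Fin 3), 0)))⁻¹ * g1 * rr g1 g2 ((0 : Fin 3), 0))
      rw [h1, rr_one, rr_zero]
      simp
    | succ m =>
      have h1 : G1 ((0 : Fin 3), m + 1) = ((0 : Fin 3), m) := by simp [G1, T, gf]
      show Commute (ι a) ((rr g1 g2 (G1 ((0 : Fin 3), m + 1)))⁻¹ * g1 * rr g1 g2 ((0 : Fin 3), m + 1))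
      rw [h1, rr_zero, rr_zero]
      have h2 : (g1 ^ (-(m : ℤ)))⁻¹ * g1 * g1 ^ (-((m + 1 : ℕ) : ℤ)) = 1 := by
        push_cast; group
      rw [h2]
      exact Commute.one_right _
  · have h1 : G1 ((1 : Fin 3), m) = ((1 : Fin 3), m + 1) := by simp [G1, T, gf]
    show Commute (ι a) ((rr g1 g2 (G1 ((1 : Fin 3), m)))⁻¹ * g1 * rr g1 g2 ((1 : Fin 3), m))
    rw [h1, rr_one, rr_one]
    have h2 : (g1 ^ (m + 1 + 1))⁻¹ * g1 * g1 ^ (m + 1) = 1 := by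
      rw [pow_succ' g1 (m + 1)]; group
    rw [h2]
    exact Commute.one_right _
  · have h1 : G1 ((2 : Fin 3), m) = ((2 : Fin 3), m) := by
      simp [G1, T, gf]
    show Commute (ι a) ((rr g1 g2 (G1 ((2 : Fin 3), m)))⁻¹ * g1 * rr g1 g2 ((2 : Fin 3), m))
    rw [h1, rr_two]
    have h2 := pow_mul_g2 g2 g1 (m + 1)
    have h3 : (g2 ^ (m + 1))⁻¹ * g1 * g2 ^ (m + 1) = g1 * (ww g2 g1 (m + 1))⁻¹ := by
      have h4 : g1 * g2 ^ (m + 1) = g2 ^ (m + 1) * g1 * (ww g2 g1 (m + 1))⁻¹ := by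
        rw [h2, mul_inv_cancel_right]
      rw [mul_assoc, h4, mul_assoc, inv_mul_cancel_left]
    rw [h3]
    exact ww1 h m a

theorem WRel.lx_g2 (h : WRel ι g1 g2) (x : X) (a : A) : g2 * lx ι g1 g2 x a * g2⁻¹ = lx ι g1 g2 (G2 x) a := by
  rw [lx_apply, lx_apply]
  apply conj_aux
  obtain ⟨i, m⟩ := x
  fin_cases i
  · cases m with
    | zero =>
      have h1 : G2 ((0 : Fin 3), 0) = ((2 : Fin 3), 0) := by simp [G2, T, gf]
      show Commute (ι a) ((rr g1 g2 (G2 ((0 : Fin 3), 0)))⁻¹ * g2 * rr g1 g2 ((0 : Fin 3), 0))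
      rw [h1, rr_two, rr_zero]
      simp
    | succ m =>
      have h1 : G2 ((0 : Fin 3), m + 1) = ((0 : Fin 3), m) := by simp [G2, T, gf]
      show Commute (ι a) ((rr g1 g2 (G2 ((0 : Fin 3), m + 1)))⁻¹ * g2 * rr g1 g2 ((0 : Fin 3), m + 1))
      rw [h1, rr_zero, rr_zero]
      have h2 : (g1 ^ (-(m : ℤ)))⁻¹ * g2 * g1 ^ (-((m + 1 : ℕ) : ℤ)) =
          (g2 * g1⁻¹) * (g1 ^ ((m + 1 : ℕ) : ℤ) * ww g1 g2 m * g1 ^ (-((m + 1 : ℕ) : ℤ))) := by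
        have h3 := pow_mul_g2 g1 g2 m
        have h4 : (g1 ^ (-(m : ℤ)))⁻¹ * g2 = g2 * g1 ^ m * ww g1 g2 m := by
          rw [← h3]; simp
        rw [h4]
        push_cast
        group
      rw [h2]
      exact (h.w4 a).mul_right (ww3 h m (m + 1) le_rfl a)
  · have h1 : G2 ((1 : Fin 3), m) = ((1 : Fin 3), m) := by simp [G2, T, gf]
    show Commute (ι a) ((rr g1 g2 (G2 ((1 : Fin 3), m)))⁻¹ * g2 * rr g1 g2 ((1 : Fin 3), m))
    rw [h1, rr_one]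
    have h2 := pow_mul_g2 g1 g2 (m + 1)
    have h3 : (g1 ^ (m + 1))⁻¹ * g2 * g1 ^ (m + 1) = g2 * (ww g1 g2 (m + 1))⁻¹ := by
      have h4 : g2 * g1 ^ (m + 1) = g1 ^ (m + 1) * g2 * (ww g1 g2 (m + 1))⁻¹ := by
        rw [h2, mul_inv_cancel_right]
      rw [mul_assoc, h4, mul_assoc, inv_mul_cancel_left]
    rw [h3]
    exact ww2 h m a
  · have h1 : G2 ((2 : Fin 3), m) = ((2 : Fin 3), m + 1) := by simp [G2, T, gf]
    show Commute (ι a) ((rr g1 g2 (G2 ((2 : Fin 3), m)))⁻¹ * g2 * rr g1 g2 ((2 : Fin 3), m))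
    rw [h1, rr_two, rr_two]
    have h2 : (g2 ^ (m + 1 + 1))⁻¹ * g2 * g2 ^ (m + 1) = 1 := by
      rw [pow_succ' g2 (m + 1)]; group
    rw [h2]
    exact Commute.one_right _

end Pool.Agent.Helper27.SX
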