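import Pool.Agent.Helper27.SX.A9

/-!
# SX-A9b: equivariance of the lamps (MP_a16d94_pr)

Notation: `r x = rr g1 g2 x` (moves `(0,0)` to `x`), `lx ι g1 g2 x a = r x * ι a * (r x)⁻¹`. PROOF (`h : WRel ι g1 g2`).
`lx_equiv`: closure induction on `q ∈ HH g1 g2`. `lx_comm`: `two_trans`: `q` with `π q (0,0) = x`, `π q (0,1) = y`; `lx x a = q * ι a * q⁻¹`, `lx y a' = q * (g1⁻¹ ι a' g1) * q⁻¹` (`lx_equiv` at `(0,0)`, `(0,1)`), `w6`.
-/

set_option autoImplicit false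

namespace Pool.Agent.Helper27.SX

variable {Q : Type*} [Group Q] {g1 g2 : Q} {A : Type*} [Group A] {ι : A →* Q}

theorem WRel.lx_equiv (h : WRel ι g1 g2) (π : Q →* Equiv.Perm X) (h1 : π g1 = G1) (h2 : π g2 = G2)
    {q : Q} (hq : q ∈ HH g1 g2) (x : X) (a : A) : q * lx ι g1 g2 x a * q⁻¹ = lx ι g1 g2 (π q x) a := by
  unfold HH at hq
  induction hq using Subgroup.closure_induction generalizing x with
  | mem y hy =>
    rcases hy with rfl | rfl
    · rw [h1]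
      exact h.lx_g1 x a
    · rw [h2]
      exact h.lx_g2 x a
  | one => simp
  | mul y z _ _ hy hz =>
    rw [map_mul, Equiv.Perm.mul_apply, ← hy, ← hz]
    group
  | inv y _ hy =>
    have h3 := hy ((π y)⁻¹ x)
    rw [show (π y) ((π y)⁻¹ x) = x from Equiv.apply_symm_apply _ _] at h3
    rw [map_inv, ← h3]
    group

theorem WRel.lx_comm (h : WRel ι g1 g2) (π : Q →* Equiv.Perm X) (h1 : π g1 = G1) (h2 : π g2 = G2)
    {x y : X} (hxy : x ≠ y) (a a' : A) : Commute (lx ι g1 g2 x a) (lx ι g1 g2 y a') := by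
  obtain ⟨q, hq, rfl, rfl⟩ := two_trans π h1 h2 hxy
  rw [← h.lx_equiv π h1 h2 hq, ← h.lx_equiv π h1 h2 hq]
  have h3 : lx ι g1 g2 (0, 0) a = ι a := by simp [lx, rr]
  have h4 : lx ι g1 g2 (0, 1) a' = g1⁻¹ * ι a' * g1 := by simp [lx, rr]
  rw [h3, h4]
  have h5 := h.w6 a a'
  unfold Commute SemiconjBy at h5 ⊢
  calc q * ι a * q⁻¹ * (q * (g1⁻¹ * ι a' * g1) * q⁻¹) = q * (ι a * (g1⁻¹ * ι a' * g1)) * q⁻¹ := by group
    _ = q * (g1⁻¹ * ι a' * g1 * ι a) * q⁻¹ := by rw [h5]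
    _ = _ := by group

end Pool.Agent.Helper27.SX
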