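import Pool.Agent.Helper27.SX.Defs

/-!
# SX-AV: averages over lists (MP_a16d94_pr)

`av n F` is the average of `F` over the lists of length `n`, defined by recursion (cons). PROOFS. All by induction on `n` generalizing the functions; `av_succ` is `rfl`. `av_eq_sum`: `Fin.consEquiv` / `Fin.consPiProd` / `Fin.cons_sum`-type lemma (`Fintype.sum_equiv (Fin.consEquiv ..)`, `Fintype.sum_prod_type`), `List.ofFn_succ`.
`speed_eq`: `av_eq_sum` and `List.map_ofFn`.
-/

set_option autoImplicit false

namespace Pool.Agent.Helper27.SX

section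
variable {Ω Ω' : Type} [Fintype Ω] [Fintype Ω'] (n m : ℕ) (F G : List Ω → ℝ) (c : ℝ)

theorem av_zero : av 0 F = F [] := rfl

theorem av_succ : av (n + 1) F = (∑ ω, av n (fun L => F (ω :: L))) / (Fintype.card Ω : ℝ) := rfl

theorem av_add : av n (fun L => F L + G L) = av n F + av n G := by
  induction n generalizing F G with
  | zero => rfl
  | succ n ih =>
    simp only [av_succ]
    rw [← add_div, ← Finset.sum_add_distrib]
    congr 1
    apply Finset.sum_congr rfl
    intro ω _
    exact ih (fun L => F (ω :: L)) (fun L => G (ω :: L))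

theorem av_mul : av n (fun L => c * F L) = c * av n F := by
  induction n generalizing F with
  | zero => rfl
  | succ n ih =>
    simp only [av_succ]
    rw [← mul_div_assoc, Finset.mul_sum]
    congr 1
    apply Finset.sum_congr rfl
    intro ω _
    exact ih (fun L => F (ω :: L))

theorem av_sub : av n (fun L => F L - G L) = av n F - av n G := by
  have h1 : (fun L => F L - G L) = fun L => F L + (-1) * G L := by
    funext L
    ring
  rw [h1, av_add, av_mul]
  ring

theorem av_sum {ι : Type*} (s : Finset ι) (H : ι → List Ω → ℝ) : av n (fun L => ∑ i ∈ s, H i L) = ∑ i ∈ s, av n (H i) := by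
  classical
  induction s using Finset.induction_on with
  | empty =>
    simp only [Finset.sum_empty]
    have h1 := av_mul n (fun _ : List Ω => (0 : ℝ)) 0
    simpa using h1
  | insert a s ha ih =>
    simp only [Finset.sum_insert ha]
    rw [av_add, ih]

theorem av_congr (h : ∀ L : List Ω, L.length = n → F L = G L) : av n F = av n G := by
  induction n generalizing F G with
  | zero => exact h [] rfl
  | succ n ih =>
    simp only [av_succ]
    congr 1
    apply Finset.sum_congr rfl
    intro ω _
    exact ih (fun L => F (ω :: L)) (fun L => G (ω :: L)) fun L hL => h (ω :: L) (by simp [hL])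

theorem av_mono (h : ∀ L : List Ω, L.length = n → F L ≤ G L) : av n F ≤ av n G := by
  induction n generalizing F G with
  | zero => exact h [] rfl
  | succ n ih =>
    simp only [av_succ]
    apply div_le_div_of_nonneg_right _ (Nat.cast_nonneg _)
    apply Finset.sum_le_sum
    intro ω _
    exact ih (fun L => F (ω :: L)) (fun L => G (ω :: L)) fun L hL => h (ω :: L) (by simp [hL])

theorem av_nonneg (h : ∀ L : List Ω, L.length = n → 0 ≤ F L) : 0 ≤ av n F := by
  have h0 : av n (fun _ : List Ω => (0 : ℝ)) = 0 := by
    have h1 := av_mul n (fun _ : List Ω => (0 : ℝ)) 0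
    simpa using h1
  rw [← h0]
  exact av_mono n _ _ h

theorem av_const [Nonempty Ω] : av n (fun _ : List Ω => c) = c := by
  induction n with
  | zero => rfl
  | succ n ih =>
    rw [av_succ, ih, Finset.sum_const, Finset.card_univ, nsmul_eq_mul, mul_div_cancel_left₀]
    exact_mod_cast Fintype.card_ne_zero

theorem av_comm (H : List Ω → List Ω' → ℝ) : av n (fun L => av m (H L)) = av m (fun L' => av n (fun L => H L L')) := by
  induction n generalizing H with
  | zero => rfl
  | succ n ih =>
    simp only [av_succ]
    have h1 : (fun L' : List Ω' => (∑ ω, av n (fun L => H (ω :: L) L')) / (Fintype.card Ω : ℝ)) =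
        fun L' => (Fintype.card Ω : ℝ)⁻¹ * ∑ ω, av n (fun L => H (ω :: L) L') := by
      funext L'
      rw [div_eq_inv_mul]
    rw [h1, av_mul, av_sum, div_eq_inv_mul]
    congr 1
    apply Finset.sum_congr rfl
    intro ω _
    exact ih (fun L => H (ω :: L))

theorem av_eq_sum : av n F = (∑ w : Fin n → Ω, F (List.ofFn w)) / (Fintype.card Ω : ℝ) ^ n := by
  induction n generalizing F with
  | zero =>
    rw [pow_zero, div_one, Fintype.sum_unique]
    rfl
  | succ n ih =>
    rw [av_succ]
    simp only [ih]
    rw [← Finset.sum_div, div_div, ← pow_succ]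
    congr 1
    rw [← Fintype.sum_prod_type']
    apply Fintype.sum_equiv (Fin.consEquiv (fun _ : Fin (n + 1) => Ω))
    rintro ⟨ω, w⟩
    simp [List.ofFn_succ]

/-- Cauchy-Schwarz -/
theorem av_sq_le [Nonempty Ω] : (av n F) ^ 2 ≤ av n (fun L => F L ^ 2) := by
  have h1 : 0 ≤ av n (fun L => (F L - av n F) ^ 2) := av_nonneg n _ fun L _ => sq_nonneg _
  have h2 : (fun L : List Ω => (F L - av n F) ^ 2) =
      fun L => (F L ^ 2 + (-2 * av n F) * F L) + (av n F) ^ 2 := by
    funext L
    ring
  rw [h2, av_add, av_add, av_mul, av_const] at h1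
  nlinarith

end

theorem speed_eq {G : Type} [Group G] (R : RW G) (n : ℕ) :
    speed R n = av n (fun L : List R.Ω => (wl (Set.range R.s) (L.map R.s).prod : ℝ)) := by
  rw [av_eq_sum]
  unfold speed
  congr 1
  apply Finset.sum_congr rfl
  intro w _
  rw [List.map_ofFn]
  rfl

theorem speed_zero {G : Type} [Group G] (R : RW G) : speed R 0 = 0 := by
  rw [speed_eq, av_zero]
  have h1 : wl (Set.range R.s) ((([] : List R.Ω).map R.s).prod) = 0 := by
    apply Nat.le_zero.1
    exact Nat.sInf_le ⟨[], rfl, by simp, by simp⟩
  rw [h1, Nat.cast_zero]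

end Pool.Agent.Helper27.SX
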