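import Pool.Agent.Helper27.SX.Walk

/-!
# SX-B1: lower bound for the word length (MP_a16d94_pr)

PROOF. `low` by induction on `L`, generalizing `Y`. `[]`: `(1 : W A).left x = 1`, `wl_one`. `g :: L`, `g = stp R o`: if `o` is a lamp step, `(lamp a * w).left x = (if x = x0 then a else 1) * w.left x` (`SemidirectProduct.mul_left`, `Pi.mulSingle`) and
`wl (a * b) ≤ 1 + wl b` for `a ∈ range R.s` (`wl_le`, `Len.mul`, `Len.mem`, `R.len`), only the term `x0` changes. If `o` is a shift `h`: `(sft h * w).left x = w.left (h⁻¹ x)` (`mulAutArrow_apply_apply`), so the sum over `Y` is the sum over `Y.map h⁻¹` (`Finset.sum_map`). `low'`: `exists_len` (`stp_inv` shows that `range (stp R)` is symmetric,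
`closure_stp`, `pos_mem`) gives a list of length `≤ wl (pos R L)`.
-/

set_option autoImplicit false

namespace Pool.Agent.Helper27.SX

variable {A : Type} [Group A]

theorem lamp_left (a : A) (w : W A) (x : X) : (lamp a * w).left x = (if x = x0 then a else 1) * w.left x := by
  rw [SemidirectProduct.mul_left]
  have h1 : (lamp a : W A).right = 1 := rfl
  have h2 : (lamp a : W A).left = Pi.mulSingle x0 a := rfl
  rw [h1, h2, map_one]
  change (Pi.mulSingle x0 a : X → A) x * w.left x = _
  rw [Pi.mulSingle_apply]

theorem lamp_right (a : A) (w : W A) : (lamp a * w).right = w.right := by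
  rw [SemidirectProduct.mul_right]
  have h1 : (lamp a : W A).right = 1 := rfl
  rw [h1, one_mul]

theorem sft_left (h : Equiv.Perm X) (w : W A) (x : X) : (sft h * w).left x = w.left (h⁻¹ x) := by
  rw [SemidirectProduct.mul_left]
  have h1 : (sft h : W A).right = h := rfl
  have h2 : (sft h : W A).left = 1 := rfl
  rw [h1, h2, one_mul]
  rfl

theorem sft_right (h : Equiv.Perm X) (w : W A) : (sft h * w).right = h * w.right := by
  rw [SemidirectProduct.mul_right]
  rfl

theorem stp_symm (R : RW A) : ∀ g ∈ Set.range (stp R), g⁻¹ ∈ Set.range (stp R) := by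
  rintro _ ⟨o, rfl⟩
  exact ⟨_, stp_inv R o⟩

theorem low (R : RW A) (L : List (W A)) (hL : ∀ g ∈ L, g ∈ Set.range (stp R)) (Y : Finset X) :
    ∑ x ∈ Y, wl (Set.range R.s) (L.prod.left x) ≤ L.length := by
  induction L generalizing Y with
  | nil =>
    rw [List.prod_nil, List.length_nil]
    refine le_of_eq (Finset.sum_eq_zero fun x _ => ?_)
    exact wl_one
  | cons g L ih =>
    have ih' := ih (fun g hg => hL g (List.mem_cons_of_mem _ hg))
    obtain ⟨o, rfl⟩ := hL g List.mem_cons_self
    rw [List.prod_cons, List.length_cons]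
    unfold stp
    by_cases ho : o.2.2 = true
    · rw [if_pos ho]
      have h1 : ∀ x ∈ Y, wl (Set.range R.s) ((lamp (R.s o.1) * L.prod).left x) ≤
          wl (Set.range R.s) (L.prod.left x) + if x = x0 then 1 else 0 := by
        intro x _
        rw [lamp_left]
        by_cases hx : x = x0
        · rw [if_pos hx, if_pos hx, add_comm]
          exact wl_le ((Len.mem (Set.mem_range_self o.1)).mul (R.len _))
        · rw [if_neg hx, if_neg hx, one_mul, add_zero]
      refine (Finset.sum_le_sum h1).trans ?_
      rw [Finset.sum_add_distrib]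
      refine Nat.add_le_add (ih' Y) ?_
      rw [Finset.sum_ite_eq']
      split_ifs <;> omega
    · rw [if_neg ho]
      have h1 : ∑ x ∈ Y, wl (Set.range R.s) ((sft (T o.2.1) * L.prod).left x) =
          ∑ x ∈ Y.map (T o.2.1)⁻¹.toEmbedding, wl (Set.range R.s) (L.prod.left x) := by
        rw [Finset.sum_map]
        exact Finset.sum_congr rfl fun x _ => by rw [sft_left]; rfl
      rw [h1]
      exact (ih' _).trans (Nat.le_succ _)

theorem low' (R : RW A) (L : List (R.Ω × St × Bool)) (Y : Finset X) :
    ∑ x ∈ Y, wl (Set.range R.s) ((pos R L).left x) ≤ wl (Set.range (stp R)) (pos R L) := by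
  have h := exists_len (stp_symm R) (g := pos R L) (by rw [closure_stp]; exact pos_mem R L)
  obtain ⟨l, hl, hs, hp⟩ := h
  have h2 := low R l hs Y
  rw [hp] at h2
  exact h2.trans hl

end Pool.Agent.Helper27.SX
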