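import Pool.Agent.Helper27.SX.B2a

/-!
# SX-B2: sorting (MP_a16d94_pr)

PROOF. Induction on `k`, for all `σ`. `k = 0`: `σ` moves at most the point `(0, 0)`, so `σ = 1`. `k + 1`: `N = 2 ^ (k + 1)`, `f i = decide ((σ (0, i)).2 < 2 ^ k)`; `σ` permutes the points `(0, i)`, `i < N` (a point and its image under `σ` are both moved or equal), so the number of `i < N` with `f i` is `2 ^ k`. `w` from `wf`:
`w` maps the set `{(0, i) | i < N, f i}` injectively, hence bijectively, to `{(0, i) | i < 2 ^ k}`, so `ρ = σ * w⁻¹` maps the lower half `{(0, i) | i < 2 ^ k}` to itself (finite set, so bijectively), and the rest `{(0, i) | 2 ^ k ≤ i < N}` to itself and fixes all other points.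
`ρ = α * β` with `α` = `ρ` on the lower half and the identity outside (`Equiv.Perm.ofSubtype`, `Equiv.Perm.subtypePerm`, or `if`), `β = α⁻¹ * ρ` supported in the rest. `α` has length `≤ 3 * k * 2 ^ k`; `G1 ^ (2 ^ k) * β * (G1 ^ (2 ^ k))⁻¹` is supported in the lower half (`G1_pow`), so `β` has length `≤ 3 * k * 2 ^ k + 2 * 2 ^ k`.
Total: `σ = α * β * w`: `2 * (3 * k * 2 ^ k) + 2 * 2 ^ k + 2 * 2 ^ (k + 1) = 3 * (k + 1) * 2 ^ (k + 1)`.
-/

set_option autoImplicit false

namespace Pool.Agent.Helper27.SX

private theorem sort_zero (σ : Equiv.Perm X) (hσ : ∀ x, σ x ≠ x → x.1 = 0 ∧ x.2 < 1) : σ = 1 := by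
  ext1 x
  by_contra h
  have hx : σ x ≠ x := h
  have hy : σ (σ x) ≠ σ x := fun h' => hx (σ.injective h')
  have h1 := hσ x hx
  have h2 := hσ (σ x) hy
  apply hx
  exact Prod.ext (h2.1.trans h1.1.symm) (by omega)

theorem sort (k : ℕ) (σ : Equiv.Perm X) (hσ : ∀ x, σ x ≠ x → x.1 = 0 ∧ x.2 < 2 ^ k) : Len (Set.range T) σ (3 * k * 2 ^ k) := by
  induction k generalizing σ with
  | zero =>
    rw [sort_zero σ (by simpa using hσ)]
    exact Len.one.mono (by omega)
  | succ k ih =>
    set M : ℕ := 2 ^ k with hM
    have hN : 2 ^ (k + 1) = 2 * M := by rw [hM, pow_succ]; ring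
    rw [hN] at hσ ⊢
    -- `σ` permutes the points `(0, i)`, `i < 2 M`
    have hσ0 : ∀ i, i < 2 * M → (σ (0, i)).1 = 0 ∧ (σ (0, i)).2 < 2 * M := by
      intro i hi
      by_cases h : σ (0, i) = (0, i)
      · rw [h]
        exact ⟨rfl, hi⟩
      · exact hσ (σ (0, i)) fun h' => h (σ.injective h')
    set s : ℕ → ℕ := fun i => (σ (0, i)).2 with hs
    have hsσ : ∀ i, i < 2 * M → σ (0, i) = (0, s i) := fun i hi => Prod.ext (hσ0 i hi).1 rfl
    have hinj : Set.InjOn s (Finset.range (2 * M) : Finset ℕ) := by
      intro i hi j hj hij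
      have hi' : i < 2 * M := by simpa using hi
      have hj' : j < 2 * M := by simpa using hj
      have h : σ (0, i) = σ (0, j) := by rw [hsσ i hi', hsσ j hj', hij]
      have := σ.injective h
      exact (Prod.ext_iff.1 this).2
    have himg : (Finset.range (2 * M)).image s = Finset.range (2 * M) := by
      refine Finset.eq_of_subset_of_card_le ?_ ?_
      · intro j hj
        obtain ⟨i, hi, rfl⟩ := Finset.mem_image.1 hj
        exact Finset.mem_range.2 (hσ0 i (Finset.mem_range.1 hi)).2
      · rw [Finset.card_image_of_injOn hinj]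
    set f : ℕ → Bool := fun i => decide (s i < M) with hf
    have hcard : ((Finset.range (2 * M)).filter fun i => f i = true).card = M := by
      have h1 : ((Finset.range (2 * M)).filter fun i => f i = true).image s = Finset.range M := by
        ext j
        simp only [Finset.mem_image, Finset.mem_filter, Finset.mem_range, hf, decide_eq_true_eq]
        constructor
        · rintro ⟨i, ⟨-, hi⟩, rfl⟩
          exact hi
        · intro hj
          have : j ∈ (Finset.range (2 * M)).image s := by
            rw [himg, Finset.mem_range]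
            omega
          obtain ⟨i, hi, hij⟩ := Finset.mem_image.1 this
          exact ⟨i, ⟨Finset.mem_range.1 hi, by omega⟩, hij⟩
      have h2 : (((Finset.range (2 * M)).filter fun i => f i = true).image s).card =
          ((Finset.range (2 * M)).filter fun i => f i = true).card :=
        Finset.card_image_of_injOn (hinj.mono (by
          intro i hi
          exact (Finset.mem_filter.1 hi).1))
      rw [← h2, h1, Finset.card_range]
    obtain ⟨w, hwlen, hwfix, hwf⟩ := wf (2 * M) f
    rw [hcard] at hwf
    -- the lower half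
    set L : Finset X := (Finset.range M).image (fun i => ((0 : Fin 3), i)) with hL
    have hLm : ∀ x : X, x ∈ L ↔ x.1 = 0 ∧ x.2 < M := by
      intro x
      simp only [hL, Finset.mem_image, Finset.mem_range]
      constructor
      · rintro ⟨i, hi, rfl⟩
        exact ⟨rfl, hi⟩
      · rintro ⟨h1, h2⟩
        exact ⟨x.2, h2, Prod.ext h1.symm rfl⟩
    have hLc : L.card = M := by
      rw [hL, Finset.card_image_of_injective _ (fun a b h => (Prod.ext_iff.1 h).2), Finset.card_range]
    set F : Finset X := ((Finset.range (2 * M)).filter fun i => f i = true).image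
      (fun i => ((0 : Fin 3), i)) with hF
    have hFc : F.card = M := by
      rw [hF, Finset.card_image_of_injective _ (fun a b h => (Prod.ext_iff.1 h).2), hcard]
    have hwF : F.image w = L := by
      refine Finset.eq_of_subset_of_card_le ?_ ?_
      · intro y hy
        obtain ⟨x, hx, rfl⟩ := Finset.mem_image.1 hy
        obtain ⟨i, hi, rfl⟩ := Finset.mem_image.1 hx
        rw [Finset.mem_filter, Finset.mem_range] at hi
        exact (hLm _).2 (hwf i hi.1 hi.2)
      · rw [Finset.card_image_of_injective _ w.injective, hFc, hLc]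
    set ρ : Equiv.Perm X := σ * w⁻¹ with hρ
    have hρL : ∀ x ∈ L, ρ x ∈ L := by
      intro x hx
      rw [← hwF] at hx
      obtain ⟨y, hy, rfl⟩ := Finset.mem_image.1 hx
      obtain ⟨i, hi, rfl⟩ := Finset.mem_image.1 hy
      rw [Finset.mem_filter, Finset.mem_range] at hi
      have e : ρ (w (0, i)) = σ (0, i) := by
        rw [hρ, Equiv.Perm.mul_apply]; simp
      rw [e, hLm, hsσ i hi.1]
      refine ⟨rfl, ?_⟩
      have := hi.2
      simpa [hf] using this
    have hρimg : L.image ρ = L := by
      refine Finset.eq_of_subset_of_card_le ?_ ?_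
      · intro y hy
        obtain ⟨x, hx, rfl⟩ := Finset.mem_image.1 hy
        exact hρL x hx
      · rw [Finset.card_image_of_injective _ ρ.injective]
    have hρiff : ∀ x, ρ x ∈ L ↔ x ∈ L := by
      intro x
      refine ⟨fun h => ?_, hρL x⟩
      rw [← hρimg] at h
      obtain ⟨z, hz, hzx⟩ := Finset.mem_image.1 h
      rwa [← ρ.injective hzx]
    have hρfix : ∀ x, ρ x ≠ x → x.1 = 0 ∧ x.2 < 2 * M := by
      intro x hx
      by_contra hcon
      apply hx
      have h1 : w x = x := by
        by_contra h
        exact hcon (hwfix x h)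
      have h2 : σ x = x := by
        by_contra h
        exact hcon (hσ x h)
      have h3 : w⁻¹ x = x := by
        rw [Equiv.Perm.inv_eq_iff_eq]
        exact h1.symm
      rw [hρ, Equiv.Perm.mul_apply, h3, h2]
    classical
    set α : Equiv.Perm X := Equiv.Perm.ofSubtype (ρ.subtypePerm (p := fun x => x ∈ L) hρiff) with hα
    have hα1 : ∀ x, x ∈ L → α x = ρ x := by
      intro x hx
      rw [hα, Equiv.Perm.ofSubtype_apply_of_mem _ hx]
      rfl
    have hα2 : ∀ x, x ∉ L → α x = x := fun x hx => Equiv.Perm.ofSubtype_apply_of_not_mem _ hx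
    set β : Equiv.Perm X := α⁻¹ * ρ with hβ
    have hβ1 : ∀ x, x ∈ L → β x = x := by
      intro x hx
      rw [hβ, Equiv.Perm.mul_apply, Equiv.Perm.inv_eq_iff_eq]
      exact (hα1 x hx).symm
    have hβ2 : ∀ x, x ∉ L → β x = ρ x := by
      intro x hx
      rw [hβ, Equiv.Perm.mul_apply, Equiv.Perm.inv_eq_iff_eq]
      exact (hα2 _ (fun h => hx ((hρiff x).1 h))).symm
    have hβ3 : ∀ x, β x ≠ x → x.1 = 0 ∧ M ≤ x.2 ∧ x.2 < 2 * M := by
      intro x hx
      have hxL : x ∉ L := fun h => hx (hβ1 x h)
      rw [hβ2 x hxL] at hx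
      have h := hρfix x hx
      refine ⟨h.1, ?_, h.2⟩
      by_contra hlt
      exact hxL ((hLm x).2 ⟨h.1, by omega⟩)
    have lenα : Len (Set.range T) α (3 * k * M) := by
      refine ih α fun x hx => ?_
      by_contra h
      exact hx (hα2 x fun h' => h ((hLm x).1 h'))
    set γ : Equiv.Perm X := G1 ^ M * β * (G1 ^ M)⁻¹ with hγ
    have lenγ : Len (Set.range T) γ (3 * k * M) := by
      refine ih γ fun y hy => ?_
      set x := (G1 ^ M)⁻¹ y with hx
      have e : y = (G1 ^ M) x := by rw [hx]; simp
      have hβx : β x ≠ x := by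
        intro h
        apply hy
        rw [hγ, Equiv.Perm.mul_apply, Equiv.Perm.mul_apply, ← hx, h, ← e]
      obtain ⟨h1, h2, h3⟩ := hβ3 x hβx
      have e2 : x = (0, x.2) := Prod.ext h1 rfl
      have e3 := (G1_pow M x.2).1
      rw [← e2, if_pos h2] at e3
      rw [e, e3]
      exact ⟨rfl, by simp only; omega⟩
    have lenG : Len (Set.range T) (G1 ^ M) M := (len_G1.pow M).mono (by omega)
    have lenβ : Len (Set.range T) β (M + 3 * k * M + M) := by
      have e : β = (G1 ^ M)⁻¹ * γ * G1 ^ M := by
        rw [hγ]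
        group
      rw [e]
      exact ((lenG.inv range_T_symm).mul lenγ).mul lenG
    have e : σ = α * β * w := by
      rw [hβ, hρ]
      group
    rw [e]
    refine ((lenα.mul lenβ).mul hwlen).mono ?_
    nlinarith

end Pool.Agent.Helper27.SX
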