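import Pool.Agent.Helper27.SX.Len

/-!
# SX-B2a: sorting by two stacks (MP_a16d94_pr)

`G1` shifts ray 0 inwards and ray 1 outwards (`G1 (0, m+1) = (0, m)`, `G1 (0, 0) = (1, 0)`, `G1 (1, m) = (1, m+1)`, `G1 (2, m) = (2, m)`), `G2` the same with ray 2.

PROOF. `T_gf1`, `T_gf2`: `rfl`-type. `G1_pow`: induction on `n`. `wf`: `g i = if f i then G1 else G2`, `u 0 = 1`, `u (k+1) = g k * u k`, `n1 k`, `n2 k` = the number of `i < k` with `f i = true`, `false`. By induction on `k`: `u k (0, m) = (0, m - k)` for `m ≥ k`; `u k (0, m) = (1, number of i with m < i < k, f i = true)` for `m < k`, `f m = true`;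
`= (2, number of i with m < i < k, f i = false)` for `m < k`, `f m = false`; `u k (1, m) = (1, m + n1 k)`, `u k (2, m) = (2, m + n2 k)`. Take `w = (G2 ^ n2 * G1 ^ n1)⁻¹ * u N`, `n1 = n1 N`, `n2 = n2 N = N - n1`: a word of length `2 * N` (the inverses of the shifts are shifts). `w x = y` iff `u N x = G2 ^ n2 (G1 ^ n1 y)`; check with `G1_pow`, `G2_pow`:
`w (1, m) = (1, m)`, `w (2, m) = (2, m)`, `w (0, m) = (0, m)` for `m ≥ N`, `w (0, m) = (0, n1 - 1 - c)` for `m < N`, `f m = true`, `u N (0, m) = (1, c)`, `c < n1`.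
-/

set_option autoImplicit false

namespace Pool.Agent.Helper27.SX

private lemma G1_zero68 : G1 (0, 0) = ((1, 0) : X) := rfl

private lemma G1_succ68 (m : ℕ) : G1 (0, m + 1) = ((0, m) : X) := rfl

private lemma G1_one68 (m : ℕ) : G1 (1, m) = ((1, m + 1) : X) := rfl

private lemma G1_two68 (m : ℕ) : G1 (2, m) = ((2, m) : X) := rfl

private lemma G2_zero68 : G2 (0, 0) = ((2, 0) : X) := rfl

private lemma G2_succ68 (m : ℕ) : G2 (0, m + 1) = ((0, m) : X) := rfl

private lemma G2_one68 (m : ℕ) : G2 (1, m) = ((1, m) : X) := rfl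

private lemma G2_two68 (m : ℕ) : G2 (2, m) = ((2, m + 1) : X) := rfl

theorem G1_pow (n m : ℕ) : (G1 ^ n) (0, m) = (if n ≤ m then ((0, m - n) : X) else (1, n - 1 - m)) ∧ (G1 ^ n) (1, m) = (1, m + n) ∧
    (G1 ^ n) (2, m) = (2, m) := by
  induction n with
  | zero => simp
  | succ n ih =>
    obtain ⟨h1, h2, h3⟩ := ih
    refine ⟨?_, ?_, ?_⟩
    · rw [pow_succ', Equiv.Perm.mul_apply, h1]
      by_cases h : n ≤ m
      · rw [if_pos h]
        rcases Nat.eq_zero_or_pos (m - n) with h4 | h4
        · rw [h4, G1_zero68, if_neg (by omega)]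
          congr 1
          omega
        · obtain ⟨k, hk⟩ := Nat.exists_eq_succ_of_ne_zero h4.ne'
          rw [hk, Nat.succ_eq_add_one, G1_succ68, if_pos (by omega)]
          congr 1
          omega
      · rw [if_neg h, G1_one68, if_neg (by omega)]
        congr 1
        omega
    · rw [pow_succ', Equiv.Perm.mul_apply, h2, G1_one68]
      rfl
    · rw [pow_succ', Equiv.Perm.mul_apply, h3, G1_two68]

theorem G2_pow (n m : ℕ) : (G2 ^ n) (0, m) = (if n ≤ m then ((0, m - n) : X) else (2, n - 1 - m)) ∧ (G2 ^ n) (2, m) = (2, m + n) ∧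
    (G2 ^ n) (1, m) = (1, m) := by
  induction n with
  | zero => simp
  | succ n ih =>
    obtain ⟨h1, h2, h3⟩ := ih
    refine ⟨?_, ?_, ?_⟩
    · rw [pow_succ', Equiv.Perm.mul_apply, h1]
      by_cases h : n ≤ m
      · rw [if_pos h]
        rcases Nat.eq_zero_or_pos (m - n) with h4 | h4
        · rw [h4, G2_zero68, if_neg (by omega)]
          congr 1
          omega
        · obtain ⟨k, hk⟩ := Nat.exists_eq_succ_of_ne_zero h4.ne'
          rw [hk, Nat.succ_eq_add_one, G2_succ68, if_pos (by omega)]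
          congr 1
          omega
      · rw [if_neg h, G2_two68, if_neg (by omega)]
        congr 1
        omega
    · rw [pow_succ', Equiv.Perm.mul_apply, h2, G2_two68]
      rfl
    · rw [pow_succ', Equiv.Perm.mul_apply, h3, G2_one68]

theorem len_G1 : Len (Set.range T) G1 1 := Len.mem ⟨_, rfl⟩

theorem len_G2 : Len (Set.range T) G2 1 := Len.mem ⟨_, rfl⟩

theorem range_T_symm : ∀ g ∈ Set.range T, g⁻¹ ∈ Set.range T := by
  rintro _ ⟨p, rfl⟩
  exact ⟨inv p, Equiv.ext fun x => rfl⟩

private def u68 (f : ℕ → Bool) : ℕ → Equiv.Perm X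
  | 0 => 1
  | k + 1 => (if f k = true then G1 else G2) * u68 f k

private lemma len_u68 (f : ℕ → Bool) (k : ℕ) : Len (Set.range T) (u68 f k) k := by
  induction k with
  | zero => exact Len.one
  | succ k ih =>
    have h1 : Len (Set.range T) (if f k = true then G1 else G2) 1 := by
      split_ifs
      · exact len_G1
      · exact len_G2
    have h2 := h1.mul ih
    rw [add_comm 1 k] at h2
    exact h2

/-- the number of `i < k` with `m ≤ i` and `f i = b` -/
private def c68 (f : ℕ → Bool) (b : Bool) (m k : ℕ) : ℕ :=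
  ((Finset.range k).filter fun i => m ≤ i ∧ f i = b).card

private lemma c68_succ (f : ℕ → Bool) (b : Bool) (m k : ℕ) :
    c68 f b m (k + 1) = c68 f b m k + if m ≤ k ∧ f k = b then 1 else 0 := by
  unfold c68
  rw [Finset.range_add_one, Finset.filter_insert]
  split_ifs with h
  · rw [Finset.card_insert_of_notMem (by simp)]
  · rfl

private lemma c68_zero (f : ℕ → Bool) (b : Bool) (m : ℕ) {k : ℕ} (h : k ≤ m) : c68 f b m k = 0 := by
  unfold c68
  rw [Finset.card_eq_zero, Finset.filter_eq_empty_iff]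
  intro i hi h1
  have := Finset.mem_range.1 hi
  omega

private lemma c68_lt (f : ℕ → Bool) (b : Bool) {m k : ℕ} (hm : m < k) (hf : f m = b) :
    c68 f b (m + 1) k < c68 f b 0 k := by
  unfold c68
  apply Finset.card_lt_card
  rw [Finset.ssubset_iff_of_subset]
  · exact ⟨m, by simp [hm, hf], by simp⟩
  · intro i hi
    rw [Finset.mem_filter] at hi ⊢
    exact ⟨hi.1, Nat.zero_le _, hi.2.2⟩

private lemma c68_add (f : ℕ → Bool) (k : ℕ) : c68 f true 0 k + c68 f false 0 k = k := by
  induction k with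
  | zero => rfl
  | succ k ih =>
    rw [c68_succ, c68_succ]
    cases hk : f k <;> simp <;> omega

private lemma u68_spec (f : ℕ → Bool) (k : ℕ) :
    (∀ m, k ≤ m → u68 f k (0, m) = (0, m - k)) ∧
    (∀ m, m < k → f m = true → u68 f k (0, m) = (1, c68 f true (m + 1) k)) ∧
    (∀ m, m < k → f m = false → u68 f k (0, m) = (2, c68 f false (m + 1) k)) ∧
    (∀ m, u68 f k (1, m) = (1, m + c68 f true 0 k)) ∧
    (∀ m, u68 f k (2, m) = (2, m + c68 f false 0 k)) := by
  induction k with
  | zero =>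
    refine ⟨fun m _ => rfl, fun m h => absurd h (by omega), fun m h => absurd h (by omega),
      fun m => ?_, fun m => ?_⟩
    · rw [c68_zero _ _ _ le_rfl]; rfl
    · rw [c68_zero _ _ _ le_rfl]; rfl
  | succ k ih =>
    obtain ⟨h1, h2, h3, h4, h5⟩ := ih
    have hu : ∀ x, u68 f (k + 1) x = (if f k = true then G1 else G2) (u68 f k x) := fun x => rfl
    refine ⟨fun m hm => ?_, fun m hm hf => ?_, fun m hm hf => ?_, fun m => ?_, fun m => ?_⟩
    · rw [hu, h1 m (by omega)]
      obtain ⟨l, hl⟩ : ∃ l, m - k = l + 1 := ⟨m - k - 1, by omega⟩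
      have : m - (k + 1) = l := by omega
      rw [hl, this]
      split_ifs
      · exact G1_succ68 l
      · exact G2_succ68 l
    · rw [hu]
      rcases Nat.lt_succ_iff_lt_or_eq.1 hm with h | h
      · rw [h2 m h hf, c68_succ]
        cases hk : f k
        · simp [G2_one68]
        · simp only [if_true, G1_one68, and_true]
          rw [if_pos (by omega)]
      · subst h
        rw [h1 m le_rfl, Nat.sub_self, if_pos hf, G1_zero68, c68_zero _ _ _ le_rfl]
    · rw [hu]
      rcases Nat.lt_succ_iff_lt_or_eq.1 hm with h | h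
      · rw [h3 m h hf, c68_succ]
        cases hk : f k
        · simp only [Bool.false_eq_true, if_false, G2_two68, and_true]
          rw [if_pos (by omega)]
        · simp [G1_two68]
      · subst h
        rw [h1 m le_rfl, Nat.sub_self, if_neg (by rw [hf]; decide), G2_zero68,
          c68_zero _ _ _ le_rfl]
    · rw [hu, h4, c68_succ]
      cases hk : f k
      · simp [G2_one68]
      · simp [G1_one68, add_assoc]
    · rw [hu, h5, c68_succ]
      cases hk : f k
      · simp [G2_two68, add_assoc]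
      · simp [G1_two68]

theorem wf (N : ℕ) (f : ℕ → Bool) : ∃ w : Equiv.Perm X, Len (Set.range T) w (2 * N) ∧ (∀ x, w x ≠ x → x.1 = 0 ∧ x.2 < N) ∧
    ∀ i < N, f i = true → (w (0, i)).1 = 0 ∧ (w (0, i)).2 < ((Finset.range N).filter fun i => f i = true).card := by
  obtain ⟨h1, h2, -, h4, h5⟩ := u68_spec f N
  have hadd := c68_add f N
  set n1 := c68 f true 0 N with hn1
  set n2 := c68 f false 0 N with hn2
  have hn : ((Finset.range N).filter fun i => f i = true).card = n1 := by
    rw [hn1, c68]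
    congr 1
    ext i
    simp
  rw [hn]
  have hw : ∀ x y, ((G2 ^ n2 * G1 ^ n1)⁻¹ * u68 f N) x = y ↔ u68 f N x = (G2 ^ n2) ((G1 ^ n1) y) := by
    intro x y
    rw [Equiv.Perm.mul_apply, Equiv.Perm.inv_eq_iff_eq, Equiv.Perm.mul_apply]
  refine ⟨(G2 ^ n2 * G1 ^ n1)⁻¹ * u68 f N, ?_, ?_, ?_⟩
  · have h6 : Len (Set.range T) ((G2 ^ n2 * G1 ^ n1)⁻¹) (n2 * 1 + n1 * 1) :=
      ((len_G2.pow n2).mul (len_G1.pow n1)).inv range_T_symm
    exact (h6.mul (len_u68 f N)).mono (by omega)
  · rintro ⟨k, m⟩ hx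
    by_contra hc
    apply hx
    rw [hw]
    match k with
    | 0 =>
      have hm : N ≤ m := by
        by_contra h
        exact hc ⟨rfl, by omega⟩
      rw [h1 m hm, (G1_pow n1 m).1, if_pos (by omega), (G2_pow n2 _).1, if_pos (by omega)]
      congr 1
      omega
    | 1 => rw [h4, (G1_pow n1 m).2.1, (G2_pow n2 _).2.2]
    | 2 => rw [h5, (G1_pow n1 m).2.2, (G2_pow n2 _).2.1]
  · intro i hi hf
    have hc := c68_lt f true hi hf
    rw [← hn1] at hc
    have h7 : ((G2 ^ n2 * G1 ^ n1)⁻¹ * u68 f N) (0, i) = (0, n1 - 1 - c68 f true (i + 1) N) := by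
      rw [hw, h2 i hi hf, (G1_pow n1 _).1, if_neg (by omega), (G2_pow n2 _).2.2]
      congr 1
      omega
    rw [h7]
    exact ⟨rfl, by show n1 - 1 - _ < n1; omega⟩

end Pool.Agent.Helper27.SX
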