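import Pool.Agent.Helper27.SX.B2

/-!
# SX-B3: word length of a permutation which is a translation outside a ball (MP_a16d94_pr)

PROOF. `radb`: `τ = σ * (G1 ^ v 1 * G2 ^ v 2)⁻¹` (integer powers; their action far out on the rays from `G1_pow`, `G2_pow` and the inverses): `(G1 ^ v 1 * G2 ^ v 2)⁻¹ = G2 ^ (-v 2) * G1 ^ (-v 1)` maps `(1, m)` to `(1, m - v 1)`, `(2, m)` to `(2, m - v 2)`, `(0, m)` to `(0, m + v 1 + v 2) = (0, m - v 0)` for `m ≥ 2 * M`, and `m - v j ≥ M`,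
so `τ` fixes the points `(j, m)` with `m ≥ 3 * M`. `u = (G1 ^ (3 * M) * G2 ^ (3 * M))⁻¹` maps the points `(j, m)`, `m < 3 * M`, to points `(0, i)`, `i < 9 * M` (`(1, m) ↦ (0, 3 M - 1 - m) ↦ (0, 6 M - 1 - m)`, `(2, m) ↦ (0, 3 M - 1 - m)`, `(0, m) ↦ (0, m + 6 M)`), so `u * τ * u⁻¹` is as in `sort`.
Length: `3 * k * 2 ^ k + 2 * (6 * M) + 2 * M`.
`radb_real`: `k` minimal with `9 * M ≤ 2 ^ k` (`Nat.find`): `k = 0` or `2 ^ k < 18 * M`; `k < 2 * 2 ^ (k / 2 : ℝ)` (from `x < 2 ^ x`), so `3 k 2 ^ k ≤ 6 (2 ^ k) ^ (3 / 2) ≤ 6 * (18 M) ^ (3 / 2)`; `C = 1000` is enough.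
-/

set_option autoImplicit false

namespace Pool.Agent.Helper27.SX

theorem b3_G1z (v : ℤ) (m : ℕ) (h : |v| ≤ m) : (G1 ^ v) (0, m) = (0, (m - v).toNat) ∧ (G1 ^ v) (1, m) = (1, (m + v).toNat) ∧
    (G1 ^ v) (2, m) = (2, m) := by
  rcases Int.eq_nat_or_neg v with ⟨n, rfl | rfl⟩
  · rw [Nat.abs_cast] at h
    obtain ⟨h1, h2, h3⟩ := G1_pow n m
    rw [zpow_natCast, h1, h2, h3, if_pos (by omega)]
    refine ⟨by congr 1; omega, by congr 1, rfl⟩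
  · rw [abs_neg, Nat.abs_cast] at h
    rw [zpow_neg, zpow_natCast]
    obtain ⟨h1, -, -⟩ := G1_pow n (m + n)
    obtain ⟨-, h2, -⟩ := G1_pow n (m - n)
    obtain ⟨-, -, h3⟩ := G1_pow n m
    rw [if_pos (by omega)] at h1
    refine ⟨?_, ?_, ?_⟩
    · rw [Equiv.Perm.inv_eq_iff_eq, show (((m : ℤ) - -(n : ℤ)).toNat) = m + n by omega, h1]
      congr 1
      omega
    · rw [Equiv.Perm.inv_eq_iff_eq, show (((m : ℤ) + -(n : ℤ)).toNat) = m - n by omega, h2]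
      congr 1
      omega
    · rw [Equiv.Perm.inv_eq_iff_eq, h3]

theorem b3_G2z (v : ℤ) (m : ℕ) (h : |v| ≤ m) : (G2 ^ v) (0, m) = (0, (m - v).toNat) ∧ (G2 ^ v) (2, m) = (2, (m + v).toNat) ∧
    (G2 ^ v) (1, m) = (1, m) := by
  rcases Int.eq_nat_or_neg v with ⟨n, rfl | rfl⟩
  · rw [Nat.abs_cast] at h
    obtain ⟨h1, h2, h3⟩ := G2_pow n m
    rw [zpow_natCast, h1, h2, h3, if_pos (by omega)]
    refine ⟨by congr 1; omega, by congr 1, rfl⟩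
  · rw [abs_neg, Nat.abs_cast] at h
    rw [zpow_neg, zpow_natCast]
    obtain ⟨h1, -, -⟩ := G2_pow n (m + n)
    obtain ⟨-, h2, -⟩ := G2_pow n (m - n)
    obtain ⟨-, -, h3⟩ := G2_pow n m
    rw [if_pos (by omega)] at h1
    refine ⟨?_, ?_, ?_⟩
    · rw [Equiv.Perm.inv_eq_iff_eq, show (((m : ℤ) - -(n : ℤ)).toNat) = m + n by omega, h1]
      congr 1
      omega
    · rw [Equiv.Perm.inv_eq_iff_eq, show (((m : ℤ) + -(n : ℤ)).toNat) = m - n by omega, h2]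
      congr 1
      omega
    · rw [Equiv.Perm.inv_eq_iff_eq, h3]

theorem b3_zpow {g : Equiv.Perm X} (hg : Len (Set.range T) g 1) (v : ℤ) : Len (Set.range T) (g ^ v) v.natAbs := by
  rcases Int.eq_nat_or_neg v with ⟨n, rfl | rfl⟩
  · rw [zpow_natCast, Int.natAbs_natCast]
    simpa using hg.pow n
  · rw [zpow_neg, zpow_natCast, Int.natAbs_neg, Int.natAbs_natCast]
    simpa using (hg.pow n).inv range_T_symm

theorem b3_u (M : ℕ) (x : X) (hx : x.2 < 3 * M) : ((G1 ^ (3 * M) * G2 ^ (3 * M))⁻¹ x).1 = 0 ∧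
    ((G1 ^ (3 * M) * G2 ^ (3 * M))⁻¹ x).2 < 9 * M := by
  obtain ⟨j, m⟩ := x
  simp only at hx
  have key : ∀ y : X, (G1 ^ (3 * M)) ((G2 ^ (3 * M)) y) = (j, m) → y.1 = 0 → y.2 < 9 * M →
      ((G1 ^ (3 * M) * G2 ^ (3 * M))⁻¹ (j, m)).1 = 0 ∧ ((G1 ^ (3 * M) * G2 ^ (3 * M))⁻¹ (j, m)).2 < 9 * M := by
    intro y h1 h2 h3
    have h4 : (G1 ^ (3 * M) * G2 ^ (3 * M))⁻¹ (j, m) = y := by
      rw [Equiv.Perm.inv_eq_iff_eq, Equiv.Perm.mul_apply, h1]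
    rw [h4]
    exact ⟨h2, h3⟩
  fin_cases j
  · refine key (0, m + 6 * M) ?_ rfl (by simp only; omega)
    rw [(G2_pow (3 * M) (m + 6 * M)).1, if_pos (by omega), (G1_pow (3 * M) _).1, if_pos (by omega)]
    congr 1
    omega
  · refine key (0, 6 * M - 1 - m) ?_ rfl (by simp only; omega)
    rw [(G2_pow (3 * M) _).1, if_pos (by omega), (G1_pow (3 * M) _).1, if_neg (by omega)]
    congr 1
    omega
  · refine key (0, 3 * M - 1 - m) ?_ rfl (by simp only; omega)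
    rw [(G2_pow (3 * M) _).1, if_neg (by omega), (G1_pow (3 * M) _).2.2]
    congr 1
    omega

theorem radb (M : ℕ) (σ : Equiv.Perm X) (v : Fin 3 → ℤ) (hv : ∀ j, |v j| ≤ M) (hs : ∑ j, v j = 0)
    (far : ∀ j (m : ℕ), M ≤ m → (σ (j, m)).1 = j ∧ ((σ (j, m)).2 : ℤ) = m + v j) (k : ℕ) (hk : 9 * M ≤ 2 ^ k) :
    Len (Set.range T) σ (3 * k * 2 ^ k + 14 * M) := by
  set u : Equiv.Perm X := (G1 ^ (3 * M) * G2 ^ (3 * M))⁻¹ with hu
  set τ : Equiv.Perm X := σ * (G2 ^ (-v 2) * G1 ^ (-v 1)) with hτ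
  have hv0 := hv 0
  have hv1 := hv 1
  have hv2 := hv 2
  rw [Fin.sum_univ_three] at hs
  have e1 : ∀ (j : Fin 3) (m m1 m2 : ℕ), (G1 ^ (-v 1)) (j, m) = (j, m1) → (G2 ^ (-v 2)) (j, m1) = (j, m2) → M ≤ m2 → (m2 : ℤ) + v j = m →
      τ (j, m) = (j, m) := by
    intro j m m1 m2 h1 h2 h3 h4
    obtain ⟨h5, h6⟩ := far j m2 h3
    rw [hτ, Equiv.Perm.mul_apply, Equiv.Perm.mul_apply, h1, h2]
    refine Prod.ext h5 ?_
    simp only
    omega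
  have hfix : ∀ x : X, 3 * M ≤ x.2 → τ x = x := by
    rintro ⟨j, m⟩ hm
    simp only at hm
    rw [abs_le] at hv0 hv1 hv2
    have a1 := b3_G1z (-v 1) m (by rw [abs_neg, abs_le]; omega)
    fin_cases j
    · refine e1 0 m _ _ a1.1 (b3_G2z (-v 2) _ (by rw [abs_neg, abs_le]; omega)).1 ?_ ?_ <;> omega
    · refine e1 1 m _ _ a1.2.1 (b3_G2z (-v 2) _ (by rw [abs_neg, abs_le]; omega)).2.2 ?_ ?_ <;> omega
    · refine e1 2 m _ _ a1.2.2 (b3_G2z (-v 2) _ (by rw [abs_neg, abs_le]; omega)).2.1 ?_ ?_ <;> omega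
  have hsort : Len (Set.range T) (u * τ * u⁻¹) (3 * k * 2 ^ k) := by
    apply sort
    intro y hy
    have h1 : ¬ 3 * M ≤ (u⁻¹ y).2 := by
      intro h
      apply hy
      rw [Equiv.Perm.mul_apply, Equiv.Perm.mul_apply, hfix _ h]
      exact Equiv.apply_symm_apply _ _
    have h2 := b3_u M (u⁻¹ y) (by omega)
    rw [← hu, show u (u⁻¹ y) = y from Equiv.apply_symm_apply _ _] at h2
    exact ⟨h2.1, lt_of_lt_of_le h2.2 hk⟩
  have hlu : Len (Set.range T) u (3 * M * 1 + 3 * M * 1) := ((len_G1.pow (3 * M)).mul (len_G2.pow (3 * M))).inv range_T_symm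
  have hlu' := hlu.inv range_T_symm
  have h1 := (b3_zpow len_G2 (-v 2)).mul (b3_zpow len_G1 (-v 1))
  have h2 := ((hlu'.mul hsort).mul hlu).mul (h1.inv range_T_symm)
  have h3 : u⁻¹ * (u * τ * u⁻¹) * u * (G2 ^ (-v 2) * G1 ^ (-v 1))⁻¹ = σ := by
    rw [hτ]
    group
  rw [h3] at h2
  refine h2.mono ?_
  rw [abs_le] at hv1 hv2
  generalize 3 * k * 2 ^ k = K
  omega

theorem b3_sq (k : ℕ) : k ^ 2 ≤ 4 * 2 ^ k := by
  induction k with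
  | zero => norm_num
  | succ k ih =>
    rcases Nat.lt_or_ge k 3 with h | h
    · interval_cases k <;> norm_num
    · rw [pow_succ 2 k]
      nlinarith

theorem radb_real : ∃ C : ℝ, 0 < C ∧ ∀ M : ℕ, ∃ k : ℕ, 9 * M ≤ 2 ^ k ∧ ((3 * k * 2 ^ k + 14 * M : ℕ) : ℝ) ≤ C * ((M : ℝ) + 1) ^ (3 / 2 : ℝ) := by
  refine ⟨6 * (18 : ℝ) ^ (3 / 2 : ℝ) + 14, by positivity, fun M => ?_⟩
  have hex : ∃ k : ℕ, 9 * M ≤ 2 ^ k := ⟨9 * M, Nat.lt_two_pow_self.le⟩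
  have hM : (0 : ℝ) ≤ (M : ℝ) + 1 := by positivity
  have hM1 : (1 : ℝ) ≤ (M : ℝ) + 1 := by
    have : (0 : ℝ) ≤ M := Nat.cast_nonneg _
    linarith
  have h32 : (M : ℝ) + 1 ≤ ((M : ℝ) + 1) ^ (3 / 2 : ℝ) := by
    calc (M : ℝ) + 1 = ((M : ℝ) + 1) ^ (1 : ℝ) := (Real.rpow_one _).symm
      _ ≤ _ := Real.rpow_le_rpow_of_exponent_le hM1 (by norm_num)
  refine ⟨Nat.find hex, Nat.find_spec hex, ?_⟩
  set k := Nat.find hex with hk
  have h18 : ((2 : ℝ) ^ k) ≤ 18 * ((M : ℝ) + 1) := by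
    rcases Nat.eq_zero_or_pos k with h0 | h0
    · rw [h0]
      norm_num
      linarith
    · have h1 := Nat.find_min hex (m := k - 1) (by omega)
      have h2 : 2 ^ k = 2 * 2 ^ (k - 1) := by
        rw [← pow_succ']
        congr 1
        omega
      have h3 : 2 ^ k ≤ 18 * (M + 1) := by omega
      exact_mod_cast h3
  have hN : (0 : ℝ) ≤ (2 : ℝ) ^ k := by positivity
  have h5 : (k : ℝ) ≤ 2 * Real.sqrt ((2 : ℝ) ^ k) := by
    have h6 : ((k : ℝ)) ^ 2 ≤ 4 * (2 : ℝ) ^ k := by exact_mod_cast b3_sq k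
    apply le_of_sq_le_sq _ (by positivity)
    rw [mul_pow, Real.sq_sqrt hN]
    linarith
  have h7 : (2 : ℝ) ^ k * Real.sqrt ((2 : ℝ) ^ k) ≤ (18 : ℝ) ^ (3 / 2 : ℝ) * ((M : ℝ) + 1) ^ (3 / 2 : ℝ) := by
    rw [← Real.mul_rpow (by norm_num) hM]
    calc (2 : ℝ) ^ k * Real.sqrt ((2 : ℝ) ^ k) ≤ 18 * ((M : ℝ) + 1) * Real.sqrt (18 * ((M : ℝ) + 1)) :=
          mul_le_mul h18 (Real.sqrt_le_sqrt h18) (Real.sqrt_nonneg _) (by positivity)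
      _ = (18 * ((M : ℝ) + 1)) ^ (3 / 2 : ℝ) := by
          rw [Real.sqrt_eq_rpow, ← Real.rpow_one_add' (by positivity) (by norm_num)]
          norm_num
  push_cast
  have h8 : (k : ℝ) * (2 : ℝ) ^ k ≤ 2 * Real.sqrt ((2 : ℝ) ^ k) * (2 : ℝ) ^ k := mul_le_mul_of_nonneg_right h5 hN
  nlinarith

end Pool.Agent.Helper27.SX
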