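import Pool.Agent.Helper27.SX.Defs

/-!
# Project SX (MP_a16d94_pr): definitions for the probabilistic part
-/

set_option autoImplicit false

namespace Pool.Agent.Helper27.SX

/-- the points at distance less than `M` from the centre -/
def ball (M : ℕ) : Finset X := Finset.univ ×ˢ Finset.range M

lemma mem_ball {M : ℕ} {x : X} : x ∈ ball M ↔ x.2 < M := by
  simp [ball]

lemma card_ball (M : ℕ) : (ball M).card = 3 * M := by
  simp [ball]

/-- the current point: it starts at `x` and is moved by the inverse of each shift step -/
def cp {Ω : Type} : List (Ω × St × Bool) → X → X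
  | [], x => x
  | o :: L, x => if o.2.2 then cp L x else cp L ((T o.2.1)⁻¹ x)

end Pool.Agent.Helper27.SX
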