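import Pool.Agent.Helper27.SX.B1
import Pool.Agent.Helper27.SX.B2a
import Pool.Agent.Helper27.SX.Defs3

/-!
# SX-B4: depositing lamps (MP_a16d94_pr)

PROOF. `len_lamp`: a word for `a` in `range R.s` gives the word of lamps (`Len.map`, `stp R (ω, p, true) = lamp (R.s ω)`). `len_sft`: the same with `stp R (ω, p, false) = sft (T p)`. `sft σ * lamp a * (sft σ)⁻¹ = inl (Pi.mulSingle (σ x0) a)` (`ext`; `lamp_left`, `sft_left`). Telescoping: let `w (0) = 1`, `w (m + 1) = w m * lamp (f (0, m)) * sft G1⁻¹`
(length `≤ sum + m + 1`): by induction `w m * (sft G1) ^ m = inl (f restricted to the points (0, i), i < m)`, because `G1⁻¹ ^ m x0 = (0, m)`. So `inl (f restricted to (0, i), i < M)` has length `≤ ∑ wl (f (0, i)) + 2 * M`. Similarly rays 1 and 2 with `w (m + 1) = w m * sft G1 * lamp (f (1, m))` and `(sft G1)⁻¹ ^ m` at the end (`G1 ^ (m + 1) x0 = (1, m)`).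
`inl f` is the product of the three (disjoint supports; `inl` is a homomorphism). `∑ x ∈ ball M = ∑ j, ∑ i ∈ range M` (`Finset.sum_product`).
-/

set_option autoImplicit false

namespace Pool.Agent.Helper27.SX

variable {A : Type} [Group A]

theorem len_lamp (R : RW A) (a : A) : Len (Set.range (stp R)) (lamp a) (wl (Set.range R.s) a) := by
  refine Len.map lamp ?_ (R.len a)
  rintro _ ⟨ω, rfl⟩
  exact ⟨(ω, ⟨(1, 0), by decide⟩, true), rfl⟩

theorem len_sft (R : RW A) (σ : Equiv.Perm X) (n : ℕ) (h : Len (Set.range T) σ n) : Len (Set.range (stp R)) (sft σ) n := by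
  refine Len.map sft ?_ h
  rintro _ ⟨p, rfl⟩
  exact ⟨(Classical.arbitrary R.Ω, p, false), rfl⟩

/-- moving a lamp to another point -/
private theorem sft_lamp (σ : Equiv.Perm X) (a : A) :
    sft σ * lamp a = (SemidirectProduct.inl (Pi.mulSingle (σ x0) a : X → A) : W A) * sft σ := by
  apply SemidirectProduct.ext
  · funext x
    rw [sft_left]
    have h1 : (lamp a : W A).left = Pi.mulSingle x0 a := rfl
    have h2 : ((SemidirectProduct.inl (Pi.mulSingle (σ x0) a : X → A) : W A) * sft σ).left =
        (Pi.mulSingle (σ x0) a : X → A) := by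
      rw [SemidirectProduct.mul_left, SemidirectProduct.left_inl, SemidirectProduct.right_inl, map_one]
      show _ * (1 : X → A) = _
      rw [mul_one]
    rw [h1, h2, Pi.mulSingle_apply, Pi.mulSingle_apply]
    by_cases hx : x = σ x0
    · rw [if_pos hx, if_pos (by rw [hx]; exact σ.symm_apply_apply x0)]
    · rw [if_neg hx, if_neg]
      intro h3
      apply hx
      rw [← h3]
      exact (σ.apply_symm_apply x).symm
  · rw [sft_right, SemidirectProduct.mul_right, SemidirectProduct.right_inl, one_mul]
    show σ * 1 = σ
    rw [mul_one]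

open Classical in
/-- restriction of a lamp configuration to the first points of a sequence -/
private noncomputable def rs80 (p : ℕ → X) (f : X → A) (m : ℕ) : X → A :=
  fun x => if ∃ i < m, p i = x then f x else 1

/-- depositing lamps along an orbit -/
private theorem dep_orbit (R : RW A) (σ : Equiv.Perm X) (h1 : Len (Set.range T) σ 1) (h2 : Len (Set.range T) σ⁻¹ 1)
    (p : ℕ → X) (hp : ∀ i, (σ ^ i) x0 = p i) (hinj : Function.Injective p) (f : X → A) (N : ℕ)
    (hf : ∀ x, (∀ i < N, p i ≠ x) → f x = 1) :
    Len (Set.range (stp R)) (SemidirectProduct.inl f : W A) (∑ i ∈ Finset.range N, wl (Set.range R.s) (f (p i)) + 2 * N) := by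
  classical
  have key : ∀ m : ℕ, Len (Set.range (stp R))
      ((SemidirectProduct.inl (rs80 p f m) : W A) * sft (σ ^ m))
      (∑ i ∈ Finset.range m, wl (Set.range R.s) (f (p i)) + m) := by
    intro m
    induction m with
    | zero =>
      have h3 : rs80 p f 0 = (1 : X → A) := by
        funext x
        unfold rs80
        rw [if_neg]
        · rfl
        · rintro ⟨i, hi, _⟩
          exact absurd hi (Nat.not_lt_zero i)
      rw [h3, map_one, pow_zero, map_one, one_mul]
      exact Len.one
    | succ m ih =>
      have h4 := (ih.mul (len_lamp R (f (p m)))).mul (len_sft R σ 1 h1)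
      have h5 : (SemidirectProduct.inl (rs80 p f m) : W A) * sft (σ ^ m) * lamp (f (p m)) * sft σ =
          (SemidirectProduct.inl (rs80 p f (m + 1)) : W A) * sft (σ ^ (m + 1)) := by
        rw [mul_assoc (SemidirectProduct.inl (rs80 p f m) : W A), sft_lamp, hp,
          ← mul_assoc, ← map_mul, mul_assoc, ← map_mul sft, ← pow_succ]
        congr 2
        funext x
        unfold rs80
        rw [Pi.mul_apply, Pi.mulSingle_apply]
        by_cases hx : x = p m
        · subst hx
          rw [if_neg, if_pos rfl, one_mul, if_pos ⟨m, Nat.lt_succ_self m, rfl⟩]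
          rintro ⟨i, hi, hi2⟩
          exact absurd (hinj hi2) (Nat.ne_of_lt hi)
        · rw [if_neg hx, mul_one]
          by_cases h6 : ∃ i < m, p i = x
          · rw [if_pos h6, if_pos]
            obtain ⟨i, hi, hi2⟩ := h6
            exact ⟨i, Nat.lt_succ_of_lt hi, hi2⟩
          · rw [if_neg h6, if_neg]
            rintro ⟨i, hi, hi2⟩
            rcases Nat.lt_succ_iff_lt_or_eq.1 hi with h7 | h7
            · exact h6 ⟨i, h7, hi2⟩
            · exact hx (by rw [← hi2, h7])
      rw [h5] at h4
      refine h4.mono ?_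
      rw [Finset.sum_range_succ]
      omega
  have h3 := (key N).mul (len_sft R ((σ⁻¹) ^ N) (N * 1) (h2.pow N))
  have h4 : rs80 p f N = f := by
    funext x
    unfold rs80
    by_cases h5 : ∃ i < N, p i = x
    · rw [if_pos h5]
    · rw [if_neg h5, hf x]
      intro i hi h6
      exact h5 ⟨i, hi, h6⟩
  rw [h4, mul_assoc, ← map_mul sft, inv_pow, mul_inv_cancel, map_one, mul_one] at h3
  exact h3.mono (by omega)

theorem deposit (R : RW A) (M : ℕ) (f : X → A) (hf : ∀ x : X, M ≤ x.2 → f x = 1) :
    Len (Set.range (stp R)) (SemidirectProduct.inl f : W A) (∑ x ∈ ball M, wl (Set.range R.s) (f x) + 6 * (M + 1)) := by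
  classical
  -- ray 0
  have hG1i : Len (Set.range T) G1⁻¹ 1 := Len.inv range_T_symm len_G1
  have hG2i : Len (Set.range T) G2⁻¹ 1 := Len.inv range_T_symm len_G2
  have hr0 := dep_orbit R G1⁻¹ hG1i (by rw [inv_inv]; exact len_G1) (fun i => ((0, i) : X))
    (fun i => by
      rw [inv_pow, Equiv.Perm.inv_eq_iff_eq, (G1_pow i i).1, if_pos le_rfl, Nat.sub_self]
      rfl)
    (fun i j hij => (Prod.mk.inj hij).2) (fun x => if x.1 = 0 then f x else 1) M
    (fun x hx => by
      by_cases h1 : x.1 = 0
      · rw [if_pos h1]
        apply hf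
        by_contra h2
        exact hx x.2 (not_le.1 h2) (by rw [← h1])
      · rw [if_neg h1])
  have hr1 := dep_orbit R G1 len_G1 hG1i (fun i => match i with | 0 => x0 | (i + 1) => ((1, i) : X))
    (fun i => by
      cases i with
      | zero => rfl
      | succ i =>
        have h1 := (G1_pow (i + 1) 0).1
        rw [if_neg (by omega)] at h1
        exact h1.trans (by simp))
    (fun i j hij => by
      cases i with
      | zero =>
        cases j with
        | zero => rfl
        | succ j => exact absurd (congrArg Prod.fst hij) (by simp [x0])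
      | succ i =>
        cases j with
        | zero => exact absurd (congrArg Prod.fst hij) (by simp [x0])
        | succ j => exact congrArg Nat.succ (congrArg Prod.snd hij)) (fun x => if x.1 = 1 then f x else 1) (M + 1)
    (fun x hx => by
      by_cases h1 : x.1 = 1
      · rw [if_pos h1]
        apply hf
        by_contra h2
        exact hx (x.2 + 1) (by omega) (by show ((1, x.2) : X) = x; rw [← h1])
      · rw [if_neg h1])
  have hr2 := dep_orbit R G2 len_G2 hG2i (fun i => match i with | 0 => x0 | (i + 1) => ((2, i) : X))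
    (fun i => by
      cases i with
      | zero => rfl
      | succ i =>
        have h1 := (G2_pow (i + 1) 0).1
        rw [if_neg (by omega)] at h1
        exact h1.trans (by simp))
    (fun i j hij => by
      cases i with
      | zero =>
        cases j with
        | zero => rfl
        | succ j => exact absurd (congrArg Prod.fst hij) (by simp [x0])
      | succ i =>
        cases j with
        | zero => exact absurd (congrArg Prod.fst hij) (by simp [x0])
        | succ j => exact congrArg Nat.succ (congrArg Prod.snd hij)) (fun x => if x.1 = 2 then f x else 1) (M + 1)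
    (fun x hx => by
      by_cases h1 : x.1 = 2
      · rw [if_pos h1]
        apply hf
        by_contra h2
        exact hx (x.2 + 1) (by omega) (by show ((2, x.2) : X) = x; rw [← h1])
      · rw [if_neg h1])
  have h1 := (hr0.mul hr1).mul hr2
  rw [← map_mul, ← map_mul] at h1
  have h2 : (fun x : X => if x.1 = 0 then f x else 1) * (fun x => if x.1 = 1 then f x else 1) *
      (fun x => if x.1 = 2 then f x else 1) = f := by
    funext x
    obtain ⟨j, i⟩ := x
    rw [Pi.mul_apply, Pi.mul_apply]
    fin_cases j <;> simp
  rw [h2] at h1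
  refine h1.mono ?_
  rw [Finset.sum_range_succ', Finset.sum_range_succ']
  have h3 : ∑ x ∈ ball M, wl (Set.range R.s) (f x) = ∑ i ∈ Finset.range M, wl (Set.range R.s) (f (0, i)) +
      ∑ i ∈ Finset.range M, wl (Set.range R.s) (f (1, i)) + ∑ i ∈ Finset.range M, wl (Set.range R.s) (f (2, i)) := by
    unfold ball
    rw [Finset.sum_product, Fin.sum_univ_three]
  rw [h3]
  have h4 : wl (Set.range R.s) (1 : A) = 0 := wl_one
  have e1 : wl (Set.range R.s) (if x0.1 = (1 : Fin 3) then f x0 else 1) = 0 := by
    rw [if_neg (by decide)]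
    exact h4
  have e2 : wl (Set.range R.s) (if x0.1 = (2 : Fin 3) then f x0 else 1) = 0 := by
    rw [if_neg (by decide)]
    exact h4
  have e3 : ∀ a b c d k l : ℕ, d = 0 → k = 0 → a + 2 * M + (b + d + 2 * (M + 1)) + (c + k + 2 * (M + 1)) ≤ a + b + c + 6 * (M + 1) := by
    intro a b c d k l h5 h6
    omega
  exact e3 _ _ _ _ _ 0 e1 e2

end Pool.Agent.Helper27.SX
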