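import Pool.Agent.Helper27.SX.B1
import Pool.Agent.Helper27.SX.Defs3

/-!
# SX-C4: outside the radius (MP_a16d94_pr)

PROOFS. `far_aux`: induction on `L` for all `s m`: from `mx j s (o :: L) = max |s| (mx j (s + v) L) < m + s` one gets `m ≥ 1` (`|s| < m + s`); the inverse of the shift maps `(j, m)`, `m ≥ 1`, to `(j, m - v)` (`gf p.1.2 p.1.1`), and the hypothesis holds for `L` with `s + v`, `m - v`. `(pos R (o :: L)).right = T p * (pos R L).right` (`sft_right`) or unchanged (`lamp_right`).
`lam_zero`, `right_far`: `far_aux` with `s = 0` (`mx j 0 L ≤ (mx j 0 L).toNat < rad L`). `SS_le`: `|s + SS j L| ≤ mx j s L` by induction. `SS_sum`: the sum over `j` of `vv o j` is 0.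
-/

set_option autoImplicit false

namespace Pool.Agent.Helper27.SX

variable {A : Type} [Group A]

theorem c4_Tinv (p : St) (j : Fin 3) (m : ℕ) (hm : 1 ≤ m) (b : Bool) (hb : b = false) :
    ∃ m' : ℕ, (T p)⁻¹ (j, m) = (j, m') ∧ (m' : ℤ) = m - vv (p, b) j := by
  subst hb
  have h1 : (T p)⁻¹ (j, m) = gf p.1.2 p.1.1 (j, m) := rfl
  rw [h1]
  have h2 : vv (p, false) j = (if p.1.1 = j then 1 else 0) - (if p.1.2 = j then 1 else 0) := rfl
  rw [h2]
  have hm0 : m ≠ 0 := by omega
  unfold gf
  by_cases h3 : j = p.1.1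
  · have h4 : ¬ p.1.2 = j := fun h => p.2 (h3.symm.trans h.symm)
    refine ⟨m - 1, ?_, ?_⟩
    · simp [← h3, hm0]
    · rw [if_pos h3.symm, if_neg h4]
      omega
  · by_cases h4 : j = p.1.2
    · refine ⟨m + 1, ?_, ?_⟩
      · simp only
        rw [if_neg h3, if_pos h4, ← h4]
      · rw [if_neg (fun h => h3 h.symm), if_pos h4.symm]
        push_cast
        ring
    · refine ⟨m, ?_, ?_⟩
      · simp only
        rw [if_neg h3, if_neg h4]
      · rw [if_neg (fun h => h3 h.symm), if_neg (fun h => h4 h.symm)]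
        ring

theorem c4_pos_cons (R : RW A) (o : R.Ω × St × Bool) (L : List (R.Ω × St × Bool)) :
    pos R (o :: L) = stp R o * pos R L := by
  unfold pos
  rw [List.map_cons, List.prod_cons]

theorem far_aux (R : RW A) (j : Fin 3) (L : List (R.Ω × St × Bool)) (s : ℤ) (m : ℕ) (h : mx j s L < m + s) :
    lam L (j, m) = 0 ∧ ((pos R L).right⁻¹ (j, m)).1 = j ∧ ((((pos R L).right⁻¹ (j, m)).2 : ℕ) : ℤ) = m - SS j L := by
  induction L generalizing s m with
  | nil =>
    have h1 : (pos R []).right⁻¹ = 1 := by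
      change (1 : W A).right⁻¹ = 1
      rw [SemidirectProduct.one_right, inv_one]
    rw [h1]
    refine ⟨rfl, rfl, ?_⟩
    change (m : ℤ) = m - 0
    ring
  | cons o L ih =>
    rw [mx, max_lt_iff] at h
    obtain ⟨h1, h2⟩ := h
    have hm : 1 ≤ m := by
      have h3 := le_abs_self s
      omega
    obtain ⟨ω, p, b⟩ := o
    cases b with
    | true =>
      have hv : vv (p, true) j = 0 := rfl
      have h2' : mx j s L < m + s := by
        have h3 : s + vv ((ω, p, true) : R.Ω × St × Bool).2 j = s := by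
          change s + vv (p, true) j = s
          rw [hv, add_zero]
        rwa [h3] at h2
      obtain ⟨i1, i2, i3⟩ := ih s m h2'
      have hr : (pos R ((ω, p, true) :: L)).right = (pos R L).right := by
        rw [c4_pos_cons]
        exact lamp_right _ _
      refine ⟨?_, by rw [hr]; exact i2, ?_⟩
      · have h3 : lam ((ω, p, true) :: L) = Finsupp.single x0 1 + lam L := rfl
        rw [h3, Finsupp.add_apply, i1, add_zero, Finsupp.single_apply, if_neg]
        intro h4
        have h5 := congrArg Prod.snd h4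
        change 0 = m at h5
        omega
      · rw [hr, i3]
        change (m : ℤ) - SS j L = m - (vv (p, true) j + SS j L)
        rw [hv]
        ring
    | false =>
      obtain ⟨m', hm1, hm2⟩ := c4_Tinv p j m hm false rfl
      have h2' : mx j (s + vv (p, false) j) L < m' + (s + vv (p, false) j) := by
        rw [hm2]
        have h3 : (m : ℤ) - vv (p, false) j + (s + vv (p, false) j) = m + s := by ring
        rw [h3]
        exact h2
      obtain ⟨i1, i2, i3⟩ := ih _ m' h2'
      have hr : (pos R ((ω, p, false) :: L)).right⁻¹ (j, m) = (pos R L).right⁻¹ (j, m') := by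
        rw [c4_pos_cons]
        have h3 : (stp R (ω, p, false) * pos R L).right = T p * (pos R L).right := sft_right _ _
        rw [h3, mul_inv_rev, Equiv.Perm.mul_apply, hm1]
      refine ⟨?_, by rw [hr]; exact i2, ?_⟩
      · have h3 : lam ((ω, p, false) :: L) (j, m) = lam L ((T p)⁻¹ (j, m)) := rfl
        rw [h3, hm1]
        exact i1
      · rw [hr, i3, hm2]
        change (m : ℤ) - vv (p, false) j - SS j L = m - (vv (p, false) j + SS j L)
        ring

theorem c4_mx_lt {Ω : Type} (L : List (Ω × St × Bool)) (j : Fin 3) : mx j 0 L < rad L := by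
  unfold rad
  have h1 : (mx j 0 L).toNat ≤ ∑ j : Fin 3, (mx j 0 L).toNat :=
    Finset.single_le_sum (f := fun j : Fin 3 => (mx j 0 L).toNat) (fun _ _ => Nat.zero_le _)
      (Finset.mem_univ j)
  have h2 : mx j 0 L ≤ ((mx j 0 L).toNat : ℤ) := Int.self_le_toNat _
  push_cast
  have h3 : ((mx j 0 L).toNat : ℤ) ≤ ((∑ j : Fin 3, (mx j 0 L).toNat : ℕ) : ℤ) := by exact_mod_cast h1
  push_cast at h3
  linarith

theorem lam_zero (R : RW A) (L : List (R.Ω × St × Bool)) (x : X) (h : rad L ≤ x.2) : lam L x = 0 := by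
  obtain ⟨j, m⟩ := x
  refine (far_aux R j L 0 m ?_).1
  have h1 := c4_mx_lt L j
  have h2 : ((rad L : ℕ) : ℤ) ≤ m := by exact_mod_cast h
  rw [add_zero]
  exact h1.trans_le h2

theorem right_far (R : RW A) (L : List (R.Ω × St × Bool)) (j : Fin 3) (m : ℕ) (h : rad L ≤ m) :
    ((pos R L).right⁻¹ (j, m)).1 = j ∧ ((((pos R L).right⁻¹ (j, m)).2 : ℕ) : ℤ) = m - SS j L := by
  refine (far_aux R j L 0 m ?_).2
  have h1 := c4_mx_lt L j
  have h2 : ((rad L : ℕ) : ℤ) ≤ m := by exact_mod_cast h
  rw [add_zero]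
  exact h1.trans_le h2

theorem c4_SS_aux {Ω : Type} (j : Fin 3) (L : List (Ω × St × Bool)) (s : ℤ) :
    |s + SS j L| ≤ mx j s L := by
  induction L generalizing s with
  | nil =>
    rw [SS, mx, add_zero]
  | cons o L ih =>
    rw [SS, mx, ← add_assoc]
    exact (ih _).trans (le_max_right _ _)

theorem SS_le (R : RW A) (L : List (R.Ω × St × Bool)) (j : Fin 3) : |SS j L| ≤ rad L := by
  have h1 := c4_SS_aux j L 0
  rw [zero_add] at h1
  exact h1.trans (c4_mx_lt L j).le

theorem SS_sum (R : RW A) (L : List (R.Ω × St × Bool)) : ∑ j, SS j L = 0 := by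
  induction L with
  | nil => exact Finset.sum_eq_zero fun j _ => rfl
  | cons o L ih =>
    have h1 : ∀ j, SS j (o :: L) = vv o.2 j + SS j L := fun j => rfl
    rw [Finset.sum_congr rfl fun j _ => h1 j, Finset.sum_add_distrib, ih, add_zero]
    unfold vv
    cases o.2.2 with
    | true => simp
    | false =>
      simp only [Bool.false_eq_true, if_false]
      rw [Finset.sum_sub_distrib, Finset.sum_ite_eq, Finset.sum_ite_eq]
      simp

end Pool.Agent.Helper27.SX
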