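import Pool.Agent.Helper27.SX.B1
import Pool.Agent.Helper27.SX.Defs3

/-!
# SX-C4b: no lamp step at a point (MP_a16d94_pr)

PROOFS. `left_one`: induction on `L` for all `x` (`lamp_left`, `sft_left`, `lam (lamp :: L) x = [x = x0] + lam L x`, `lam (h :: L) x = lam L (h⁻¹ x)`).
`lam_len`: `lam L x ≠ 0 → x.2 ≤ L.length` by induction (a shift changes the distance by at most 1; for a lamp step `x = x0` or `lam L x ≠ 0`).
-/

set_option autoImplicit false

namespace Pool.Agent.Helper27.SX

variable {A : Type} [Group A]

theorem left_one (R : RW A) (L : List (R.Ω × St × Bool)) (x : X) (h : lam L x = 0) : (pos R L).left x = 1 := by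
  induction L generalizing x with
  | nil => rfl
  | cons o L ih =>
    have h1 : pos R (o :: L) = stp R o * pos R L := by
      unfold pos
      rw [List.map_cons, List.prod_cons]
    rw [h1]
    obtain ⟨ω, p, b⟩ := o
    cases b with
    | true =>
      have h2 : lam ((ω, p, true) :: L) = Finsupp.single x0 1 + lam L := rfl
      rw [h2, Finsupp.add_apply, Nat.add_eq_zero_iff, Finsupp.single_apply] at h
      have h3 : stp R (ω, p, true) = lamp (R.s ω) := rfl
      rw [h3, lamp_left, ih x h.2, mul_one, if_neg]
      rintro rfl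
      simp at h
    | false =>
      have h2 : lam ((ω, p, false) :: L) x = lam L ((T p)⁻¹ x) := rfl
      rw [h2] at h
      have h3 : stp R (ω, p, false) = sft (T p) := rfl
      rw [h3, sft_left]
      exact ih _ h

theorem c4b_Tinv (p : St) (x : X) : x.2 ≤ ((T p)⁻¹ x).2 + 1 := by
  have h1 : (T p)⁻¹ x = gf p.1.2 p.1.1 x := rfl
  rw [h1]
  unfold gf
  split_ifs <;> simp <;> omega

theorem lam_len (R : RW A) (L : List (R.Ω × St × Bool)) (x : X) (h : lam L x ≠ 0) : x.2 ≤ L.length := by
  induction L generalizing x with
  | nil => exact absurd rfl h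
  | cons o L ih =>
    rw [List.length_cons]
    obtain ⟨ω, p, b⟩ := o
    cases b with
    | true =>
      have h2 : lam ((ω, p, true) :: L) = Finsupp.single x0 1 + lam L := rfl
      by_cases hx : x0 = x
      · rw [← hx]
        exact Nat.zero_le _
      · rw [h2, Finsupp.add_apply, Finsupp.single_apply, if_neg hx, zero_add] at h
        exact (ih x h).trans (Nat.le_succ _)
    | false =>
      have h2 : lam ((ω, p, false) :: L) x = lam L ((T p)⁻¹ x) := rfl
      rw [h2] at h
      exact (c4b_Tinv p x).trans (Nat.add_le_add_right (ih _ h) 1)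

end Pool.Agent.Helper27.SX
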