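import Pool.Agent.Helper27.SX.B3
import Pool.Agent.Helper27.SX.B4
import Pool.Agent.Helper27.SX.C4
import Pool.Agent.Helper27.SX.C4b

/-!
# SX-B5: upper bound for the word length (MP_a16d94_pr)

PROOF. `pos R L = inl (pos R L).left * sft (pos R L).right` (`SemidirectProduct.inl_left_mul_inr_right`). `deposit` with `M = rad L` (`lam_zero`, `left_one`). `radb` for `σ = (pos R L).right⁻¹`, `v j = - SS j L` (`right_far`, `SS_le`, `SS_sum`), `k` from `radb_real`, then `Len.inv` with `range_T_symm`, `len_sft`. `wl_le`, `Len.mul`. `6 * (M + 1) ≤ 6 * (M + 1) ^ (3 / 2)`.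
-/

set_option autoImplicit false

namespace Pool.Agent.Helper27.SX

theorem upper {A : Type} [Group A] (R : RW A) : ∃ C : ℝ, 0 < C ∧ ∀ L : List (R.Ω × St × Bool),
    (wl (Set.range (stp R)) (pos R L) : ℝ) ≤ ((∑ x ∈ ball (rad L), wl (Set.range R.s) ((pos R L).left x) : ℕ) : ℝ) + C * ((rad L : ℝ) + 1) ^ (3 / 2 : ℝ) := by
  obtain ⟨C, hC, hk⟩ := radb_real
  refine ⟨C + 6, by linarith, fun L => ?_⟩
  obtain ⟨k, hk1, hk2⟩ := hk (rad L)
  have h1 := deposit R (rad L) (pos R L).left fun x hx => left_one R L x (lam_zero R L x hx)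
  have h2 : Len (Set.range T) ((pos R L).right⁻¹) (3 * k * 2 ^ k + 14 * rad L) := by
    refine radb (rad L) _ (fun j => -SS j L) (fun j => ?_) ?_ (fun j m hm => ?_) k hk1
    · rw [abs_neg]
      exact SS_le R L j
    · rw [Finset.sum_neg_distrib, SS_sum R L, neg_zero]
    · have h3 := right_far R L j m hm
      refine ⟨h3.1, ?_⟩
      rw [h3.2, sub_eq_add_neg]
  have h3 : Len (Set.range T) (pos R L).right (3 * k * 2 ^ k + 14 * rad L) := by
    have h4 := h2.inv range_T_symm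
    rwa [inv_inv] at h4
  have h5 := h1.mul (len_sft R _ _ h3)
  have h6 : (SemidirectProduct.inl (pos R L).left : W A) * sft (pos R L).right = pos R L :=
    SemidirectProduct.inl_left_mul_inr_right _
  rw [h6] at h5
  have h7 := wl_le h5
  have h8 : (wl (Set.range (stp R)) (pos R L) : ℝ) ≤
      ((∑ x ∈ ball (rad L), wl (Set.range R.s) ((pos R L).left x) : ℕ) : ℝ) + 6 * ((rad L : ℝ) + 1) +
      ((3 * k * 2 ^ k + 14 * rad L : ℕ) : ℝ) := by
    have h9 : (wl (Set.range (stp R)) (pos R L) : ℝ) ≤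
      ((∑ x ∈ ball (rad L), wl (Set.range R.s) ((pos R L).left x) + 6 * (rad L + 1) +
        (3 * k * 2 ^ k + 14 * rad L) : ℕ) : ℝ) := by exact_mod_cast h7
    refine h9.trans (le_of_eq ?_)
    push_cast
    ring
  have h10 : (rad L : ℝ) + 1 ≤ ((rad L : ℝ) + 1) ^ (3 / 2 : ℝ) := by
    have h11 : (1 : ℝ) ≤ (rad L : ℝ) + 1 := by
      have : (0 : ℝ) ≤ (rad L : ℝ) := Nat.cast_nonneg _
      linarith
    calc (rad L : ℝ) + 1 = ((rad L : ℝ) + 1) ^ (1 : ℝ) := (Real.rpow_one _).symm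
      _ ≤ _ := Real.rpow_le_rpow_of_exponent_le h11 (by norm_num)
  nlinarith

end Pool.Agent.Helper27.SX
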