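import Pool.Agent.Helper27.SX.Defs

/-!
# SX-LEN: word length (MP_a16d94_pr)

Elementary facts on `Len` and `wl`. PROOFS. `Len.mul`: append the lists. `Len.inv`: reverse the list of inverses (`List.prod_inv_reverse`). `Len.map`: map the list. `exists_len`: `Subgroup.closure_induction` or `Subgroup.exists_list_of_mem_closure` gives a list with elements of `S` or inverses of elements of `S`
(`S` is symmetric); `Nat.sInf_mem`. `wl_le`: a list of length `≤ n` gives an element of the set of lengths. `wl_map`: an injective homomorphism: the lists correspond.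
-/

set_option autoImplicit false

namespace Pool.Agent.Helper27.SX

variable {Q Q' : Type*} [Group Q] [Group Q'] {S : Set Q} {g h : Q} {m n : ℕ}

theorem Len.one : Len S (1 : Q) 0 := ⟨[], le_rfl, by simp, rfl⟩

theorem Len.mem (hg : g ∈ S) : Len S g 1 := ⟨[g], le_rfl, by simpa using hg, by simp⟩

theorem Len.mono (h1 : Len S g m) (hmn : m ≤ n) : Len S g n :=
  ⟨h1.choose, h1.choose_spec.1.trans hmn, h1.choose_spec.2⟩

theorem Len.mul (h1 : Len S g m) (h2 : Len S h n) : Len S (g * h) (m + n) := by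
  obtain ⟨l, hl, hs, rfl⟩ := h1
  obtain ⟨l', hl', hs', rfl⟩ := h2
  refine ⟨l ++ l', ?_, ?_, List.prod_append⟩
  · rw [List.length_append]
    omega
  · intro x hx
    rcases List.mem_append.1 hx with h | h
    · exact hs x h
    · exact hs' x h

theorem Len.inv (hS : ∀ s ∈ S, s⁻¹ ∈ S) (h1 : Len S g m) : Len S g⁻¹ m := by
  obtain ⟨l, hl, hs, rfl⟩ := h1
  refine ⟨(l.map fun x => x⁻¹).reverse, ?_, ?_, (List.prod_inv_reverse l).symm⟩
  · rw [List.length_reverse, List.length_map]
    exact hl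
  · intro x hx
    rw [List.mem_reverse, List.mem_map] at hx
    obtain ⟨y, hy, rfl⟩ := hx
    exact hS y (hs y hy)

theorem Len.pow (h1 : Len S g m) (k : ℕ) : Len S (g ^ k) (k * m) := by
  induction k with
  | zero =>
    rw [pow_zero, Nat.zero_mul]
    exact Len.one
  | succ k ih =>
    rw [pow_succ, Nat.succ_mul]
    exact ih.mul h1

theorem Len.map (φ : Q →* Q') {S' : Set Q'} (hφ : ∀ s ∈ S, φ s ∈ S') (h1 : Len S g m) : Len S' (φ g) m := by
  obtain ⟨l, hl, hs, rfl⟩ := h1
  refine ⟨l.map φ, ?_, ?_, (map_list_prod φ l).symm⟩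
  · rw [List.length_map]
    exact hl
  · intro x hx
    rw [List.mem_map] at hx
    obtain ⟨y, hy, rfl⟩ := hx
    exact hφ y (hs y hy)

theorem wl_le (h1 : Len S g m) : wl S g ≤ m := by
  obtain ⟨l, hl, hs, rfl⟩ := h1
  exact (Nat.sInf_le (s := {n | ∃ l' : List Q, l'.length = n ∧ (∀ x ∈ l', x ∈ S) ∧
    l'.prod = l.prod}) ⟨l, rfl, hs, rfl⟩).trans hl

theorem exists_len (hS : ∀ s ∈ S, s⁻¹ ∈ S) (hg : g ∈ Subgroup.closure S) : Len S g (wl S g) := by
  have hg' : g ∈ Submonoid.closure (S ∪ S⁻¹) := by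
    rw [← Subgroup.closure_toSubmonoid]
    exact hg
  obtain ⟨l, hl, hp⟩ := Submonoid.exists_list_of_mem_closure hg'
  have hne : {n | ∃ l : List Q, l.length = n ∧ (∀ x ∈ l, x ∈ S) ∧ l.prod = g}.Nonempty := by
    refine ⟨l.length, l, rfl, fun x hx => ?_, hp⟩
    rcases hl x hx with h | h
    · exact h
    · have := hS _ h
      rwa [inv_inv] at this
  obtain ⟨l', hl', hs', hp'⟩ := Nat.sInf_mem hne
  exact ⟨l', le_of_eq hl', hs', hp'⟩

theorem wl_one : wl S (1 : Q) = 0 := Nat.le_zero.1 (wl_le Len.one)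

/-- word length in a subgroup -/
theorem wl_map (φ : Q →* Q') (hφ : Function.Injective φ) (S : Set Q) (g : Q) : wl (φ '' S) (φ g) = wl S g := by
  have key : ∀ l' : List Q', (∀ x ∈ l', x ∈ φ '' S) → ∃ l : List Q, l.map φ = l' ∧ ∀ x ∈ l, x ∈ S := by
    intro l'
    induction l' with
    | nil => exact fun _ => ⟨[], rfl, by simp⟩
    | cons a l' ih =>
      intro h
      obtain ⟨l, hl, hs⟩ := ih fun x hx => h x (List.mem_cons_of_mem _ hx)
      obtain ⟨b, hb, hab⟩ := h a List.mem_cons_self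
      refine ⟨b :: l, by rw [List.map_cons, hl, hab], fun x hx => ?_⟩
      rcases List.mem_cons.1 hx with rfl | h'
      · exact hb
      · exact hs x h'
  unfold wl
  congr 1
  ext n
  constructor
  · rintro ⟨l', hl', hs', hp'⟩
    obtain ⟨l, rfl, hs⟩ := key l' hs'
    rw [List.length_map] at hl'
    rw [← map_list_prod] at hp'
    exact ⟨l, hl', hs, hφ hp'⟩
  · rintro ⟨l, hl, hs, hp⟩
    refine ⟨l.map φ, by rw [List.length_map, hl], fun x hx => ?_, by rw [← map_list_prod, hp]⟩
    rw [List.mem_map] at hx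
    obtain ⟨y, hy, rfl⟩ := hx
    exact ⟨y, hs y hy, rfl⟩

/-- the generating set of a walk is symmetric -/
theorem RW.symm {G : Type} [Group G] (R : RW G) : ∀ s ∈ Set.range R.s, s⁻¹ ∈ Set.range R.s := by
  rintro _ ⟨ω, rfl⟩
  exact ⟨R.inv ω, R.s_inv ω⟩

theorem RW.len {G : Type} [Group G] (R : RW G) (g : G) : Len (Set.range R.s) g (wl (Set.range R.s) g) :=
  exists_len R.symm (by rw [R.gen]; trivial)

end Pool.Agent.Helper27.SX
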