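import Pool.Agent.Helper27.SX.Av
import Pool.Agent.Helper27.SX.Len

/-!
# SX-BASE: simple random walk on the integers (MP_a16d94_pr)

PROOF. `R`: `Ω = Bool`, `s ω = Multiplicative.ofAdd (if ω then 1 else -1)`, `inv = Equiv.boolNot`. The word length of `ofAdd k` is `k.natAbs`: `≤` by powers of the generator (`Len.pow`), `≥` because a product of `n` generators has absolute value `≤ n`. By induction on `n` for all start values `s : ℝ` (with `S L` = the sum of the steps):
`av n (s + S)² = s² + n`, `av n (s + S)⁴ = s⁴ + 6 s² n + 3 n² - 2 n`. Upper: `|S| ≤ (sqrt n / 2) (1 + S² / n)`, so `av n |S| ≤ sqrt n`. Lower: for `y ≥ 0`: `y ≥ y² - y⁴ / 4` (`1 - y + y³ / 4 > 0`), with `y = |S| / u`, `u = sqrt (2 n)`: `av n |S| ≥ u (n / u² - 3 n² / (4 u⁴)) = u (1/2 - 3/16) ≥ (5 / 16) sqrt n`.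
-/

set_option autoImplicit false

namespace Pool.Agent.Helper27.SX

private def b4st (ω : Bool) : Multiplicative ℤ := Multiplicative.ofAdd (if ω then 1 else -1)

private theorem b4_gen : Subgroup.closure (Set.range b4st) = ⊤ := by
  rw [eq_top_iff]
  intro g _
  have h1 : Multiplicative.ofAdd (1 : ℤ) ∈ Subgroup.closure (Set.range b4st) :=
    Subgroup.subset_closure ⟨true, rfl⟩
  have h2 : g = Multiplicative.ofAdd (1 : ℤ) ^ (Multiplicative.toAdd g) := by
    rw [← ofAdd_zsmul, smul_eq_mul, mul_one]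
    rfl
  rw [h2]
  exact Subgroup.zpow_mem _ h1 _

private def b4R : RW (Multiplicative ℤ) where
  Ω := Bool
  fin := inferInstance
  ne := inferInstance
  s := b4st
  inv := Equiv.boolNot
  s_inv := by
    intro ω
    cases ω <;> rfl
  gen := b4_gen

/-- the sum of the steps -/
private def b4S : List Bool → ℤ
  | [] => 0
  | ω :: L => (if ω then 1 else -1) + b4S L

private theorem b4_prod (L : List Bool) : (L.map b4st).prod = Multiplicative.ofAdd (b4S L) := by
  induction L with
  | nil => rfl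
  | cons ω L ih =>
    rw [List.map_cons, List.prod_cons, ih]
    rfl

private theorem b4_abs (l : List (Multiplicative ℤ)) (h : ∀ x ∈ l, x ∈ Set.range b4st) :
    |Multiplicative.toAdd l.prod| ≤ (l.length : ℤ) := by
  induction l with
  | nil => simp
  | cons a l ih =>
    have h1 := ih fun x hx => h x (List.mem_cons_of_mem _ hx)
    obtain ⟨ω, hω⟩ := h a List.mem_cons_self
    have h2 : |Multiplicative.toAdd a| = 1 := by
      rw [← hω]
      cases ω <;> rfl
    rw [List.prod_cons, toAdd_mul, List.length_cons]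
    push_cast
    calc |Multiplicative.toAdd a + Multiplicative.toAdd l.prod|
        ≤ |Multiplicative.toAdd a| + |Multiplicative.toAdd l.prod| := abs_add_le _ _
      _ ≤ (l.length : ℤ) + 1 := by linarith

private theorem b4_len (k : ℤ) : Len (Set.range b4st) (Multiplicative.ofAdd k) k.natAbs := by
  rcases le_total 0 k with hk | hk
  · have h1 : Len (Set.range b4st) (Multiplicative.ofAdd (1 : ℤ)) 1 := Len.mem ⟨true, rfl⟩
    have h2 := h1.pow k.natAbs
    rw [mul_one, ← ofAdd_nsmul, nsmul_eq_mul, mul_one, Int.natAbs_of_nonneg hk] at h2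
    exact h2
  · have h1 : Len (Set.range b4st) (Multiplicative.ofAdd (-1 : ℤ)) 1 := Len.mem ⟨false, rfl⟩
    have h2 := h1.pow k.natAbs
    have h3 : (k.natAbs : ℤ) * (-1) = k := by
      rw [Int.ofNat_natAbs_of_nonpos hk]
      ring
    rw [mul_one, ← ofAdd_nsmul, nsmul_eq_mul, h3] at h2
    exact h2

private theorem b4_wl (k : ℤ) : (wl (Set.range b4st) (Multiplicative.ofAdd k) : ℤ) = |k| := by
  refine le_antisymm ?_ ?_
  · rw [← Int.natCast_natAbs]
    exact_mod_cast wl_le (b4_len k)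
  · obtain ⟨l, hl, hs, hp⟩ := RW.len b4R (Multiplicative.ofAdd k)
    have h1 := b4_abs l hs
    rw [hp, toAdd_ofAdd] at h1
    refine h1.trans ?_
    exact_mod_cast hl

private theorem b4_succ (n : ℕ) (F : List Bool → ℝ) :
    av (n + 1) F = (av n (fun L => F (true :: L)) + av n (fun L => F (false :: L))) / 2 := by
  rw [av_succ, Fintype.sum_bool, Fintype.card_bool]
  norm_num

private theorem b4_m2 (n : ℕ) : ∀ s : ℝ, av n (fun L : List Bool => (s + (b4S L : ℝ)) ^ 2) = s ^ 2 + n := by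
  induction n with
  | zero =>
    intro s
    rw [av_zero]
    simp [b4S]
  | succ n ih =>
    intro s
    rw [b4_succ]
    have h1 : ∀ L : List Bool, (s + (b4S (true :: L) : ℝ)) ^ 2 = ((s + 1) + (b4S L : ℝ)) ^ 2 := by
      intro L
      simp [b4S]
      ring
    have h2 : ∀ L : List Bool, (s + (b4S (false :: L) : ℝ)) ^ 2 = ((s - 1) + (b4S L : ℝ)) ^ 2 := by
      intro L
      simp [b4S]
      ring
    simp only [h1, h2]
    rw [ih, ih]
    push_cast
    ring

private theorem b4_m4 (n : ℕ) : ∀ s : ℝ, av n (fun L : List Bool => (s + (b4S L : ℝ)) ^ 4) =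
    s ^ 4 + 6 * s ^ 2 * n + 3 * (n : ℝ) ^ 2 - 2 * n := by
  induction n with
  | zero =>
    intro s
    rw [av_zero]
    simp [b4S]
  | succ n ih =>
    intro s
    rw [b4_succ]
    have h1 : ∀ L : List Bool, (s + (b4S (true :: L) : ℝ)) ^ 4 = ((s + 1) + (b4S L : ℝ)) ^ 4 := by
      intro L
      simp [b4S]
      ring
    have h2 : ∀ L : List Bool, (s + (b4S (false :: L) : ℝ)) ^ 4 = ((s - 1) + (b4S L : ℝ)) ^ 4 := by
      intro L
      simp [b4S]
      ring
    simp only [h1, h2]
    rw [ih, ih]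
    push_cast
    ring

private theorem b4_speed (n : ℕ) : speed b4R n = av n (fun L : List Bool => |(b4S L : ℝ)|) := by
  rw [speed_eq]
  refine av_congr n _ _ fun (L : List Bool) _ => ?_
  have h1 := b4_wl (b4S L)
  rw [← b4_prod] at h1
  have h2 : ((wl (Set.range b4st) (List.map b4st L).prod : ℤ) : ℝ) = ((|b4S L| : ℤ) : ℝ) := by rw [h1]
  push_cast at h2
  exact h2

theorem base : HasSp (Multiplicative ℤ) (1 / 2) := by
  refine ⟨b4R, 13 / 32, 1, by norm_num, fun n hn => ?_⟩
  have hn0 : (0 : ℝ) < n := by exact_mod_cast hn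
  rw [b4_speed, ← Real.sqrt_eq_rpow]
  set r : ℝ := Real.sqrt n with hr
  have hr0 : 0 < r := Real.sqrt_pos.2 hn0
  have hr2 : r ^ 2 = n := Real.sq_sqrt hn0.le
  have m2 : av n (fun L : List Bool => (b4S L : ℝ) ^ 2) = n := by
    have := b4_m2 n 0
    simpa using this
  have m4 : av n (fun L : List Bool => (b4S L : ℝ) ^ 4) = 3 * (n : ℝ) ^ 2 - 2 * n := by
    have := b4_m4 n 0
    simpa using this
  constructor
  · have h1 : av n (fun L : List Bool => 1 / (2 * r) * (b4S L : ℝ) ^ 2 - 1 / (32 * r ^ 3) * (b4S L : ℝ) ^ 4) ≤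
        av n (fun L : List Bool => |(b4S L : ℝ)|) := by
      refine av_mono n _ _ fun L _ => ?_
      set y : ℝ := |(b4S L : ℝ)| / (2 * r) with hy
      have hy0 : 0 ≤ y := by positivity
      have h2 : |(b4S L : ℝ)| = 2 * r * y := by
        rw [hy]
        field_simp
      have h3 : (b4S L : ℝ) ^ 2 = (2 * r * y) ^ 2 := by rw [← h2, sq_abs]
      have h4 : (b4S L : ℝ) ^ 4 = (2 * r * y) ^ 4 := by
        rw [show (4 : ℕ) = 2 * 2 from rfl, pow_mul, pow_mul, h3]
      rw [h3, h4, h2]
      have h5 : 1 / (2 * r) * (2 * r * y) ^ 2 - 1 / (32 * r ^ 3) * (2 * r * y) ^ 4 =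
          2 * r * (y ^ 2 - y ^ 4 / 4) := by
        field_simp
        ring
      rw [h5]
      refine mul_le_mul_of_nonneg_left ?_ (by positivity)
      have h6 : 0 ≤ 1 - y + y ^ 3 / 4 := by
        nlinarith [sq_nonneg (y - 1), sq_nonneg (y - 6 / 5), mul_nonneg hy0 (sq_nonneg (y - 6 / 5)),
          mul_nonneg hy0 (sq_nonneg (y - 1))]
      nlinarith [mul_nonneg hy0 h6]
    refine le_trans ?_ h1
    rw [av_sub, av_mul, av_mul, m2, m4, ← hr2]
    have h7 : 1 / (2 * r) * r ^ 2 - 1 / (32 * r ^ 3) * (3 * (r ^ 2) ^ 2 - 2 * r ^ 2) =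
        13 / 32 * r + 1 / (16 * r) := by
      field_simp
      ring
    rw [h7]
    have h8 : 0 ≤ 1 / (16 * r) := by positivity
    linarith
  · have h1 : av n (fun L : List Bool => |(b4S L : ℝ)|) ≤
        av n (fun L : List Bool => 1 / (2 * r) * (b4S L : ℝ) ^ 2 + r / 2) := by
      refine av_mono n _ _ fun L _ => ?_
      rw [← sq_abs (b4S L : ℝ)]
      have h2 : 1 / (2 * r) * |(b4S L : ℝ)| ^ 2 + r / 2 - |(b4S L : ℝ)| =
          (|(b4S L : ℝ)| - r) ^ 2 / (2 * r) := by
        field_simp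
        ring
      have h3 : 0 ≤ (|(b4S L : ℝ)| - r) ^ 2 / (2 * r) := by positivity
      linarith
    refine h1.trans ?_
    rw [av_add, av_mul, av_const, m2, ← hr2]
    refine le_of_eq ?_
    field_simp
    ring

end Pool.Agent.Helper27.SX
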