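import Pool.Agent.Helper27.SX.Av
import Pool.Agent.Helper27.SX.B1
import Pool.Agent.Helper27.SX.Defs3

/-!
# SX-C1: the lamp at a point (MP_a16d94_pr)

PROOF. `speed_walk`: `speed_eq` for `walk R` and `wl_map` with the injective homomorphism `(GA A).subtype`: it maps `range (walk R).s` onto `range (stp R)` and the product to `pos R L` (`map_list_prod`).
`av_left`: induction on `n` for all `x` and `F`. `n = 0`: both sides are `F 1`. `n + 1`: `av_succ`, the sum over `o = (ω, p, b)` is `∑ ω, ∑ p, ∑ b` (`Fintype.sum_prod_type`); `pos R (o :: L) = stp R o * pos R L`.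
`b = false`: `(pos R (o :: L)).left x = (pos R L).left ((T p)⁻¹ x)` (`sft_left`), `lam (o :: L) x = lam L ((T p)⁻¹ x)`, induction. `b = true`, `x ≠ x0`: both are unchanged. `b = true`, `x = x0`: `left = R.s ω * (pos R L).left x0`, `lam (o :: L) x0 = 1 + lam L x0`; induction with `F' a = F (R.s ω * a)` for each `ω`;
`(∑ ω, av n (fun L => av (lam L x0) (fun w => F (R.s ω * (w.map R.s).prod)))) / card = av n (fun L => av (1 + lam L x0) (fun w => F (w.map R.s).prod))` (`av_sum`, `av_mul`, `av_succ`, `add_comm`).
-/

set_option autoImplicit false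

namespace Pool.Agent.Helper27.SX

variable {A : Type} [Group A]

theorem speed_walk (R : RW A) (n : ℕ) :
    speed (walk R) n = av n (fun L : List (R.Ω × St × Bool) => (wl (Set.range (stp R)) (pos R L) : ℝ)) := by
  rw [speed_eq]
  have h1 : (GA A).subtype '' (Set.range (walk R).s) = Set.range (stp R) := by
    rw [← Set.range_comp]
    rfl
  have h2 : ∀ L : List (walk R).Ω, (GA A).subtype (L.map (walk R).s).prod = pos R L := by
    intro L
    rw [map_list_prod, List.map_map]
    rfl
  have h3 : ∀ L : List (walk R).Ω, wl (Set.range (walk R).s) (L.map (walk R).s).prod =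
      wl (Set.range (stp R)) (pos R L) := by
    intro L
    rw [← wl_map (GA A).subtype (GA A).subtype_injective, h1, h2]
  simp only [h3]
  rfl

private theorem sum3 {Ω : Type} [Fintype Ω] (f g : Ω × St × Bool → ℝ)
    (h1 : ∀ ω p, f (ω, p, false) = g (ω, p, false))
    (h2 : ∀ p, ∑ ω, f (ω, p, true) = ∑ ω, g (ω, p, true)) : ∑ o, f o = ∑ o, g o := by
  simp only [Fintype.sum_prod_type, Fintype.sum_bool, Finset.sum_add_distrib, h1]
  congr 1
  rw [Finset.sum_comm, Finset.sum_comm (f := fun ω p => g (ω, p, true))]
  exact Finset.sum_congr rfl fun p _ => h2 p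

private theorem avg {Ω Ω' : Type} [Fintype Ω] [Fintype Ω'] [Nonempty Ω'] (n : ℕ) (H : Ω' → List Ω → ℝ) :
    ∑ ω, av n (H ω) = ∑ _ω : Ω', av n (fun L => (∑ ω', H ω' L) / (Fintype.card Ω' : ℝ)) := by
  have hc : (Fintype.card Ω' : ℝ) ≠ 0 := by
    exact_mod_cast Fintype.card_ne_zero
  rw [Finset.sum_const, Finset.card_univ, nsmul_eq_mul, ← av_mul, ← av_sum]
  apply av_congr
  intro L _
  field_simp

theorem av_left (R : RW A) (n : ℕ) (x : X) (F : A → ℝ) :
    av n (fun L : List (R.Ω × St × Bool) => F ((pos R L).left x)) =
      av n (fun L : List (R.Ω × St × Bool) => av (lam L x) (fun w : List R.Ω => F (w.map R.s).prod)) := by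
  induction n generalizing x F with
  | zero =>
    rw [av_zero, av_zero]
    have h : lam (Ω := R.Ω) [] x = 0 := rfl
    rw [h, av_zero]
    rfl
  | succ n ih =>
    rw [av_succ, av_succ]
    congr 1
    have hpos : ∀ (o : R.Ω × St × Bool) (L : List (R.Ω × St × Bool)), pos R (o :: L) = stp R o * pos R L := by
      intro o L
      unfold pos
      rw [List.map_cons, List.prod_cons]
    apply sum3
    · intro ω p
      have h1 : ∀ L : List (R.Ω × St × Bool), (pos R ((ω, p, false) :: L)).left x = (pos R L).left ((T p)⁻¹ x) := by
        intro L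
        rw [hpos]
        exact sft_left (T p) (pos R L) x
      have h2 : ∀ L : List (R.Ω × St × Bool), lam ((ω, p, false) :: L) x = lam L ((T p)⁻¹ x) := by
        intro L
        rfl
      simp only [h1, h2]
      exact ih _ F
    · intro p
      by_cases hx : x = x0
      · subst hx
        have h1 : ∀ (ω : R.Ω) (L : List (R.Ω × St × Bool)), (pos R ((ω, p, true) :: L)).left x0 =
            R.s ω * (pos R L).left x0 := by
          intro ω L
          rw [hpos]
          have := lamp_left (R.s ω) (pos R L) x0
          rw [if_pos rfl] at this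
          exact this
        have h2 : ∀ (ω : R.Ω) (L : List (R.Ω × St × Bool)), lam ((ω, p, true) :: L) x0 = lam L x0 + 1 := by
          intro ω L
          have : lam ((ω, p, true) :: L) = Finsupp.single x0 1 + lam L := rfl
          rw [this, Finsupp.add_apply, Finsupp.single_eq_same, add_comm]
        simp only [h1, h2, av_succ]
        have h3 : ∀ ω : R.Ω, av n (fun L : List (R.Ω × St × Bool) => F (R.s ω * (pos R L).left x0)) =
            av n (fun L : List (R.Ω × St × Bool) => av (lam L x0) (fun w : List R.Ω => F (R.s ω * (w.map R.s).prod))) :=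
          fun ω => ih x0 (fun a => F (R.s ω * a))
        simp only [h3]
        exact avg n (fun (ω : R.Ω) (L : List (R.Ω × St × Bool)) =>
          av (lam L x0) (fun w : List R.Ω => F (R.s ω * (w.map R.s).prod)))
      · apply Finset.sum_congr rfl
        intro ω _
        have h1 : ∀ L : List (R.Ω × St × Bool), (pos R ((ω, p, true) :: L)).left x = (pos R L).left x := by
          intro L
          rw [hpos]
          have := lamp_left (R.s ω) (pos R L) x
          rw [if_neg hx, one_mul] at this
          exact this
        have h2 : ∀ L : List (R.Ω × St × Bool), lam ((ω, p, true) :: L) x = lam L x := by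
          intro L
          have : lam ((ω, p, true) :: L) = Finsupp.single x0 1 + lam L := rfl
          rw [this, Finsupp.add_apply, Finsupp.single_eq_of_ne hx, zero_add]
        simp only [h1, h2]
        exact ih x F

end Pool.Agent.Helper27.SX
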