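import Pool.Agent.Helper27.SX.Av
import Pool.Agent.Helper27.SX.Defs3

/-!
# SX-C2: expected number of lamp steps at the base point (MP_a16d94_pr)

`lam L x` = the number of lamp steps at which the current point (started at `x`) is `x0`. All averages: `av_succ`, the sum over `o = (ω, p, b)` is `∑ ω, ∑ p, ∑ b` (`Fintype.sum_prod_type`, `Fintype.sum_bool`), `Fintype.card (Ω × St × Bool) = card Ω * 6 * 2`; the sum over the six shifts `p : St` is computed by `decide`-like expansion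
(`Fintype.card St = 6`, `Finset.univ : Finset St` is the set of the six pairs; the inverse of `T p` is `T (inv p)`, i.e. `gf p.1.2 p.1.1`).

PROOFS. `six`: for `x = (j, m)`, of the six `(T p)⁻¹ x`: two have distance `m + 1`, two have distance `m`, two have distance `m - 1` (`m ≥ 1`) or `0` (`m = 0`). So for every `F : ℕ → ℝ`: `∑ p, F (((T p)⁻¹ x).2) = 2 F (m + 1) + 2 F m + 2 F (m - 1)` with truncated subtraction `m - 1`.
`cp_sq`: induction on `n` for all `x`: `av (n+1) = (1/2) av n (x) + (1/12) ∑ p av n ((T p)⁻¹ x) ≤ (1/2) (m² + n/3) + (1/12) (∑ p ((T p)⁻¹ x).2 ^ 2 + 2 n)`, and `∑ p |.|² = 2 (m+1)² + 2 m² + 2 (m-1)² ≤ 6 m² + 4`.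
`lam_le`: induction on `n` for all `x`: `av (n+1) (lam . x) = (1/2) ([x = x0] + av n (lam . x)) + (1/12) ∑ p av n (lam . ((T p)⁻¹ x))`, the same for `cp` without the indicator, and `(1/12) ∑ p ((T p)⁻¹ x).2 = m / 2 + (1/6) [m = 0]`, `[x = x0] ≤ [m = 0]`.
`lam_x0`: `lam_le`, `av_sq_le`, `cp_sq` at `x0`: `≤ 3 sqrt (n / 3) = sqrt (3 n)`.
-/

set_option autoImplicit false

namespace Pool.Agent.Helper27.SX

section
variable {Ω : Type} [Fintype Ω] [Nonempty Ω]

theorem c2_ne : Nonempty (Ω × St × Bool) := ⟨(Classical.arbitrary Ω, ⟨(0, 1), by decide⟩, true)⟩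

/-- the six shifts -/
theorem c2_card : Fintype.card St = 6 := by decide

theorem c2_step (n : ℕ) (F F1 : List (Ω × St × Bool) → ℝ) (F0 : St → List (Ω × St × Bool) → ℝ)
    (h1 : ∀ ω p L, F ((ω, p, true) :: L) = F1 L) (h0 : ∀ ω p L, F ((ω, p, false) :: L) = F0 p L) :
    av (n + 1) F = av n F1 / 2 + (∑ p, av n (F0 p)) / 12 := by
  have hc : (Fintype.card Ω : ℝ) ≠ 0 := by
    have := Fintype.card_pos (α := Ω)
    positivity
  have h2 : ∀ ω : Ω, ∀ p : St, (∑ b : Bool, av n (fun L => F ((ω, p, b) :: L))) = av n F1 + av n (F0 p) := by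
    intro ω p
    rw [Fintype.sum_bool]
    simp only [h1, h0]
  rw [av_succ, Fintype.sum_prod_type]
  simp_rw [Fintype.sum_prod_type, h2]
  rw [Fintype.card_prod, Fintype.card_prod, c2_card, Fintype.card_bool, Finset.sum_const, Finset.card_univ, Finset.sum_add_distrib,
    Finset.sum_const, Finset.card_univ, c2_card]
  push_cast
  field_simp
  ring

theorem c2_sum (F : St → ℝ) : ∑ p : St, F p = F ⟨(0, 1), by decide⟩ + F ⟨(0, 2), by decide⟩ + F ⟨(1, 0), by decide⟩ +
    F ⟨(1, 2), by decide⟩ + F ⟨(2, 0), by decide⟩ + F ⟨(2, 1), by decide⟩ := by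
  have h : (Finset.univ : Finset St) = {⟨(0, 1), by decide⟩, ⟨(0, 2), by decide⟩, ⟨(1, 0), by decide⟩,
    ⟨(1, 2), by decide⟩, ⟨(2, 0), by decide⟩, ⟨(2, 1), by decide⟩} := by decide
  rw [h, Finset.sum_insert (by decide), Finset.sum_insert (by decide), Finset.sum_insert (by decide), Finset.sum_insert (by decide),
    Finset.sum_insert (by decide), Finset.sum_singleton]
  ring

theorem c2_T (p : St) (x : X) : (T p)⁻¹ x = gf p.1.2 p.1.1 x := rfl

theorem six (x : X) (F : ℕ → ℝ) : ∑ p : St, F (((T p)⁻¹ x).2) = 2 * F (x.2 + 1) + 2 * F x.2 + 2 * F (x.2 - 1) := by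
  obtain ⟨j, m⟩ := x
  rw [c2_sum]
  simp only [c2_T, gf]
  fin_cases j <;> cases m <;> simp <;> ring

theorem cp_sq (n : ℕ) (x : X) : av n (fun L : List (Ω × St × Bool) => ((cp L x).2 : ℝ) ^ 2) ≤ (x.2 : ℝ) ^ 2 + n / 3 := by
  induction n generalizing x with
  | zero => simp [av_zero, cp]
  | succ n ih =>
    rw [c2_step n _ (fun L => ((cp L x).2 : ℝ) ^ 2) (fun p L => ((cp L ((T p)⁻¹ x)).2 : ℝ) ^ 2) (fun ω p L => by simp [cp]) (fun ω p L => by simp [cp])]
    have h1 := ih x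
    have h2 : ∑ p : St, av n (fun L : List (Ω × St × Bool) => ((cp L ((T p)⁻¹ x)).2 : ℝ) ^ 2) ≤ ∑ p : St, ((((T p)⁻¹ x).2 : ℝ) ^ 2 + n / 3) :=
      Finset.sum_le_sum fun p _ => ih _
    rw [Finset.sum_add_distrib, six x (fun m => (m : ℝ) ^ 2), Finset.sum_const, Finset.card_univ, c2_card] at h2
    have h3 : ((x.2 - 1 : ℕ) : ℝ) ^ 2 ≤ (x.2 : ℝ) ^ 2 - 2 * x.2 + 1 := by
      rcases Nat.eq_zero_or_pos x.2 with h | h
      · rw [h]; simp
      · rw [Nat.cast_sub h]
        push_cast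
        nlinarith
    push_cast at h2 ⊢
    simp only [nsmul_eq_mul] at h2
    push_cast at h2
    nlinarith

theorem lam_le (n : ℕ) (x : X) : av n (fun L : List (Ω × St × Bool) => (lam L x : ℝ)) ≤
    3 * (av n (fun L : List (Ω × St × Bool) => ((cp L x).2 : ℝ)) - x.2) := by
  haveI := c2_ne (Ω := Ω)
  induction n generalizing x with
  | zero => simp [av_zero, cp, lam]
  | succ n ih =>
    rw [c2_step n _ (fun L => (if x = x0 then 1 else 0) + (lam L x : ℝ)) (fun p L => (lam L ((T p)⁻¹ x) : ℝ))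
      (fun ω p L => by
        simp only [lam, if_true, Finsupp.add_apply, Finsupp.single_apply]
        push_cast
        by_cases h : x = x0
        · simp [h]
        · rw [if_neg h, if_neg (Ne.symm h)]) (fun ω p L => by simp [lam]),
      c2_step n _ (fun L => ((cp L x).2 : ℝ)) (fun p L => ((cp L ((T p)⁻¹ x)).2 : ℝ)) (fun ω p L => by simp [cp]) (fun ω p L => by simp [cp])]
    have h1 := ih x
    have h2 : ∑ p : St, av n (fun L : List (Ω × St × Bool) => (lam L ((T p)⁻¹ x) : ℝ)) ≤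
        ∑ p : St, 3 * (av n (fun L : List (Ω × St × Bool) => ((cp L ((T p)⁻¹ x)).2 : ℝ)) - (((T p)⁻¹ x).2 : ℝ)) :=
      Finset.sum_le_sum fun p _ => ih _
    rw [← Finset.mul_sum, Finset.sum_sub_distrib, six x (fun m => (m : ℝ))] at h2
    have h3 : av n (fun L : List (Ω × St × Bool) => (if x = x0 then (1 : ℝ) else 0) + (lam L x : ℝ)) =
        (if x = x0 then (1 : ℝ) else 0) + av n (fun L : List (Ω × St × Bool) => (lam L x : ℝ)) := by
      rw [av_add, av_const]
    rw [h3]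
    have h4 : (if x = x0 then (1 : ℝ) else 0) ≤ ((x.2 - 1 : ℕ) : ℝ) - x.2 + 1 := by
      rcases Nat.eq_zero_or_pos x.2 with h | h
      · rw [h]
        split_ifs <;> simp
      · rw [Nat.cast_sub h, if_neg]
        · push_cast
          linarith
        · rintro rfl
          exact absurd h (by decide)
    push_cast at h2
    linarith

theorem lam_x0 (n : ℕ) : av n (fun L : List (Ω × St × Bool) => (lam L x0 : ℝ)) ≤ Real.sqrt (3 * n) := by
  haveI := c2_ne (Ω := Ω)
  have h1 := lam_le (Ω := Ω) n x0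
  have h2 := cp_sq (Ω := Ω) n x0
  have h3 := av_sq_le (Ω := Ω × St × Bool) n (fun L => ((cp L x0).2 : ℝ))
  have h4 : ((x0.2 : ℕ) : ℝ) = 0 := by simp [x0]
  rw [h4] at h1 h2
  apply Real.le_sqrt_of_sq_le
  have h5 : 0 ≤ av n (fun L : List (Ω × St × Bool) => (lam L x0 : ℝ)) := av_nonneg n _ fun L _ => Nat.cast_nonneg _
  have h6 : 0 ≤ av n (fun L : List (Ω × St × Bool) => ((cp L x0).2 : ℝ)) := av_nonneg n _ fun L _ => Nat.cast_nonneg _
  nlinarith

end

end Pool.Agent.Helper27.SX
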