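import Pool.Agent.Helper27.SX.C2

/-!
# SX-C2b: moments of the number of lamp steps (MP_a16d94_pr)

`lam L x` = the number of lamp steps at which the current point (started at `x`) is `x0`. All averages: `av_succ`, the sum over `o = (ω, p, b)` is `∑ ω, ∑ p, ∑ b` (`Fintype.sum_prod_type`, `Fintype.sum_bool`), `Fintype.card (Ω × St × Bool) = card Ω * 6 * 2`.
`lam_sum`: induction: `(lam (o :: L)).sum = (lam L).sum + [o is a lamp step]` (`Finsupp.sum_add_index'`, `Finsupp.sum_equivMapDomain`).
`lam_sq`: `Q (n+1) = Q n + 1/2 + av n (lam . x0)` (`(single x0 1 + f).sum (·^2) = f.sum (·^2) + 2 f x0 + 1`), so by `lam_x0`: `Q n ≤ ∑ k < n (1/2 + sqrt (3 k)) ≤ n (1/2 + sqrt (3 n)) ≤ 3 n ^ (3/2)`.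
-/

set_option autoImplicit false

namespace Pool.Agent.Helper27.SX

section
variable {Ω : Type} [Fintype Ω] [Nonempty Ω]

private lemma h74_sum_add (l : X →₀ ℕ) :
    (Finsupp.single x0 1 + l).sum (fun _ m => (m : ℝ)) = l.sum (fun _ m => (m : ℝ)) + 1 := by
  rw [Finsupp.sum_add_index' (fun _ => by simp) (fun _ _ _ => by push_cast; ring), Finsupp.sum_single_index (by simp)]
  push_cast
  ring

private lemma h74_sq_add (l : X →₀ ℕ) :
    (Finsupp.single x0 1 + l).sum (fun _ m => (m : ℝ) ^ 2) = l.sum (fun _ m => (m : ℝ) ^ 2) + (2 * (l x0 : ℝ) + 1) := by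
  classical
  have h1 : (Finsupp.single x0 1 + l).support ⊆ insert x0 l.support := by
    intro x hx
    rw [Finset.mem_insert]
    by_contra h
    rw [not_or] at h
    rw [Finsupp.mem_support_iff, Finsupp.add_apply, Finsupp.single_apply, if_neg (Ne.symm h.1), zero_add] at hx
    exact h.2 (Finsupp.mem_support_iff.2 hx)
  rw [Finsupp.sum_of_support_subset _ h1 _ (fun _ _ => by simp),
    Finsupp.sum_of_support_subset l (Finset.subset_insert x0 l.support) _ (fun _ _ => by simp)]
  have h2 : ∀ x ∈ insert x0 l.support, ((((Finsupp.single x0 1 : X →₀ ℕ) + l) x : ℕ) : ℝ) ^ 2 =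
      ((l x : ℕ) : ℝ) ^ 2 + (if x = x0 then 2 * (l x0 : ℝ) + 1 else 0) := by
    intro x _
    rw [Finsupp.add_apply, Finsupp.single_apply]
    by_cases h : x = x0
    · rw [if_pos h, if_pos h.symm, h]
      push_cast
      ring
    · rw [if_neg h, if_neg (Ne.symm h), zero_add, add_zero]
  rw [Finset.sum_congr rfl h2, Finset.sum_add_distrib, Finset.sum_ite_eq' (insert x0 l.support) x0,
    if_pos (Finset.mem_insert_self _ _)]

private lemma h74_pow (x : ℝ) (hx : 0 ≤ x) : x ^ (3 / 2 : ℝ) = x * Real.sqrt x := by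
  rw [Real.sqrt_eq_rpow, show (3 / 2 : ℝ) = 1 + 1 / 2 by norm_num, Real.rpow_one_add' hx (by norm_num)]

theorem lam_sum (n : ℕ) : av n (fun L : List (Ω × St × Bool) => (lam L).sum fun _ m => (m : ℝ)) = n / 2 := by
  haveI := c2_ne (Ω := Ω)
  induction n with
  | zero => simp [av_zero, lam]
  | succ n ih =>
    rw [c2_step n _ (fun L => ((lam L).sum fun _ m => (m : ℝ)) + 1) (fun _ L => (lam L).sum fun _ m => (m : ℝ))
      (fun ω p L => by
        simp only [lam, if_true]
        exact h74_sum_add _)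
      (fun ω p L => by
        simp only [lam, Bool.false_eq_true, if_false]
        rw [Finsupp.sum_equivMapDomain]),
      av_add, av_const, ih, Finset.sum_const, Finset.card_univ, c2_card, nsmul_eq_mul]
    push_cast
    ring

theorem lam_sq (n : ℕ) : av n (fun L : List (Ω × St × Bool) => (lam L).sum fun _ m => (m : ℝ) ^ 2) ≤ 3 * (n : ℝ) ^ (3 / 2 : ℝ) := by
  haveI := c2_ne (Ω := Ω)
  induction n with
  | zero => simp [av_zero, lam]
  | succ n ih =>
    rw [c2_step n _ (fun L => ((lam L).sum fun _ m => (m : ℝ) ^ 2) + (2 * (lam L x0 : ℝ) + 1))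
      (fun _ L => (lam L).sum fun _ m => (m : ℝ) ^ 2)
      (fun ω p L => by
        simp only [lam, if_true]
        exact h74_sq_add _)
      (fun ω p L => by
        simp only [lam, Bool.false_eq_true, if_false]
        rw [Finsupp.sum_equivMapDomain]),
      av_add, av_add, av_const, av_mul, Finset.sum_const, Finset.card_univ, c2_card, nsmul_eq_mul]
    have h1 := lam_x0 (Ω := Ω) n
    rw [h74_pow _ (Nat.cast_nonneg _)] at ih ⊢
    have hn : (0 : ℝ) ≤ n := Nat.cast_nonneg n
    obtain ⟨r, hr⟩ : ∃ r : ℝ, r = Real.sqrt ((n : ℝ) + 1) := ⟨_, rfl⟩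
    have h2 : Real.sqrt n ≤ r := by
      rw [hr]
      exact Real.sqrt_le_sqrt (by linarith)
    have h3 : Real.sqrt (3 * n) ≤ 2 * r := by
      rw [hr]
      apply Real.sqrt_le_iff.2
      refine ⟨by positivity, ?_⟩
      rw [mul_pow, Real.sq_sqrt (by linarith)]
      linarith
    have h4 : 1 ≤ r := by
      rw [hr]
      apply Real.le_sqrt_of_sq_le
      linarith
    have h5 : (n : ℝ) * Real.sqrt n ≤ n * r := mul_le_mul_of_nonneg_left h2 hn
    push_cast
    rw [← hr]
    nlinarith

end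

end Pool.Agent.Helper27.SX
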