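import Pool.Agent.Helper27.SX.Av

/-!
# SX-C3: the maximal displacement (pathwise Doob inequality; MP_a16d94_pr)

PROOFS. `vv_sum1`, `vv_sum2`, `vv_abs`: the sum over `p : St` of the shift vector on ray `j` is 0, of its square 4 (of the six shifts two give `+1`, two `-1`, two `0`); `∑ p |s + v| ≥ 6 |s|` (triangle inequality for the sum, or convexity).
`mx_bound'`: induction on `n` for all `m ≥ |s|`: `n = 0`: `mx j s [] = |s|`, `m² ≤ 4 s² - 2 (2 m |s| - m²)` is `(2 |s| - m)² ≥ 0`. `n + 1`: with `L = o :: L'`, `v = vv o.2 j`, `s' = s + v`, `m' = max m |s'|`: `max m (mx j s L) = max m' (mx j s' L')` (because `|s| ≤ m` and `|s'| ≤ mx j s' L'`), induction: average over `L'` is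
`≤ 4 (s'² + n / 3) - 2 (2 m' |s'| - m'²)`, and `2 m' |s'| - m'² ≥ 2 m |s'| - m²` (if `m' = |s'| > m` it is `(|s'| - m)² ≥ 0`). Average over `o = (ω, p, b)` (`Fintype.sum_prod_type`; `b = true` gives `v = 0`): average of `s'²` is `s² + 1/3`, average of `|s'|` is `≥ |s|`.
`mx_bound`: `s = m = 0`, `mx j 0 L ≥ 0`. `rad_bound`: `(rad L)² ≤ 4 (1 + ∑ j (mx j 0 L)²)`, `4 (1 + 4 n) ≤ 20 n`.
-/

set_option autoImplicit false
set_option linter.unusedSectionVars false

namespace Pool.Agent.Helper27.SX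

section
variable {Ω : Type} [Fintype Ω] [Nonempty Ω]

theorem univ_St : (Finset.univ : Finset St) = {⟨(0, 1), by decide⟩, ⟨(0, 2), by decide⟩,
    ⟨(1, 0), by decide⟩, ⟨(1, 2), by decide⟩, ⟨(2, 0), by decide⟩, ⟨(2, 1), by decide⟩} := by
  decide

theorem sum_St (f : St → ℝ) : ∑ p, f p = f ⟨(0, 1), by decide⟩ + (f ⟨(0, 2), by decide⟩ +
    (f ⟨(1, 0), by decide⟩ + (f ⟨(1, 2), by decide⟩ + (f ⟨(2, 0), by decide⟩ +
      f ⟨(2, 1), by decide⟩)))) := by
  rw [univ_St, Finset.sum_insert (by decide), Finset.sum_insert (by decide),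
    Finset.sum_insert (by decide), Finset.sum_insert (by decide), Finset.sum_insert (by decide),
    Finset.sum_singleton]

instance : Nonempty St := ⟨⟨(0, 1), by decide⟩⟩

theorem sum_vv (j : Fin 3) (g : ℤ → ℝ) :
    ∑ p : St, g (vv (p, false) j) = 2 * g 0 + 2 * g 1 + 2 * g (-1) := by
  rw [sum_St]
  fin_cases j
  · simp [vv]
    ring
  · simp [vv]
    ring
  · simp [vv]
    ring

theorem card_St : Fintype.card St = 6 := by decide

theorem avg_vv (j : Fin 3) (g : ℤ → ℝ) :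
    (∑ o : Ω × St × Bool, g (vv o.2 j)) / (Fintype.card (Ω × St × Bool) : ℝ) =
      (8 * g 0 + 2 * g 1 + 2 * g (-1)) / 12 := by
  have h1 : ∑ o : Ω × St × Bool, g (vv o.2 j) =
      (Fintype.card Ω : ℝ) * (8 * g 0 + 2 * g 1 + 2 * g (-1)) := by
    rw [Fintype.sum_prod_type]
    simp only
    rw [Finset.sum_const, Finset.card_univ, nsmul_eq_mul]
    congr 1
    rw [Fintype.sum_prod_type]
    have h2 : ∀ p : St, ∑ b : Bool, g (vv (p, b) j) = g 0 + g (vv (p, false) j) := by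
      intro p
      rw [Fintype.sum_bool]
      congr 1
    rw [Finset.sum_congr rfl (fun p _ => h2 p), Finset.sum_add_distrib, sum_vv, Finset.sum_const,
      Finset.card_univ, card_St, nsmul_eq_mul]
    push_cast
    ring
  have h3 : (Fintype.card (Ω × St × Bool) : ℝ) = (Fintype.card Ω : ℝ) * 12 := by
    rw [Fintype.card_prod, Fintype.card_prod, card_St, Fintype.card_bool]
    push_cast
    ring
  have h4 : (Fintype.card Ω : ℝ) ≠ 0 := by
    have : 0 < Fintype.card Ω := Fintype.card_pos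
    positivity
  rw [h1, h3, mul_div_mul_left _ _ h4]

theorem abs_le_mx (j : Fin 3) (s : ℤ) (L : List (Ω × St × Bool)) : |s| ≤ mx j s L := by
  cases L with
  | nil => exact le_rfl
  | cons o L => exact le_max_left _ _

theorem mx_bound' (j : Fin 3) (n : ℕ) (s m : ℤ) (hm : |s| ≤ m) :
    av n (fun L : List (Ω × St × Bool) => ((max m (mx j s L) : ℤ) : ℝ) ^ 2) ≤
      4 * ((s : ℝ) ^ 2 + n / 3) - 2 * (2 * m * |(s : ℝ)| - (m : ℝ) ^ 2) := by
  induction n generalizing s m with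
  | zero =>
    rw [av_zero]
    change ((max m |s| : ℤ) : ℝ) ^ 2 ≤ _
    rw [max_eq_left hm, ← sq_abs (s : ℝ)]
    push_cast
    nlinarith [sq_nonneg (2 * |(s : ℝ)| - m)]
  | succ n ih =>
    have hm0 : 0 ≤ m := (abs_nonneg s).trans hm
    have hm0R : (0 : ℝ) ≤ m := by exact_mod_cast hm0
    rw [av_succ]
    have h1 : ∀ o : Ω × St × Bool,
        av n (fun L => ((max m (mx j s (o :: L)) : ℤ) : ℝ) ^ 2) ≤
          4 * (((s + vv o.2 j : ℤ) : ℝ) ^ 2 + n / 3) -
            2 * (2 * m * |((s + vv o.2 j : ℤ) : ℝ)| - (m : ℝ) ^ 2) := by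
      intro o
      have h2 : ∀ L : List (Ω × St × Bool), max m (mx j s (o :: L)) =
          max (max m |s + vv o.2 j|) (mx j (s + vv o.2 j) L) := by
        intro L
        have h3 := abs_le_mx j (s + vv o.2 j) L
        change max m (max |s| (mx j (s + vv o.2 j) L)) = _
        omega
      simp only [h2]
      refine (ih (s + vv o.2 j) (max m |s + vv o.2 j|) (le_max_right _ _)).trans ?_
      generalize s + vv o.2 j = s'
      rcases le_total |s'| m with h4 | h4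
      · rw [max_eq_left h4]
      · rw [max_eq_right h4]
        have h5 : (m : ℝ) ≤ |(s' : ℝ)| := by exact_mod_cast h4
        push_cast
        nlinarith [sq_nonneg (|(s' : ℝ)| - m)]
    have h6 := Finset.sum_le_sum (fun (o : Ω × St × Bool) (_ : o ∈ Finset.univ) => h1 o)
    have h7 : (0 : ℝ) ≤ (Fintype.card (Ω × St × Bool) : ℝ) := Nat.cast_nonneg _
    refine (div_le_div_of_nonneg_right h6 h7).trans ?_
    have h8 := avg_vv (Ω := Ω) j (fun v => 4 * (((s + v : ℤ) : ℝ) ^ 2 + n / 3) -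
            2 * (2 * m * |((s + v : ℤ) : ℝ)| - (m : ℝ) ^ 2))
    rw [h8]
    push_cast
    have h9 : 2 * |(s : ℝ)| ≤ |(s : ℝ) + 1| + |(s : ℝ) + -1| := by
      have h10 := abs_add_le ((s : ℝ) + 1) ((s : ℝ) + -1)
      have h11 : (s : ℝ) + 1 + ((s : ℝ) + -1) = 2 * s := by ring
      rw [h11, abs_mul, abs_two] at h10
      exact h10
    have h12 := mul_le_mul_of_nonneg_left h9 hm0R
    rw [add_zero]
    nlinarith

theorem mx_bound (j : Fin 3) (n : ℕ) : av n (fun L : List (Ω × St × Bool) => ((mx j 0 L : ℤ) : ℝ) ^ 2) ≤ 4 * n / 3 := by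
  have h := mx_bound' (Ω := Ω) j n 0 0 (by simp)
  have h1 : ∀ L : List (Ω × St × Bool), max 0 (mx j 0 L) = mx j 0 L := by
    intro L
    have h3 := abs_le_mx j 0 L
    rw [abs_zero] at h3
    exact max_eq_right h3
  simp only [h1] at h
  refine h.trans (le_of_eq ?_)
  simp
  ring

theorem rad_bound (n : ℕ) (hn : 1 ≤ n) : av n (fun L : List (Ω × St × Bool) => (rad L : ℝ) ^ 2) ≤ 20 * n := by
  have h1 : ∀ L : List (Ω × St × Bool), L.length = n → (rad L : ℝ) ^ 2 ≤
      4 * (1 + ∑ j : Fin 3, ((mx j 0 L : ℤ) : ℝ) ^ 2) := by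
    intro L _
    have h2 : ∀ j : Fin 3, (((mx j 0 L).toNat : ℕ) : ℝ) = ((mx j 0 L : ℤ) : ℝ) := by
      intro j
      have h3 := abs_le_mx j 0 L
      rw [abs_zero] at h3
      have h4 : (((mx j 0 L).toNat : ℕ) : ℤ) = mx j 0 L := Int.toNat_of_nonneg h3
      exact_mod_cast h4
    have h5 : (rad L : ℝ) = 1 + ∑ j : Fin 3, ((mx j 0 L : ℤ) : ℝ) := by
      unfold rad
      push_cast
      rw [Finset.sum_congr rfl (fun j _ => h2 j)]
    rw [h5, Fin.sum_univ_three, Fin.sum_univ_three]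
    nlinarith [sq_nonneg (((mx 0 0 L : ℤ) : ℝ) - ((mx 1 0 L : ℤ) : ℝ)),
      sq_nonneg (((mx 0 0 L : ℤ) : ℝ) - ((mx 2 0 L : ℤ) : ℝ)),
      sq_nonneg (((mx 1 0 L : ℤ) : ℝ) - ((mx 2 0 L : ℤ) : ℝ)),
      sq_nonneg (((mx 0 0 L : ℤ) : ℝ) - 1), sq_nonneg (((mx 1 0 L : ℤ) : ℝ) - 1),
      sq_nonneg (((mx 2 0 L : ℤ) : ℝ) - 1)]
  refine (av_mono n _ _ h1).trans ?_
  rw [av_mul, av_add, av_const, av_sum]
  have h6 : ∑ j : Fin 3, av n (fun L : List (Ω × St × Bool) => ((mx j 0 L : ℤ) : ℝ) ^ 2) ≤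
      ∑ _j : Fin 3, (4 * n / 3 : ℝ) := Finset.sum_le_sum (fun j _ => mx_bound j n)
  rw [Finset.sum_const, Finset.card_univ, Fintype.card_fin, nsmul_eq_mul] at h6
  have h7 : (1 : ℝ) ≤ n := by exact_mod_cast hn
  push_cast at h6
  linarith

end

end Pool.Agent.Helper27.SX
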