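import Mathlib

/-!
# SX-C5a: real powers (MP_a16d94_pr; Mathlib only)

PROOFS. `rp1`: with `y = t / u`: `y ^ b ≥ y` for `y ≤ 1`, `y ^ b ≥ 1 ≥ y - y² / 4` for `y ≥ 1`. `rp2`: `y ^ b ≤ 1 + y`. `rp3`: `y ^ (3/2) ≤ 1 + y²` (`y ≤ 1`: `≤ 1`; `y ≥ 1`: `y ^ (3/2) ≤ y ^ 2`). `Real.div_rpow`.
-/

set_option autoImplicit false

namespace Pool.Agent.Helper27.SX

private theorem split45 (b t u : ℝ) (ht : 0 ≤ t) (hu : 0 < u) : t ^ b = u ^ b * (t / u) ^ b := by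
  rw [Real.div_rpow ht hu.le, mul_div_cancel₀ _ (Real.rpow_pos_of_pos hu b).ne']

theorem rp1 (b t u : ℝ) (hb0 : 0 ≤ b) (hb : b ≤ 1) (ht : 0 ≤ t) (hu : 0 < u) : u ^ b * (t / u - t ^ 2 / (4 * u ^ 2)) ≤ t ^ b := by
  rw [split45 b t u ht hu]
  apply mul_le_mul_of_nonneg_left _ (Real.rpow_nonneg hu.le b)
  have h1 : t ^ 2 / (4 * u ^ 2) = (t / u) ^ 2 / 4 := by field_simp
  rw [h1]
  have hy : 0 ≤ t / u := div_nonneg ht hu.le
  generalize t / u = y at hy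
  rcases le_or_gt y 1 with h | h
  · have h2 : y ≤ y ^ b := by
      rcases hy.eq_or_lt with h0 | h0
      · rw [← h0]
        exact Real.rpow_nonneg le_rfl b
      · calc y = y ^ (1 : ℝ) := (Real.rpow_one y).symm
          _ ≤ y ^ b := Real.rpow_le_rpow_of_exponent_ge h0 h hb
    nlinarith [sq_nonneg y]
  · have h2 : 1 ≤ y ^ b := Real.one_le_rpow h.le hb0
    nlinarith [sq_nonneg (y / 2 - 1)]

theorem rp2 (b t u : ℝ) (hb0 : 0 ≤ b) (hb : b ≤ 1) (ht : 0 ≤ t) (hu : 0 < u) : t ^ b ≤ u ^ b * (1 + t / u) := by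
  rw [split45 b t u ht hu]
  apply mul_le_mul_of_nonneg_left _ (Real.rpow_nonneg hu.le b)
  have hy : 0 ≤ t / u := div_nonneg ht hu.le
  generalize t / u = y at hy
  rcases le_or_gt y 1 with h | h
  · have h2 : y ^ b ≤ 1 := Real.rpow_le_one hy h hb0
    linarith
  · have h2 : y ^ b ≤ y := by
      calc y ^ b ≤ y ^ (1 : ℝ) := Real.rpow_le_rpow_of_exponent_le h.le hb
        _ = y := Real.rpow_one y
    linarith

theorem rp3 (t u : ℝ) (ht : 0 ≤ t) (hu : 0 < u) : t ^ (3 / 2 : ℝ) ≤ u ^ (3 / 2 : ℝ) * (1 + t ^ 2 / u ^ 2) := by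
  rw [split45 (3 / 2) t u ht hu]
  apply mul_le_mul_of_nonneg_left _ (Real.rpow_nonneg hu.le _)
  rw [← div_pow]
  have hy : 0 ≤ t / u := div_nonneg ht hu.le
  generalize t / u = y at hy
  rcases le_or_gt y 1 with h | h
  · have h2 : y ^ (3 / 2 : ℝ) ≤ 1 := Real.rpow_le_one hy h (by norm_num)
    nlinarith [sq_nonneg y]
  · have h2 : y ^ (3 / 2 : ℝ) ≤ y ^ 2 := by
      calc y ^ (3 / 2 : ℝ) ≤ y ^ (2 : ℝ) := Real.rpow_le_rpow_of_exponent_le h.le (by norm_num)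
        _ = y ^ 2 := by rw [← Real.rpow_natCast]; norm_num
    linarith

end Pool.Agent.Helper27.SX
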