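import Pool.Agent.Helper27.SX.B5
import Pool.Agent.Helper27.SX.C1
import Pool.Agent.Helper27.SX.C2b
import Pool.Agent.Helper27.SX.C3
import Pool.Agent.Helper27.SX.C5a

/-!
# SX-C5b: lower bound for the speed on the wreath product (MP_a16d94_pr)

PROOF. `speed_low`: `Y = ball (n + 1)`. `speed_walk`, `low'`, `av_mono`, `av_sum`, `av_left` with `F a = wl a`, `speed_eq`: `speed (walk R) n ≥ av n (fun L => ∑ x ∈ Y, speed R (lam L x)) ≥ c * av n (fun L => ∑ x ∈ Y, (lam L x) ^ b)` (for `lam L x = 0` both sides are 0: `speed_zero`, `b > 0`). `rp1` with `u = 3 sqrt n`, and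
`∑ x ∈ Y, g (lam L x) = (lam L).sum (fun _ => g)` if `g 0 = 0` (for `L` of length `n`: `lam_len`): `≥ c u ^ b (n / (2 u) - 3 n ^ (3/2) / (4 u²)) = c 3 ^ b n ^ (b/2) sqrt n / 12` (`lam_sum`, `lam_sq`).
-/

set_option autoImplicit false

namespace Pool.Agent.Helper27.SX

theorem speed_low {A : Type} [Group A] (R : RW A) (b c : ℝ) (hb : 1 / 2 ≤ b) (hb1 : b ≤ 1) (hc : 0 < c)
    (h : ∀ n : ℕ, 1 ≤ n → c * (n : ℝ) ^ b ≤ speed R n) : ∃ c' : ℝ, 0 < c' ∧ ∀ n : ℕ, 1 ≤ n → c' * (n : ℝ) ^ ((1 + b) / 2) ≤ speed (walk R) n := by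
  classical
  refine ⟨c * 3 ^ b / 12, by positivity, ?_⟩
  intro n hn
  haveI hne : Nonempty (R.Ω × St × Bool) := c2_ne (Ω := R.Ω)
  have hn' : (1 : ℝ) ≤ n := by exact_mod_cast hn
  obtain ⟨r, hr⟩ : ∃ r : ℝ, r = Real.sqrt n := ⟨_, rfl⟩
  have hr0 : 0 < r := by rw [hr]; exact Real.sqrt_pos.2 (by linarith)
  have hr2 : (n : ℝ) = r ^ 2 := by rw [hr]; exact (Real.sq_sqrt (by linarith)).symm
  have hb0 : 0 < b := by linarith
  have hpw : (n : ℝ) ^ ((1 + b) / 2) = r * r ^ b := by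
    have h1 : (1 + b) / 2 = (1 / 2) * (1 + b) := by ring
    rw [h1, Real.rpow_mul (by linarith), ← Real.sqrt_eq_rpow, ← hr, Real.rpow_add hr0,
      Real.rpow_one]
  have h32 : (n : ℝ) ^ (3 / 2 : ℝ) = r ^ 3 := by
    have h1 : (3 / 2 : ℝ) = (1 / 2) * (3 : ℕ) := by norm_num
    rw [h1, Real.rpow_mul (by linarith), ← Real.sqrt_eq_rpow, ← hr, Real.rpow_natCast]
  have hu : 0 < 3 * r := by positivity
  have hub : (3 * r) ^ b = 3 ^ b * r ^ b := Real.mul_rpow (by norm_num) hr0.le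
  have hsum : ∀ (L : List (R.Ω × St × Bool)), L.length = n → ∀ (g : ℕ → ℝ), g 0 = 0 →
      ∑ x ∈ ball (n + 1), g (lam L x) = (lam L).sum (fun _ m => g m) := by
    intro L hL g hg
    rw [Finsupp.sum]
    symm
    apply Finset.sum_subset
    · intro x hx
      rw [mem_ball]
      have := lam_len R L x (Finsupp.mem_support_iff.1 hx)
      omega
    · intro x _ hx
      rw [Finsupp.notMem_support_iff.1 hx, hg]
  have hpt : ∀ m : ℕ, c * (3 * r) ^ b * ((m : ℝ) / (3 * r) - (m : ℝ) ^ 2 / (4 * (3 * r) ^ 2)) ≤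
      speed R m := by
    intro m
    rw [mul_assoc]
    refine le_trans (mul_le_mul_of_nonneg_left
      (rp1 b m (3 * r) hb0.le hb1 (Nat.cast_nonneg _) hu) hc.le) ?_
    rcases Nat.eq_zero_or_pos m with h0 | h0
    · rw [h0, speed_zero, Nat.cast_zero, Real.zero_rpow hb0.ne', mul_zero]
    · exact h m h0
  have h1 : av n (fun L : List (R.Ω × St × Bool) => ∑ x ∈ ball (n + 1), speed R (lam L x)) ≤
      speed (walk R) n := by
    rw [speed_walk]
    have e1 : ∀ x ∈ ball (n + 1), av n (fun L : List (R.Ω × St × Bool) => speed R (lam L x)) =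
        av n (fun L : List (R.Ω × St × Bool) =>
          (wl (Set.range R.s) ((pos R L).left x) : ℝ)) := by
      intro x _
      rw [av_left R n x (fun a => (wl (Set.range R.s) a : ℝ))]
      congr 1
      funext L
      exact speed_eq R _
    rw [av_sum, Finset.sum_congr rfl e1, ← av_sum]
    apply av_mono
    intro L _
    have := low' R L (ball (n + 1))
    exact_mod_cast this
  have h3 : av n (fun L : List (R.Ω × St × Bool) => c * (3 * r) ^ b *
      ((lam L).sum (fun _ m => (m : ℝ)) / (3 * r) -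
        (lam L).sum (fun _ m => (m : ℝ) ^ 2) / (4 * (3 * r) ^ 2))) ≤
      av n (fun L : List (R.Ω × St × Bool) => ∑ x ∈ ball (n + 1), speed R (lam L x)) := by
    apply av_mono
    intro L hL
    rw [← hsum L hL (fun m => (m : ℝ)) Nat.cast_zero, ← hsum L hL (fun m => (m : ℝ) ^ 2) (by simp),
      Finset.sum_div, Finset.sum_div, ← Finset.sum_sub_distrib, Finset.mul_sum]
    exact Finset.sum_le_sum fun x _ => hpt (lam L x)
  have h4 : av n (fun L : List (R.Ω × St × Bool) => c * (3 * r) ^ b *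
      ((lam L).sum (fun _ m => (m : ℝ)) / (3 * r) -
        (lam L).sum (fun _ m => (m : ℝ) ^ 2) / (4 * (3 * r) ^ 2))) =
      c * (3 * r) ^ b * ((n : ℝ) / 2 / (3 * r) - av n (fun L : List (R.Ω × St × Bool) =>
        (lam L).sum (fun _ m => (m : ℝ) ^ 2)) / (4 * (3 * r) ^ 2)) := by
    have e1 : (fun L : List (R.Ω × St × Bool) => c * (3 * r) ^ b *
        ((lam L).sum (fun _ m => (m : ℝ)) / (3 * r) -
          (lam L).sum (fun _ m => (m : ℝ) ^ 2) / (4 * (3 * r) ^ 2))) =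
        fun L => (c * (3 * r) ^ b / (3 * r)) * (lam L).sum (fun _ m => (m : ℝ)) -
          (c * (3 * r) ^ b / (4 * (3 * r) ^ 2)) * (lam L).sum (fun _ m => (m : ℝ) ^ 2) := by
      funext L
      ring
    rw [e1, av_sub, av_mul, av_mul, lam_sum]
    ring
  have h5 := lam_sq (Ω := R.Ω) n
  rw [h32] at h5
  rw [h4] at h3
  refine le_trans ?_ (h3.trans h1)
  obtain ⟨Q, hQ⟩ : ∃ Q : ℝ, Q = av n (fun L : List (R.Ω × St × Bool) =>
        (lam L).sum (fun _ m => (m : ℝ) ^ 2)) := ⟨_, rfl⟩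
  rw [← hQ] at h5 ⊢
  have h6 : Q / (4 * (3 * r) ^ 2) ≤ r / 12 := by
    rw [div_le_iff₀ (by positivity)]
    calc Q ≤ 3 * r ^ 3 := h5
      _ = r / 12 * (4 * (3 * r) ^ 2) := by ring
  have h7 : (n : ℝ) / 2 / (3 * r) = r / 6 := by
    rw [hr2]
    field_simp
    norm_num
  rw [hpw, h7, hub]
  have h8 : 0 ≤ c * (3 ^ b * r ^ b) := by positivity
  have h9 : c * (3 ^ b * r ^ b) * (r / 12) ≤
      c * (3 ^ b * r ^ b) * (r / 6 - Q / (4 * (3 * r) ^ 2)) := by
    apply mul_le_mul_of_nonneg_left _ h8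
    linarith
  refine le_trans (le_of_eq ?_) h9
  ring

end Pool.Agent.Helper27.SX
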