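import Pool.Agent.Helper27.SX.B5
import Pool.Agent.Helper27.SX.C1
import Pool.Agent.Helper27.SX.C2b
import Pool.Agent.Helper27.SX.C3
import Pool.Agent.Helper27.SX.C5a

/-!
# SX-C5c: upper bound for the speed on the wreath product (MP_a16d94_pr)

PROOF. `Y = ball (n + 1)`. `speed_up`: `upper`, and `∑ x ∈ ball (rad L), wl (left x) ≤ ∑ x ∈ Y, wl (left x)` for `L` of length `n` (terms outside `Y` are 0: `lam_len`, `left_one`); as before `av n (∑ x ∈ Y, wl (left x)) = av n (∑ x ∈ Y, speed R (lam L x)) ≤ C av n (∑ x ∈ Y, (lam L x) ^ b)`; `∑ x ∈ Y, (lam L x) ^ b ≤ u ^ b (3 rad L + (∑ x ∈ Y, lam L x) / u)` (`rp2`; terms with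
`lam L x ≠ 0` have `x ∈ ball (rad L)`, `lam_zero`, `card_ball`), `u = sqrt n`; `av n (rad L) ≤ sqrt (20 n)` (`av_sq_le`, `rad_bound`). `(rad L + 1) ^ (3/2) ≤ u ^ (3/2) (1 + (rad L + 1)² / u²)`, average `≤ 43 n ^ (3/4)`, and `n ^ (3/4) ≤ n ^ ((1 + b) / 2)` as `b ≥ 1/2`.
`C ≥ 0` because `speed R 1 ≥ 0`.
-/

set_option autoImplicit false

namespace Pool.Agent.Helper27.SX

/-- the sum of the powers of the numbers of lamp steps -/
private theorem sum_pow6 {A : Type} [Group A] (R : RW A) (b u : ℝ) (hb : 1 / 2 ≤ b) (hb1 : b ≤ 1) (hu : 0 < u)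
    (L : List (R.Ω × St × Bool)) (Y : Finset X) :
    ∑ x ∈ Y, (lam L x : ℝ) ^ b ≤ u ^ b * (3 * (rad L : ℝ) + ((lam L).sum fun _ m => (m : ℝ)) / u) := by
  classical
  have hb0 : b ≠ 0 := by linarith
  have hnn : ∀ x, 0 ≤ (lam L x : ℝ) ^ b := fun x => Real.rpow_nonneg (Nat.cast_nonneg _) _
  rw [← Finset.sum_filter_ne_zero]
  have h1 : (Y.filter fun x => (lam L x : ℝ) ^ b ≠ 0) ⊆ (lam L).support := by
    intro x hx
    rw [Finset.mem_filter] at hx
    rw [Finsupp.mem_support_iff]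
    intro h0
    apply hx.2
    rw [h0, Nat.cast_zero, Real.zero_rpow hb0]
  refine (Finset.sum_le_sum_of_subset_of_nonneg h1 fun x _ _ => hnn x).trans ?_
  refine (Finset.sum_le_sum fun x _ => rp2 b (lam L x : ℝ) u (by linarith) hb1 (Nat.cast_nonneg _) hu).trans ?_
  rw [← Finset.mul_sum, Finset.sum_add_distrib, ← Finset.sum_div]
  refine mul_le_mul_of_nonneg_left ?_ (Real.rpow_nonneg hu.le _)
  refine add_le_add ?_ (le_of_eq rfl)
  have h2 : (lam L).support ⊆ ball (rad L) := by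
    intro x hx
    rw [Finsupp.mem_support_iff] at hx
    rw [mem_ball]
    by_contra hcon
    exact hx (lam_zero R L x (not_lt.1 hcon))
  have h3 := Finset.card_le_card h2
  rw [card_ball] at h3
  rw [Finset.sum_const, nsmul_eq_mul, mul_one]
  calc ((lam L).support.card : ℝ) ≤ ((3 * rad L : ℕ) : ℝ) := Nat.cast_le.2 h3
    _ = 3 * (rad L : ℝ) := by push_cast; ring

/-- terms outside of the ball of radius `n + 1` vanish -/
private theorem sum_ball6 {A : Type} [Group A] (R : RW A) (L : List (R.Ω × St × Bool)) (n : ℕ) (hL : L.length = n) :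
    ∑ x ∈ ball (rad L), wl (Set.range R.s) ((pos R L).left x) ≤
      ∑ x ∈ ball (n + 1), wl (Set.range R.s) ((pos R L).left x) := by
  refine Finset.sum_le_sum_of_ne_zero fun x _ hx => ?_
  rw [mem_ball]
  by_contra hcon
  apply hx
  have h0 : lam L x = 0 := by
    by_contra h1
    have h2 := lam_len R L x h1
    omega
  rw [left_one R L x h0, wl_one]

theorem speed_up {A : Type} [Group A] (R : RW A) (b C : ℝ) (hb : 1 / 2 ≤ b) (hb1 : b ≤ 1)
    (h : ∀ n : ℕ, 1 ≤ n → speed R n ≤ C * (n : ℝ) ^ b) : ∃ C' : ℝ, ∀ n : ℕ, 1 ≤ n → speed (walk R) n ≤ C' * (n : ℝ) ^ ((1 + b) / 2) := by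
  have : Nonempty St := ⟨⟨(1, 0), by decide⟩⟩
  obtain ⟨C0, hC0, hup⟩ := upper R
  have hs0 : ∀ n, 0 ≤ speed R n := by
    intro n
    rw [speed_eq]
    exact av_nonneg _ _ fun L _ => Nat.cast_nonneg _
  have hC : 0 ≤ C := by
    have h1 := h 1 le_rfl
    rw [Nat.cast_one, Real.one_rpow, mul_one] at h1
    exact (hs0 1).trans h1
  have hsp : ∀ m : ℕ, speed R m ≤ C * (m : ℝ) ^ b := by
    intro m
    rcases Nat.eq_zero_or_pos m with rfl | hm
    · rw [speed_zero]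
      exact mul_nonneg hC (Real.rpow_nonneg (Nat.cast_nonneg _) _)
    · exact h m hm
  refine ⟨C * (3 * Real.sqrt 20 + 1 / 2) + 43 * C0, fun n hn => ?_⟩
  have hnR : (1 : ℝ) ≤ n := by exact_mod_cast hn
  have hn0 : (0 : ℝ) < n := by linarith
  obtain ⟨u, hu⟩ : ∃ u, u = Real.sqrt n := ⟨_, rfl⟩
  have hu0 : 0 < u := by rw [hu]; exact Real.sqrt_pos.2 hn0
  have huu : u * u = n := by rw [hu]; exact Real.mul_self_sqrt hn0.le
  have hur : u = (n : ℝ) ^ (1 / 2 : ℝ) := by rw [hu, Real.sqrt_eq_rpow]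
  have hub : u ^ b * u = (n : ℝ) ^ ((1 + b) / 2) := by
    have e : u ^ b * u = u ^ (b + 1) := by rw [Real.rpow_add hu0, Real.rpow_one]
    rw [e, hur, ← Real.rpow_mul hn0.le]
    congr 1
    ring
  have hu32 : u ^ (3 / 2 : ℝ) ≤ (n : ℝ) ^ ((1 + b) / 2) := by
    rw [hur, ← Real.rpow_mul hn0.le]
    exact Real.rpow_le_rpow_of_exponent_le hnR (by linarith)
  -- the radius
  have hrad2 := rad_bound (Ω := R.Ω) n hn
  have hrad : av n (fun L : List (R.Ω × St × Bool) => (rad L : ℝ)) ≤ Real.sqrt 20 * u := by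
    have h1 := av_sq_le n (fun L : List (R.Ω × St × Bool) => (rad L : ℝ))
    have h2 := Real.le_sqrt_of_sq_le (h1.trans hrad2)
    rw [Real.sqrt_mul (by norm_num), ← hu] at h2
    exact h2
  have hrad3 : av n (fun L : List (R.Ω × St × Bool) => ((rad L : ℝ) + 1) ^ 2) ≤ 42 * n := by
    have h1 : av n (fun L : List (R.Ω × St × Bool) => ((rad L : ℝ) + 1) ^ 2) ≤
        av n (fun L : List (R.Ω × St × Bool) => 2 * (rad L : ℝ) ^ 2 + 2) := by
      refine av_mono _ _ _ fun L _ => ?_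
      nlinarith [sq_nonneg ((rad L : ℝ) - 1)]
    have h2 : av n (fun L : List (R.Ω × St × Bool) => 2 * (rad L : ℝ) ^ 2 + 2) =
        2 * av n (fun L : List (R.Ω × St × Bool) => (rad L : ℝ) ^ 2) + 2 := by
      rw [av_add n (fun L : List (R.Ω × St × Bool) => 2 * (rad L : ℝ) ^ 2) (fun _ => 2),
        av_mul n (fun L : List (R.Ω × St × Bool) => (rad L : ℝ) ^ 2) 2, av_const]
    linarith
  -- the lamps
  have hlamp : av n (fun L : List (R.Ω × St × Bool) =>
      ∑ x ∈ ball (n + 1), (wl (Set.range R.s) ((pos R L).left x) : ℝ)) ≤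
      C * u ^ b * 3 * av n (fun L : List (R.Ω × St × Bool) => (rad L : ℝ)) + C * u ^ b / u * (n / 2) := by
    rw [av_sum n (ball (n + 1)) (fun x (L : List (R.Ω × St × Bool)) =>
      (wl (Set.range R.s) ((pos R L).left x) : ℝ))]
    have h1 : ∀ x ∈ ball (n + 1), av n (fun L : List (R.Ω × St × Bool) =>
        (wl (Set.range R.s) ((pos R L).left x) : ℝ)) ≤
        av n (fun L : List (R.Ω × St × Bool) => C * (lam L x : ℝ) ^ b) := by
      intro x _
      rw [av_left R n x (fun a => (wl (Set.range R.s) a : ℝ))]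
      refine av_mono _ _ _ fun L _ => ?_
      have h2 := hsp (lam L x)
      rw [speed_eq] at h2
      exact h2
    refine (Finset.sum_le_sum h1).trans ?_
    rw [← av_sum n (ball (n + 1)) (fun x (L : List (R.Ω × St × Bool)) => C * (lam L x : ℝ) ^ b)]
    have h3 : av n (fun L : List (R.Ω × St × Bool) => ∑ x ∈ ball (n + 1), C * (lam L x : ℝ) ^ b) ≤
        av n (fun L : List (R.Ω × St × Bool) => C * u ^ b * 3 * (rad L : ℝ) +
          C * u ^ b / u * (lam L).sum fun _ m => (m : ℝ)) := by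
      refine av_mono _ _ _ fun L _ => ?_
      rw [← Finset.mul_sum]
      have h4 := mul_le_mul_of_nonneg_left (sum_pow6 R b u hb hb1 hu0 L (ball (n + 1))) hC
      refine h4.trans (le_of_eq ?_)
      ring
    refine h3.trans (le_of_eq ?_)
    rw [av_add n (fun L : List (R.Ω × St × Bool) => C * u ^ b * 3 * (rad L : ℝ))
        (fun L : List (R.Ω × St × Bool) => C * u ^ b / u * (lam L).sum fun _ m => (m : ℝ)),
      av_mul n (fun L : List (R.Ω × St × Bool) => (rad L : ℝ)) (C * u ^ b * 3),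
      av_mul n (fun L : List (R.Ω × St × Bool) => (lam L).sum fun _ m => (m : ℝ)) (C * u ^ b / u), lam_sum]
  -- the position
  have hpt : speed (walk R) n ≤ av n (fun L : List (R.Ω × St × Bool) =>
      (∑ x ∈ ball (n + 1), (wl (Set.range R.s) ((pos R L).left x) : ℝ)) +
        C0 * (u ^ (3 / 2 : ℝ) * (1 + ((rad L : ℝ) + 1) ^ 2 / u ^ 2))) := by
    rw [speed_walk]
    refine av_mono _ _ _ fun L hL => ?_
    refine (hup L).trans (add_le_add ?_ ?_)
    · have h1 := sum_ball6 R L n hL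
      have h2 : ((∑ x ∈ ball (rad L), wl (Set.range R.s) ((pos R L).left x) : ℕ) : ℝ) ≤
          ((∑ x ∈ ball (n + 1), wl (Set.range R.s) ((pos R L).left x) : ℕ) : ℝ) := Nat.cast_le.2 h1
      refine h2.trans (le_of_eq ?_)
      push_cast
      rfl
    · exact mul_le_mul_of_nonneg_left (rp3 ((rad L : ℝ) + 1) u (by positivity) hu0) hC0.le
  have hsplit : av n (fun L : List (R.Ω × St × Bool) =>
      (∑ x ∈ ball (n + 1), (wl (Set.range R.s) ((pos R L).left x) : ℝ)) +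
        C0 * (u ^ (3 / 2 : ℝ) * (1 + ((rad L : ℝ) + 1) ^ 2 / u ^ 2))) =
      av n (fun L : List (R.Ω × St × Bool) =>
        ∑ x ∈ ball (n + 1), (wl (Set.range R.s) ((pos R L).left x) : ℝ)) +
        (C0 * u ^ (3 / 2 : ℝ) + C0 * u ^ (3 / 2 : ℝ) / u ^ 2 *
          av n (fun L : List (R.Ω × St × Bool) => ((rad L : ℝ) + 1) ^ 2)) := by
    have e1 : (fun L : List (R.Ω × St × Bool) =>
        (∑ x ∈ ball (n + 1), (wl (Set.range R.s) ((pos R L).left x) : ℝ)) +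
          C0 * (u ^ (3 / 2 : ℝ) * (1 + ((rad L : ℝ) + 1) ^ 2 / u ^ 2))) =
        fun L : List (R.Ω × St × Bool) =>
        (∑ x ∈ ball (n + 1), (wl (Set.range R.s) ((pos R L).left x) : ℝ)) +
          (C0 * u ^ (3 / 2 : ℝ) + C0 * u ^ (3 / 2 : ℝ) / u ^ 2 * ((rad L : ℝ) + 1) ^ 2) := by
      funext L
      ring
    rw [e1, av_add n (fun L : List (R.Ω × St × Bool) =>
        ∑ x ∈ ball (n + 1), (wl (Set.range R.s) ((pos R L).left x) : ℝ))
        (fun L : List (R.Ω × St × Bool) =>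
          C0 * u ^ (3 / 2 : ℝ) + C0 * u ^ (3 / 2 : ℝ) / u ^ 2 * ((rad L : ℝ) + 1) ^ 2),
      av_add n (fun _ : List (R.Ω × St × Bool) => C0 * u ^ (3 / 2 : ℝ))
        (fun L : List (R.Ω × St × Bool) => C0 * u ^ (3 / 2 : ℝ) / u ^ 2 * ((rad L : ℝ) + 1) ^ 2),
      av_mul n (fun L : List (R.Ω × St × Bool) => ((rad L : ℝ) + 1) ^ 2) (C0 * u ^ (3 / 2 : ℝ) / u ^ 2),
      av_const]
  rw [hsplit] at hpt
  have hub0 : 0 ≤ u ^ b := Real.rpow_nonneg hu0.le _
  have hu320 : 0 ≤ u ^ (3 / 2 : ℝ) := Real.rpow_nonneg hu0.le _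
  have f1 : C * u ^ b * 3 * av n (fun L : List (R.Ω × St × Bool) => (rad L : ℝ)) ≤
      C * u ^ b * 3 * (Real.sqrt 20 * u) :=
    mul_le_mul_of_nonneg_left hrad (by positivity)
  have f2 : C * u ^ b / u * (n / 2) = C * (u ^ b * u) * (1 / 2) := by
    rw [← huu]
    field_simp
  have f3 : C0 * u ^ (3 / 2 : ℝ) / u ^ 2 *
      av n (fun L : List (R.Ω × St × Bool) => ((rad L : ℝ) + 1) ^ 2) ≤ C0 * u ^ (3 / 2 : ℝ) * 42 := by
    have g1 : C0 * u ^ (3 / 2 : ℝ) / u ^ 2 *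
        av n (fun L : List (R.Ω × St × Bool) => ((rad L : ℝ) + 1) ^ 2) ≤
        C0 * u ^ (3 / 2 : ℝ) / u ^ 2 * (42 * n) := mul_le_mul_of_nonneg_left hrad3 (by positivity)
    refine g1.trans (le_of_eq ?_)
    rw [← huu]
    field_simp
  have f4 : C0 * u ^ (3 / 2 : ℝ) ≤ C0 * (n : ℝ) ^ ((1 + b) / 2) := mul_le_mul_of_nonneg_left hu32 hC0.le
  have f5 : C * u ^ b * 3 * (Real.sqrt 20 * u) = C * 3 * Real.sqrt 20 * (n : ℝ) ^ ((1 + b) / 2) := by
    rw [← hub]
    ring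
  rw [hub] at f2
  calc speed (walk R) n ≤ C * u ^ b * 3 * (Real.sqrt 20 * u) + C * u ^ b / u * (n / 2) +
        (C0 * u ^ (3 / 2 : ℝ) + C0 * u ^ (3 / 2 : ℝ) * 42) := by linarith
    _ = C * 3 * Real.sqrt 20 * (n : ℝ) ^ ((1 + b) / 2) + C * (n : ℝ) ^ ((1 + b) / 2) * (1 / 2) +
        43 * (C0 * u ^ (3 / 2 : ℝ)) := by rw [f5, f2]; ring
    _ ≤ C * 3 * Real.sqrt 20 * (n : ℝ) ^ ((1 + b) / 2) + C * (n : ℝ) ^ ((1 + b) / 2) * (1 / 2) +
        43 * (C0 * (n : ℝ) ^ ((1 + b) / 2)) := by linarith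
    _ = (C * (3 * Real.sqrt 20 + 1 / 2) + 43 * C0) * (n : ℝ) ^ ((1 + b) / 2) := by ring

end Pool.Agent.Helper27.SX
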