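import Mathlib

/-!
# Project SX (MP_a16d94_pr): finitely presented groups with intermediate speed exponents. Definitions

Paper proof: /team-store/h27_SX_proof.md.
-/

set_option autoImplicit false

namespace Pool.Agent.Helper27.SX

/-- three rays -/
abbrev X : Type := Fin 3 × ℕ

/-- the base point -/
def x0 : X := (0, 0)

/-- ray `j` is shifted inwards, ray `i` outwards, the point `(j, 0)` goes to `(i, 0)` -/
def gf (i j : Fin 3) (x : X) : X :=
  if x.1 = j then (if x.2 = 0 then (i, 0) else (j, x.2 - 1)) else if x.1 = i then (i, x.2 + 1) else x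

lemma gf_gf {i j : Fin 3} (h : i ≠ j) (x : X) : gf j i (gf i j x) = x := by
  obtain ⟨k, m⟩ := x
  unfold gf
  by_cases hk : k = j
  · subst hk
    cases m with
    | zero => simp
    | succ m => simp [h.symm]
  · by_cases hk' : k = i
    · subst hk'
      simp [h]
    · simp [hk, hk']

/-- the six shifts -/
abbrev St : Type := {p : Fin 3 × Fin 3 // p.1 ≠ p.2}

/-- the inverse shift -/
def inv (p : St) : St := ⟨(p.1.2, p.1.1), p.2.symm⟩

/-- the shift of two rays: ray `p.2` inwards, ray `p.1` outwards -/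
def T (p : St) : Equiv.Perm X where
  toFun := gf p.1.1 p.1.2
  invFun := gf p.1.2 p.1.1
  left_inv := gf_gf p.2
  right_inv := gf_gf p.2.symm

/-- ray 0 inwards, ray 1 outwards -/
def G1 : Equiv.Perm X := T ⟨(1, 0), by decide⟩

/-- ray 0 inwards, ray 2 outwards -/
def G2 : Equiv.Perm X := T ⟨(2, 0), by decide⟩

/-- the unrestricted permutational wreath product of `A` and `Sym X` -/
abbrev W (A : Type) [Group A] : Type := (X → A) ⋊[mulAutArrow] Equiv.Perm X

/-- the lamp at the base point -/
def lamp {A : Type} [Group A] : A →* W A := SemidirectProduct.inl.comp (MonoidHom.mulSingle (fun _ : X => A) x0)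

/-- the shifts as elements of the wreath product -/
def sft {A : Type} [Group A] : Equiv.Perm X →* W A := SemidirectProduct.inr

/-- the permutational wreath product of `A` and Houghton's group on three rays -/
def GA (A : Type) [Group A] : Subgroup (W A) := Subgroup.closure (Set.range (lamp (A := A)) ∪ {sft G1, sft G2})

/-! ### the presentation -/

section
variable {Q : Type*} [Group Q]

/-- `al g1 g2` becomes the transposition of the first two points of ray 0 -/
def al (g1 g2 : Q) : Q := g1⁻¹ * g2⁻¹ * g1 * g2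

/-- conjugates -/
def aa (g s : Q) (p : ℤ) : Q := g ^ (-p) * s * g ^ p

/-- the relations of Houghton's group -/
structure Rel (g1 g2 : Q) : Prop where
  r1 : al g1 g2 * al g1 g2 = 1
  r2 : aa g1 (al g1 g2) 1 = aa g2 (al g1 g2) 1
  r3 : al g1 g2 * aa g1 (al g1 g2) 1 * al g1 g2 = aa g1 (al g1 g2) 1 * al g1 g2 * aa g1 (al g1 g2) 1
  r4 : al g1 g2 * aa g1 (al g1 g2) 2 = aa g1 (al g1 g2) 2 * al g1 g2

/-- the relations of the wreath product -/
structure WRel {A : Type*} [Group A] (ι : A →* Q) (g1 g2 : Q) : Prop where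
  rel : Rel g1 g2
  w1 : ∀ a, Commute (ι a) (aa g1 (al g1 g2) 1)
  w2 : ∀ a, Commute (ι a) (g1 * al g1 g2)
  w3 : ∀ a, Commute (ι a) (g2 * al g1 g2)
  w4 : ∀ a, Commute (ι a) (g2 * g1⁻¹)
  w5 : ∀ a, Commute (ι a) (aa g1 (al g1 g2) (-2))
  w6 : ∀ a a', Commute (ι a) (g1⁻¹ * ι a' * g1)

/-- word length -/
noncomputable def wl (S : Set Q) (g : Q) : ℕ := sInf {n | ∃ l : List Q, l.length = n ∧ (∀ x ∈ l, x ∈ S) ∧ l.prod = g}

/-- `g` is a product of at most `n` elements of `S` -/
def Len (S : Set Q) (g : Q) (n : ℕ) : Prop := ∃ l : List Q, l.length ≤ n ∧ (∀ x ∈ l, x ∈ S) ∧ l.prod = g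

end

/-! ### random walks -/

/-- a symmetric finitely supported generating random walk: the step is `s ω`, `ω` uniform -/
structure RW (G : Type) [Group G] where
  Ω : Type
  fin : Fintype Ω
  ne : Nonempty Ω
  s : Ω → G
  inv : Ω ≃ Ω
  s_inv : ∀ ω, s (inv ω) = (s ω)⁻¹
  gen : Subgroup.closure (Set.range s) = ⊤

instance {G : Type} [Group G] (R : RW G) : Fintype R.Ω := R.fin
instance {G : Type} [Group G] (R : RW G) : Nonempty R.Ω := R.ne

/-- expected word length of the `n`-th position -/
noncomputable def speed {G : Type} [Group G] (R : RW G) (n : ℕ) : ℝ :=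
  (∑ w : Fin n → R.Ω, (wl (Set.range R.s) (List.ofFn fun i => R.s (w i)).prod : ℝ)) / (Fintype.card R.Ω : ℝ) ^ n

/-- `G` has a symmetric finitely supported generating random walk with speed of the exact order `n^β` -/
def HasSp (G : Type) [Group G] (β : ℝ) : Prop :=
  ∃ R : RW G, ∃ c C : ℝ, 0 < c ∧ ∀ n : ℕ, 1 ≤ n → c * (n : ℝ) ^ β ≤ speed R n ∧ speed R n ≤ C * (n : ℝ) ^ β

/-- average over the lists of length `n` -/
noncomputable def av {Ω : Type} [Fintype Ω] : ℕ → (List Ω → ℝ) → ℝ
  | 0, F => F []
  | n + 1, F => (∑ ω, av n (fun L => F (ω :: L))) / (Fintype.card Ω : ℝ)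

/-! ### the walk on the wreath product -/

section
variable {A : Type} [Group A]

/-- the steps: a lamp at the base point or a shift -/
def stp (R : RW A) (o : R.Ω × St × Bool) : W A := if o.2.2 then lamp (R.s o.1) else sft (T o.2.1)

/-- the position after the steps of the list -/
def pos (R : RW A) (L : List (R.Ω × St × Bool)) : W A := (L.map (stp R)).prod

/-- the number of steps which change the lamp at `x` -/
noncomputable def lam {Ω : Type} : List (Ω × St × Bool) → X →₀ ℕ
  | [] => 0
  | o :: L => if o.2.2 then Finsupp.single x0 1 + lam L else (lam L).equivMapDomain (T o.2.1)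

/-- shift vector of a step on ray `j` -/
def vv (o : St × Bool) (j : Fin 3) : ℤ := if o.2 then 0 else (if o.1.1.1 = j then 1 else 0) - (if o.1.1.2 = j then 1 else 0)

/-- total shift on ray `j` -/
def SS {Ω : Type} (j : Fin 3) : List (Ω × St × Bool) → ℤ
  | [] => 0
  | o :: L => vv o.2 j + SS j L

/-- the largest absolute value of a partial sum starting at `s` -/
def mx {Ω : Type} (j : Fin 3) : ℤ → List (Ω × St × Bool) → ℤ
  | s, [] => |s|
  | s, o :: L => max |s| (mx j (s + vv o.2 j) L)

/-- radius -/
def rad {Ω : Type} (L : List (Ω × St × Bool)) : ℕ := 1 + ∑ j : Fin 3, (mx j 0 L).toNat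

end

end Pool.Agent.Helper27.SX
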