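import Pool.Agent.Helper27.SX.Defs

/-!
# Project SX (MP_a16d94_pr): more definitions for the algebraic part
-/

set_option autoImplicit false

namespace Pool.Agent.Helper27.SX

section
variable {Q : Type*} [Group Q]

/-- adjacent transpositions of the line through rays 0 and 1 -/
def pa (g1 g2 : Q) (p : ℤ) : Q := aa g1 (al g1 g2) p

/-- adjacent transpositions of the line through rays 0 and 2 -/
def qa (g1 g2 : Q) (p : ℤ) : Q := aa g2 (al g1 g2) p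

/-- the transposition of `(i, m)` and `(i, m + 1)` -/
def bb (g1 g2 : Q) (i : Fin 3) (m : ℕ) : Q :=
  if i = 0 then pa g1 g2 m else if i = 1 then pa g1 g2 (-2 - m) else qa g1 g2 (-2 - m)

/-- `b_i (m + k - 1) ... b_i (m)`: the cycle which moves `(i, m)` to `(i, m + k)` -/
def DD (g1 g2 : Q) (i : Fin 3) (m : ℕ) : ℕ → Q
  | 0 => 1
  | k + 1 => bb g1 g2 i (m + k) * DD g1 g2 i m k

/-- the transposition of `(i, 0)` and `(j, 0)`: `e01 = a (-1)`, `e02 = a' (-1)`, `e12 = g1 e02 g1⁻¹` -/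
def ee (g1 g2 : Q) (i j : Fin 3) : Q :=
  if i ≠ 2 ∧ j ≠ 2 then pa g1 g2 (-1) else if i ≠ 1 ∧ j ≠ 1 then qa g1 g2 (-1) else g1 * qa g1 g2 (-1) * g1⁻¹

/-- the transposition of `x` and `y` -/
def tt (g1 g2 : Q) (x y : X) : Q :=
  if x.1 = y.1 then
    (if x.2 < y.2 then DD g1 g2 x.1 (x.2 + 1) (y.2 - x.2 - 1) * bb g1 g2 x.1 x.2 * (DD g1 g2 x.1 (x.2 + 1) (y.2 - x.2 - 1))⁻¹
    else DD g1 g2 x.1 (y.2 + 1) (x.2 - y.2 - 1) * bb g1 g2 x.1 y.2 * (DD g1 g2 x.1 (y.2 + 1) (x.2 - y.2 - 1))⁻¹)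
  else (DD g1 g2 x.1 0 x.2 * DD g1 g2 y.1 0 y.2) * ee g1 g2 x.1 y.1 * (DD g1 g2 x.1 0 x.2 * DD g1 g2 y.1 0 y.2)⁻¹

/-- `w (k) = a (k-1) ... a (0)` -/
def ww (g1 g2 : Q) : ℕ → Q
  | 0 => 1
  | k + 1 => pa g1 g2 k * ww g1 g2 k

/-- exchange rays 1 and 2 -/
def fl (i : Fin 3) : Fin 3 := if i = 1 then 2 else if i = 2 then 1 else 0

/-- exchange rays 1 and 2 -/
def flX (x : X) : X := (fl x.1, x.2)

/-- the representative of the point `x`: it moves `x0` to `x` -/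
def rr (g1 g2 : Q) (x : X) : Q := if x.1 = 0 then g1 ^ (-(x.2 : ℤ)) else if x.1 = 1 then g1 ^ (x.2 + 1) else g2 ^ (x.2 + 1)

/-- the lamp group at the point `x` -/
def lx {A : Type*} [Group A] (ι : A →* Q) (g1 g2 : Q) (x : X) : A →* Q := (MulAut.conj (rr g1 g2 x)).toMonoidHom.comp ι

/-- the group generated by the two shifts -/
def HH (g1 g2 : Q) : Subgroup Q := Subgroup.closure {g1, g2}

end

end Pool.Agent.Helper27.SX
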