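import Pool.Agent.Helper27.SX.C5b
import Pool.Agent.Helper27.SX.C5c
import Pool.Agent.Helper27.SX.Base
import Pool.Agent.Helper27.SX.A11

set_option autoImplicit false

namespace Pool.Agent.Helper27.SX

theorem step (A : Type) [Group A] (b : ℝ) (hb : 1 / 2 ≤ b) (hb1 : b ≤ 1) (h : HasSp A b) : HasSp (GA A) ((1 + b) / 2) := by
  obtain ⟨R, c, C, hc, h⟩ := h
  obtain ⟨c', hc', h1⟩ := speed_low R b c hb hb1 hc fun n hn => (h n hn).1
  obtain ⟨C', h2⟩ := speed_up R b C hb hb1 fun n hn => (h n hn).2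
  exact ⟨walk R, c', C', hc', fun n hn => ⟨h1 n hn, h2 n hn⟩⟩

/-- for every `k` there is a finitely presented group with speed of the exact order `n ^ (1 - 2 ^ (-(k + 1)))` -/
theorem iter (k : ℕ) : ∃ (G : Type) (_ : Group G), Group.IsFinitelyPresented G ∧ HasSp G (1 - (1 / 2 : ℝ) ^ (k + 1)) := by
  induction k with
  | zero =>
    refine ⟨Multiplicative ℤ, inferInstance, inferInstance, ?_⟩
    have h := base
    norm_num at h ⊢
    exact h
  | succ k ih =>
    obtain ⟨A, hA, h1, h2⟩ := ih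
    have h3 : (1 / 2 : ℝ) ^ (k + 1) ≤ 1 / 2 := by
      have := pow_le_one₀ (n := k) (by norm_num : (0 : ℝ) ≤ 1 / 2) (by norm_num)
      rw [pow_succ]
      nlinarith
    have h4 : (0 : ℝ) < (1 / 2 : ℝ) ^ (k + 1) := by positivity
    have h5 := step A _ (by linarith) (by linarith) h2
    refine ⟨GA A, inferInstance, fp A, ?_⟩
    have h6 : (1 + (1 - (1 / 2 : ℝ) ^ (k + 1))) / 2 = 1 - (1 / 2 : ℝ) ^ (k + 1 + 1) := by
      rw [pow_succ _ (k + 1)]
      ring
    rw [h6] at h5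
    exact h5

end Pool.Agent.Helper27.SX
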