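import Pool.Agent.Helper27.SX.Len

/-!
# SX-WALK: the random walk on the wreath product (MP_a16d94_pr)

PROOFS. `T_mem`: the six shifts are `G1 = T (1,0)`, `G1⁻¹ = T (0,1)`, `G2 = T (2,0)`, `G2⁻¹ = T (0,2)`, `T (2,1) = G2 * G1⁻¹`, `T (1,2) = G1 * G2⁻¹` (check on points). `stp_mem`. `stp_inv`: `(lamp a)⁻¹ = lamp a⁻¹`, `(T p)⁻¹ = T (inv p)`.
`closure_stp`: the closure of `range (stp R)` contains `lamp a` for all `a` (`lamp` is a homomorphism and `R.gen`) and `sft G1`, `sft G2`; conversely `stp_mem`.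
-/

set_option autoImplicit false

namespace Pool.Agent.Helper27.SX

variable {A : Type} [Group A]

private theorem gf_comp45 {i j k : Fin 3} (hij : i ≠ j) (hjk : j ≠ k) (hik : i ≠ k) (x : X) :
    gf i j (gf j k x) = gf i k x := by
  obtain ⟨l, m⟩ := x
  unfold gf
  by_cases h1 : l = k
  · subst h1
    cases m with
    | zero => simp
    | succ m => simp [Ne.symm hjk, Ne.symm hik]
  · by_cases h2 : l = j
    · subst h2
      simp [h1, Ne.symm hij]
    · by_cases h3 : l = i
      · subst h3
        simp [h1, h2]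
      · simp [h1, h2, h3]

theorem T_inv (p : St) : (T p)⁻¹ = T (inv p) := rfl

private theorem T_comp45 {i j k : Fin 3} (hij : i ≠ j) (hjk : j ≠ k) (hik : i ≠ k) :
    T ⟨(i, j), hij⟩ * T ⟨(j, k), hjk⟩ = T ⟨(i, k), hik⟩ := by
  ext1 x
  exact gf_comp45 hij hjk hik x

theorem T_mem (p : St) : T p ∈ Subgroup.closure {G1, G2} := by
  have h10 : T ⟨(1, 0), by decide⟩ ∈ Subgroup.closure {G1, G2} :=
    Subgroup.subset_closure (Or.inl rfl)
  have h20 : T ⟨(2, 0), by decide⟩ ∈ Subgroup.closure {G1, G2} :=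
    Subgroup.subset_closure (Or.inr rfl)
  have h01 : T ⟨(0, 1), by decide⟩ ∈ Subgroup.closure {G1, G2} := Subgroup.inv_mem _ h10
  have h02 : T ⟨(0, 2), by decide⟩ ∈ Subgroup.closure {G1, G2} := Subgroup.inv_mem _ h20
  have h21 : T ⟨(2, 1), by decide⟩ ∈ Subgroup.closure {G1, G2} := by
    rw [← T_comp45 (i := 2) (j := 0) (k := 1) (by decide) (by decide) (by decide)]
    exact Subgroup.mul_mem _ h20 h01
  have h12 : T ⟨(1, 2), by decide⟩ ∈ Subgroup.closure {G1, G2} := Subgroup.inv_mem _ h21
  obtain ⟨⟨i, j⟩, h⟩ := p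
  fin_cases i <;> fin_cases j
  · exact absurd rfl h
  · exact h01
  · exact h02
  · exact h10
  · exact absurd rfl h
  · exact h12
  · exact h20
  · exact h21
  · exact absurd rfl h

theorem stp_mem (R : RW A) (o : R.Ω × St × Bool) : stp R o ∈ GA A := by
  unfold stp
  split_ifs
  · exact Subgroup.subset_closure (Or.inl ⟨_, rfl⟩)
  · have h1 : Subgroup.closure {G1, G2} ≤ (GA A).comap (sft (A := A)) := by
      rw [Subgroup.closure_le]
      rintro g (rfl | rfl)
      · exact Subgroup.subset_closure (Or.inr (Or.inl rfl))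
      · exact Subgroup.subset_closure (Or.inr (Or.inr rfl))
    exact h1 (T_mem _)

theorem stp_inv (R : RW A) (o : R.Ω × St × Bool) : stp R (R.inv o.1, inv o.2.1, o.2.2) = (stp R o)⁻¹ := by
  unfold stp
  dsimp only
  split_ifs
  · rw [R.s_inv, map_inv]
  · rw [← T_inv, map_inv]

theorem closure_stp (R : RW A) : Subgroup.closure (Set.range (stp R)) = GA A := by
  apply le_antisymm
  · rw [Subgroup.closure_le]
    rintro _ ⟨o, rfl⟩
    exact stp_mem R o
  · unfold GA
    rw [Subgroup.closure_le]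
    rintro g (⟨a, rfl⟩ | rfl | rfl)
    · have h1 : Subgroup.closure (Set.range R.s) ≤
          (Subgroup.closure (Set.range (stp R))).comap (lamp (A := A)) := by
        rw [Subgroup.closure_le]
        rintro _ ⟨ω, rfl⟩
        exact Subgroup.subset_closure ⟨(ω, ⟨(1, 0), by decide⟩, true), rfl⟩
      rw [R.gen] at h1
      exact h1 (Subgroup.mem_top a)
    · exact Subgroup.subset_closure
        ⟨(Classical.arbitrary R.Ω, ⟨(1, 0), by decide⟩, false), rfl⟩
    · exact Subgroup.subset_closure
        ⟨(Classical.arbitrary R.Ω, ⟨(2, 0), by decide⟩, false), rfl⟩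

theorem pos_mem (R : RW A) (L : List (R.Ω × St × Bool)) : pos R L ∈ GA A := by
  unfold pos
  apply Subgroup.list_prod_mem
  intro x hx
  obtain ⟨o, -, rfl⟩ := List.mem_map.1 hx
  exact stp_mem R o

theorem inv_inv' (p : St) : inv (inv p) = p := rfl

/-- the walk on the wreath product -/
def walk (R : RW A) : RW (GA A) where
  Ω := R.Ω × St × Bool
  fin := inferInstance
  ne := ⟨(Classical.arbitrary R.Ω, ⟨(1, 0), by decide⟩, true)⟩
  s o := ⟨stp R o, stp_mem R o⟩
  inv :=
    { toFun := fun o => (R.inv o.1, inv o.2.1, o.2.2)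
      invFun := fun o => (R.inv.symm o.1, inv o.2.1, o.2.2)
      left_inv := fun o => by simp [inv_inv']
      right_inv := fun o => by simp [inv_inv'] }
  s_inv o := Subtype.ext (stp_inv R o)
  gen := by
    have h1 := closure_stp R
    have h2 : (Subgroup.closure (Set.range fun o : R.Ω × St × Bool =>
        (⟨stp R o, stp_mem R o⟩ : GA A))).map (GA A).subtype = (⊤ : Subgroup (GA A)).map (GA A).subtype := by
      rw [MonoidHom.map_closure, ← Set.range_comp, ← MonoidHom.range_eq_map, Subgroup.range_subtype]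
      exact h1
    exact Subgroup.map_injective (GA A).subtype_injective h2

end Pool.Agent.Helper27.SX
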